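import Pool.Agent.Lib.MP_9d0a1e_co.BStep

/-!
# The steps of the strategy: a new shortest path; the four cop theorem
-/

namespace Pool.Agent.Lib.MP9d0a1e

universe u

variable {V : Type u} {G : SimpleGraph V}

theorem split (p : ℤ → Prop) (N a e : ℤ) (hper : ∀ x, p (x + N) ↔ p x) (he : e < a + N)
    (hne : ∃ x, a ≤ x ∧ x < a + N ∧ p x) :
    (∃ s t, s < t ∧ t < s + N ∧ p s ∧ p t ∧ a ≤ s ∧ t < a + N ∧
      (((∀ x, s < x → x < t → p x → x ≤ e) ∧ (∀ x, t < x → x < s + N → p x → e < x ∧ x < a + N)) ∨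
       ((∀ x, s < x → x < t → p x → e < x) ∧
        (∀ x, t < x → x < s + N → p x → (e < x ∧ x < a + N) ∨ (a + N ≤ x ∧ e < x - N))))) ∨
    (∃ s, a ≤ s ∧ s < a + N ∧ p s ∧ ∀ x, a ≤ x → x < a + N → p x → x = s) := by
  classical
  by_cases h : ∃ x y, a ≤ x ∧ x < y ∧ y ≤ e ∧ p x ∧ p y
  · left
    obtain ⟨x, y, h1, h2, h3, h4, h5⟩ := h
    obtain ⟨s, ⟨hs1, hs2, hs3⟩, hs⟩ := Int.exists_least_of_bdd
      (P := fun z => a ≤ z ∧ z ≤ e ∧ p z) ⟨a, fun z hz => hz.1⟩ ⟨x, h1, by omega, h4⟩
    obtain ⟨t, ⟨ht1, ht2, ht3⟩, ht⟩ := Int.exists_greatest_of_bdd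
      (P := fun z => a ≤ z ∧ z ≤ e ∧ p z) ⟨e, fun z hz => hz.2.1⟩ ⟨x, h1, by omega, h4⟩
    have g1 := hs x ⟨h1, by omega, h4⟩
    have g2 := ht y ⟨by omega, h3, h5⟩
    refine ⟨s, t, by omega, by omega, hs3, ht3, hs1, by omega, Or.inl ⟨?_, ?_⟩⟩
    · intro x _ _ _; omega
    · intro x hx1 hx2 hx3
      have k1 : x < a + N := by
        by_contra hc
        have := hs (x - N) ⟨by omega, by omega, by
          have := hper (x - N)
          rw [sub_add_cancel] at this
          exact this.1 hx3⟩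
        omega
      refine ⟨?_, k1⟩
      by_contra hc
      have := ht x ⟨by omega, by omega, hx3⟩
      omega
  · push Not at h
    obtain ⟨s0, hs1, hs2, hs3, hs4⟩ : ∃ s, a ≤ s ∧ s < a + N ∧ p s ∧
        ∀ x, a ≤ x → x ≤ e → p x → x = s := by
      by_cases h2 : ∃ x, a ≤ x ∧ x ≤ e ∧ p x
      · obtain ⟨x, h3, h4, h5⟩ := h2
        refine ⟨x, h3, by omega, h5, fun y h6 h7 h8 => ?_⟩
        rcases lt_trichotomy x y with h9 | h9 | h9
        · exact absurd h8 (h x y h3 h9 h7 h5)
        · exact h9.symm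
        · exact absurd h5 (h y x h6 h9 h4 h8)
      · push Not at h2
        obtain ⟨x, h3, h4, h5⟩ := hne
        exact ⟨x, h3, h4, h5, fun y h6 h7 h8 => absurd h8 (h2 y h6 h7)⟩
    by_cases h2 : ∃ t, a ≤ t ∧ t < a + N ∧ p t ∧ t ≠ s0
    · left
      obtain ⟨t0, ht1, ht2, ht3, ht4⟩ := h2
      obtain ⟨s, t, hst, hs, ht, hss⟩ : ∃ s t, s < t ∧ (s = s0 ∨ s = t0) ∧ (t = s0 ∨ t = t0) ∧
          (s = s0 ∨ t = s0) := by
        rcases lt_or_gt_of_ne ht4 with h3 | h3
        · exact ⟨t0, s0, h3, by simp, by simp, by simp⟩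
        · exact ⟨s0, t0, h3, by simp, by simp, by simp⟩
      have hps : p s := by rcases hs with rfl | rfl <;> assumption
      have hpt : p t := by rcases ht with rfl | rfl <;> assumption
      refine ⟨s, t, hst, by omega, hps, hpt, by omega, by omega, Or.inr ⟨?_, ?_⟩⟩
      · intro x h3 h4 h5
        by_contra hc
        have := hs4 x (by omega) (by omega) h5
        omega
      · intro x h3 h4 h5
        by_cases h6 : x < a + N
        · left
          refine ⟨?_, h6⟩
          by_contra hc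
          have := hs4 x (by omega) (by omega) h5
          omega
        · right
          refine ⟨by omega, ?_⟩
          by_contra hc
          have := hs4 (x - N) (by omega) (by omega) (by
            have := hper (x - N)
            rw [sub_add_cancel] at this
            exact this.1 h5)
          omega
    · right
      push Not at h2
      exact ⟨s0, hs1, hs2, hs3, fun x h3 h4 h5 => h2 x h3 h4 h5⟩

/-- After a shortest path between two boundary vertices has been taken. -/
theorem x_step {R : Set V} (hK33 : NoK33 G) {w : ℤ → V} {N : ℤ} (hcyc : Cyc G w N)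
    (hout : ∀ x, w x ∉ R) (hbd : ∀ r ∈ R, ∀ b, b ∉ R → G.Adj r b → ∃ x, w x = b)
    (hconn : Conn G R) {s t : ℤ} (hst : s < t) (hts : t < s + N) (P : GPath G R)
    (hlo : P.lo = 0) (hhi : 2 ≤ P.hi) (hq0 : P.q 0 = w s) (hqh : P.q P.hi = w t)
    (hqR : ∀ x, 0 < x → x < P.hi → P.q x ∈ R) {h1 h2 : V → V → Prop}
    (hh1 : IsGuard G R h1) (hh2 : IsGuard G R h2)
    (hc1 : ∀ r ∈ R, ∀ x, s < x → x < t → G.Adj r (w x) → Covers G h1 r (w x))
    (hc2 : ∀ r ∈ R, ∀ x, t < x → x < s + N → G.Adj r (w x) → Covers G h2 r (w x))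
    {r0 : V} (hr0 : r0 ∈ R \ arc P.q 0 P.hi)
    (ih : ∀ K : Set V, K ⊆ R → K ≠ R → ∀ (w : ℤ → V) (N : ℤ) (P : GPath G K) (a b : ℤ)
      (g1 : V → V → Prop), BState G K w N P a b g1 → Sw G K ![g1, P.up, P.low, free]) :
    Sw G (comp G (R \ arc P.q 0 P.hi) r0) ![h1, P.up, P.low, free] ∨
      Sw G (comp G (R \ arc P.q 0 P.hi) r0) ![h2, P.up, P.low, free] := by
  classical
  set K := comp G (R \ arc P.q 0 P.hi) r0 with hKdef
  have hK : K ⊆ R \ arc P.q 0 P.hi := comp_subset hr0
  have hKR : K ⊆ R := fun x hx => (hK hx).1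
  have hKne : K ≠ R := by
    intro h
    have h1 : P.q 1 ∈ arc P.q 0 P.hi := ⟨1, by omega, by omega, rfl⟩
    have h2 : P.q 1 ∈ K := by rw [h]; exact hqR 1 (by omega) (by omega)
    exact (hK h2).2 h1
  have hbK : ∀ r ∈ K, ∀ v, v ∉ K → G.Adj r v → v ∈ arc P.q 0 P.hi ∨ v ∉ R := by
    intro r hr v hv ha
    by_cases h1 : v ∈ R
    · left
      by_contra h2
      exact hv (mem_comp_of_adj hr ha ⟨h1, h2⟩)
    · exact Or.inr h1
  have hbd' : ∀ r ∈ R, ∀ v, v ∉ R → G.Adj r v → ∃ x, s ≤ x ∧ x < s + N ∧ w x = v := by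
    intro r hr v hv ha
    obtain ⟨x, hx⟩ := hbd r hr v hv ha
    obtain ⟨y, h1, h2, h3⟩ := hcyc.exists_mem s x
    exact ⟨y, h1, h2, h3.trans hx⟩
  have hY : ∀ y ∈ arc P.q 0 P.hi, ∃ x, P.lo ≤ x ∧ x ≤ P.hi ∧ P.q x = y := by
    rintro _ ⟨x, h1, h2, rfl⟩
    exact ⟨x, by omega, by omega, rfl⟩
  have hYR : arc P.q 0 P.hi ⊆ R := by
    rintro _ ⟨x, h1, h2, rfl⟩
    exact hqR x h1 h2
  have hpath : ∀ x, P.lo ≤ x → x ≤ P.hi → P.q x ∉ R ∨ P.q x ∈ arc P.q 0 P.hi := by
    intro x h1 h2
    by_cases h3 : 0 < x ∧ x < P.hi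
    · exact Or.inr ⟨x, h3.1, h3.2, rfl⟩
    · left
      have : x = 0 ∨ x = P.hi := by omega
      rcases this with rfl | rfl
      · rw [hq0]; exact hout s
      · rw [hqh]; exact hout t
  have hwP : ∀ x y, 0 < y → y < P.hi → w x ≠ P.q y := fun x y h1 h2 h =>
    hout x (h ▸ hqR y h1 h2)
  have hfi : ∀ x y, 0 ≤ x → x < y → y ≤ P.hi → P.q x ≠ P.q y := by
    intro x y h1 h2 h3 h4
    by_cases h5 : 0 < x
    · have := P.inj_R (x := x) (y := y) (by omega) (by omega) (by omega) h3
        (hqR x h5 (by omega)) h4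
      omega
    · have h6 : x = 0 := by omega
      subst h6
      by_cases h7 : y < P.hi
      · have := P.inj_R (x := y) (y := 0) (by omega) (by omega) (by omega) (by omega)
          (hqR y h2 h7) h4.symm
        omega
      · have h8 : y = P.hi := by omega
        subst h8
        rw [hq0, hqh] at h4
        exact hcyc.ne hst hts h4
  have hYconn : Conn G (arc P.q 0 P.hi) :=
    conn_arc _ _ _ fun x h1 h2 => P.adj x (by omega) (by omega)
  have hYs : ∃ y ∈ arc P.q 0 P.hi, G.Adj y (w s) := by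
    refine ⟨P.q 1, ⟨1, by omega, by omega, rfl⟩, ?_⟩
    have := P.adj 0 (by omega) (by omega)
    rw [zero_add, hq0] at this
    exact this.symm
  have hYt : ∃ y ∈ arc P.q 0 P.hi, G.Adj y (w t) := by
    refine ⟨P.q (P.hi - 1), ⟨P.hi - 1, by omega, by omega, rfl⟩, ?_⟩
    have := P.adj (P.hi - 1) (by omega) (by omega)
    rw [sub_add_cancel, hqh] at this
    exact this
  by_cases hcase : ∃ x, s < x ∧ x < t ∧ ∃ r ∈ K, G.Adj r (w x)
  · left
    have hno : ∀ x, t < x → x < s + N → ∀ r ∈ K, ¬ G.Adj r (w x) := by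
      intro x h1 h2 r hr ha
      exact arc_lemma hK33 hcyc hst hts hconn hout hYR hYconn hYs hYt hr0 hcase
        ⟨x, h1, h2, r, hr, ha⟩
    have B := bstate_mk P (a := 0) (b := P.hi) (m := t - s) (g := fun y => w (t - y))
      (Y := arc P.q 0 P.hi) (r0 := r0) (h := h1) hr0 hlo.le (by omega) le_rfl (by omega) hpath
      (by simpa using hqh) (by simpa using hq0)
      (by
        intro y h1 h2
        have := hcyc.adj (t - y - 1)
        rw [sub_add_cancel] at this
        change G.Adj (w (t - y)) (w (t - (y + 1)))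
        rw [show t - (y + 1) = t - y - 1 by ring]
        exact this.symm)
      hfi
      (fun x y h1 h2 h3 => (hcyc.ne (by omega) (by omega)).symm)
      (by
        intro x y h1 h2 h3 h4
        by_cases hx : 0 < x ∧ x < P.hi
        · exact (hwP (t - y) x hx.1 hx.2).symm
        · have : x = 0 ∨ x = P.hi := by omega
          rcases this with rfl | rfl
          · rw [hq0]; exact hcyc.ne (by omega) (by omega)
          · rw [hqh]; exact (hcyc.ne (by omega) (by omega)).symm)
      (fun y h1 h2 h3 => hout _ (hKR h3))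
      (by
        intro r hr v hv ha
        rcases hbK r hr v hv ha with ⟨x, h1, h2, rfl⟩ | h1
        · exact Or.inl ⟨x, h1.le, h2.le, rfl⟩
        · obtain ⟨x, h2, h3, rfl⟩ := hbd' r (hKR hr) v h1 ha
          have h4 : x ≤ t := by
            by_contra h5
            exact hno x (by omega) h3 r hr ha
          rcases eq_or_lt_of_le h2 with rfl | h2
          · exact Or.inl ⟨0, le_rfl, by omega, hq0⟩
          · rcases eq_or_lt_of_le h4 with rfl | h4
            · exact Or.inl ⟨P.hi, by omega, le_rfl, hqh⟩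
            · exact Or.inr ⟨t - x, by omega, by omega, by
                change w (t - (t - x)) = w x; congr 1; ring⟩)
      (fun r hr x h1 h2 _ => ⟨by omega, by omega⟩)
      (hh1.subset hKR)
      (fun r hr y h1 h2 ha => hc1 r (hKR hr) (t - y) (by omega) (by omega) ha)
    refine sw_mono4 (ih K hKR hKne _ _ _ _ _ _ B) (fun x _ c h => h) ?_ ?_ (fun _ _ _ _ => trivial)
    · intro x hx c h
      exact (P.up_restrict hr0 hY hx c).2 h
    · intro x hx c h
      exact (P.low_restrict hr0 hY hx c).2 h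
  · right
    push Not at hcase
    have B := bstate_mk P (a := 0) (b := P.hi) (m := s + N - t) (g := fun y => w (t + y))
      (Y := arc P.q 0 P.hi) (r0 := r0) (h := h2) hr0 hlo.le (by omega) le_rfl (by omega) hpath
      (by simpa using hqh)
      (by
        change P.q 0 = w (t + (s + N - t))
        rw [show t + (s + N - t) = s + N by ring, hcyc.per, hq0])
      (by
        intro y h1 h2
        have := hcyc.adj (t + y)
        rwa [add_assoc] at this)
      hfi
      (fun x y h1 h2 h3 => hcyc.ne (by omega) (by omega))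
      (by
        intro x y h1 h2 h3 h4
        by_cases hx : 0 < x ∧ x < P.hi
        · exact (hwP (t + y) x hx.1 hx.2).symm
        · have : x = 0 ∨ x = P.hi := by omega
          rcases this with rfl | rfl
          · rw [hq0]; exact hcyc.ne (by omega) (by omega)
          · rw [hqh]; exact hcyc.ne (by omega) (by omega))
      (fun y h1 h2 h3 => hout _ (hKR h3))
      (by
        intro r hr v hv ha
        rcases hbK r hr v hv ha with ⟨x, h1, h2, rfl⟩ | h1
        · exact Or.inl ⟨x, h1.le, h2.le, rfl⟩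
        · obtain ⟨x, h2, h3, rfl⟩ := hbd' r (hKR hr) v h1 ha
          rcases eq_or_lt_of_le h2 with rfl | h2
          · exact Or.inl ⟨0, le_rfl, by omega, hq0⟩
          · have h4 : t ≤ x := by
              by_contra h5
              exact hcase x h2 (by omega) r hr ha
            rcases eq_or_lt_of_le h4 with rfl | h4
            · exact Or.inl ⟨P.hi, by omega, le_rfl, hqh⟩
            · exact Or.inr ⟨x - t, by omega, by omega, by
                change w (t + (x - t)) = w x; congr 1; ring⟩)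
      (fun r hr x h1 h2 _ => ⟨by omega, by omega⟩)
      (hh2.subset hKR)
      (fun r hr y h1 h2 ha => hc2 r (hKR hr) (t + y) (by omega) (by omega) ha)
    refine sw_mono4 (ih K hKR hKne _ _ _ _ _ _ B) (fun x _ c h => h) ?_ ?_ (fun _ _ _ _ => trivial)
    · intro x hx c h
      exact (P.up_restrict hr0 hY hx c).2 h
    · intro x hx c h
      exact (P.low_restrict hr0 hY hx c).2 h

/-- The cycle of period two. -/
theorem cyc_edge {u v : V} (huv : G.Adj u v) :
    Cyc G (mk (fun x => if x ≤ 0 then u else v) (fun x => if x ≤ 0 then v else u) 0 1 1)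
      (1 - 0 + 1) := by
  refine cyc_mk le_rfl (by omega) (by simp) (by simp) ?_ ?_ ?_ ?_ ?_
  · intro x h1 h2
    have : x = 0 := by omega
    subst this
    simpa using huv
  · intro x h1 h2
    have : x = 0 := by omega
    subst this
    simpa using huv.symm
  · intro x y h1 h2 h3
    have hx : x = 0 := by omega
    have hy : y = 1 := by omega
    subst hx; subst hy
    simpa using huv.ne
  · intro x y h1 h2 h3; omega
  · intro x y h1 h2 h3; omega

theorem edge_val {u v : V} (x : ℤ) :
    mk (fun x => if x ≤ 0 then u else v) (fun x => if x ≤ 0 then v else u) 0 1 1 x = u ∨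
    mk (fun x => if x ≤ 0 then u else v) (fun x => if x ≤ 0 then v else u) 0 1 1 x = v := by
  rcases mk_cases (f := fun x : ℤ => if x ≤ 0 then u else v)
    (g := fun x : ℤ => if x ≤ 0 then v else u) (a := 0) (b := 1) (m := 1) le_rfl (by omega) x with
    ⟨y, _, _, h⟩ | ⟨y, h1, h2, _⟩
  · rw [h]
    by_cases hy : y ≤ 0
    · simp [hy]
    · simp [hy]
  · omega

theorem edge_zero {u v : V} :
    mk (fun x => if x ≤ 0 then u else v) (fun x => if x ≤ 0 then v else u) 0 1 1 0 = u := by
  rw [mk_left le_rfl le_rfl (by omega)]; simp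

theorem edge_one {u v : V} :
    mk (fun x => if x ≤ 0 then u else v) (fun x => if x ≤ 0 then v else u) 0 1 1 1 = v := by
  rw [mk_left le_rfl (by omega) le_rfl]; simp

/-- A state in which the boundary is contained in an edge. -/
theorem astate_edge {u v : V} (huv : G.Adj u v) {K : Set V} (hu : u ∉ K) (hv : v ∉ K)
    (hconn : Conn G K) (hbd : ∀ r ∈ K, ∀ b, b ∉ K → G.Adj r b → b = u ∨ b = v)
    (hnb : ∀ v : V, ∃ u, G.Adj v u) :
    AState G K (mk (fun x => if x ≤ 0 then u else v) (fun x => if x ≤ 0 then v else u) 0 1 1)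
      (1 - 0 + 1) (edgeGuard u v) free 0 1 := by
  refine ⟨cyc_edge huv, ?_, ?_, hconn, isGuard_edge huv K, isGuard_free hnb K, by omega, ?_, ?_⟩
  · intro x
    rcases edge_val (u := u) (v := v) x with h | h
    · rw [h]; exact hu
    · rw [h]; exact hv
  · intro r hr b hb ha
    rcases hbd r hr b hb ha with rfl | rfl
    · exact ⟨0, edge_zero⟩
    · exact ⟨1, edge_one⟩
  · intro r _ x _ _ _
    exact covers_edge huv r _ (edge_val x)
  · intro r _ x h1 h2; omega

/-- The step from an `AState`. -/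
theorem a_step (hnb : ∀ v : V, ∃ u, G.Adj v u) (hG : G.Connected) (hK33 : NoK33 G) {R : Set V}
    {w : ℤ → V} {N : ℤ} {g1 g2 : V → V → Prop} {a e : ℤ} (S : AState G R w N g1 g2 a e)
    (ihA : ∀ K : Set V, K ⊆ R → K ≠ R → ∀ (w : ℤ → V) (N : ℤ) (g1 g2 : V → V → Prop) (a e : ℤ),
      AState G K w N g1 g2 a e → Sw G K ![g1, g2, free, free])
    (ihB : ∀ K : Set V, K ⊆ R → K ≠ R → ∀ (w : ℤ → V) (N : ℤ) (P : GPath G K) (a b : ℤ)
      (g1 : V → V → Prop), BState G K w N P a b g1 → Sw G K ![g1, P.up, P.low, free]) :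
    Sw G R ![g1, g2, free, free] := by
  classical
  rcases R.eq_empty_or_nonempty with hRe | ⟨ρ, hρ⟩
  · intro c r hr
    rw [hRe] at hr
    exact absurd hr (Set.notMem_empty _)
  have hcov : ∀ r ∈ R, ∀ v, v ∉ R → G.Adj r v → Covers G g1 r v ∨ Covers G g2 r v := by
    intro r hr v hv ha
    obtain ⟨x, hx⟩ := S.bd r hr v hv ha
    obtain ⟨y, h1, h2, h3⟩ := S.cyc.exists_mem a x
    rw [hx] at h3
    subst h3
    by_cases h4 : y ≤ e
    · exact Or.inl (S.cov1 r hr y h1 h4 ha)
    · exact Or.inr (S.cov2 r hr y (by omega) h2 ha)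
  -- there is a boundary vertex
  have hne : ∃ x, a ≤ x ∧ x < a + N ∧ ∃ r ∈ R, G.Adj r (w x) := by
    obtain ⟨p⟩ := hG.preconnected ρ (w a)
    obtain ⟨r, hr, b, hb, hrb⟩ := exists_exit p hρ (S.out a)
    obtain ⟨x, hx⟩ := S.bd r hr b hb hrb
    obtain ⟨y, h1, h2, h3⟩ := S.cyc.exists_mem a x
    exact ⟨y, h1, h2, r, hr, by rw [h3, hx]; exact hrb⟩
  rcases split (fun x => ∃ r ∈ R, G.Adj r (w x)) N a e (fun x => by simp only [S.cyc.per]) S.lt hne
    with ⟨s, t, hst, hts, hps, hpt, has, hta, hsplit⟩ | ⟨s, hs1, hs2, ⟨r1, hr1, hr1s⟩, huniq⟩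
  · -- two boundary vertices
    obtain ⟨P, hlo, hhi, hq0, hqh, hqR⟩ := exists_X S.conn (S.out s) (S.out t)
      (S.cyc.ne hst hts) hps hpt
    -- the two arcs
    obtain ⟨h1, h2, hh1, hh2, hc1, hc2⟩ : ∃ h1 h2 : V → V → Prop, (h1 = g1 ∨ h1 = g2) ∧
        (h2 = g1 ∨ h2 = g2) ∧
        (∀ r ∈ R, ∀ x, s < x → x < t → G.Adj r (w x) → Covers G h1 r (w x)) ∧
        (∀ r ∈ R, ∀ x, t < x → x < s + N → G.Adj r (w x) → Covers G h2 r (w x)) := by
      rcases hsplit with ⟨k1, k2⟩ | ⟨k1, k2⟩
      · refine ⟨g1, g2, Or.inl rfl, Or.inr rfl, ?_, ?_⟩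
        · intro r hr x h1 h2 ha
          exact S.cov1 r hr x (by omega) (k1 x h1 h2 ⟨r, hr, ha⟩) ha
        · intro r hr x h1 h2 ha
          have := k2 x h1 h2 ⟨r, hr, ha⟩
          exact S.cov2 r hr x this.1 this.2 ha
      · refine ⟨g2, g2, Or.inr rfl, Or.inr rfl, ?_, ?_⟩
        · intro r hr x h1 h2 ha
          exact S.cov2 r hr x (k1 x h1 h2 ⟨r, hr, ha⟩) (by omega) ha
        · intro r hr x h1 h2 ha
          rcases k2 x h1 h2 ⟨r, hr, ha⟩ with h3 | h3
          · exact S.cov2 r hr x h3.1 h3.2 ha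
          · have h4 : w (x - N) = w x := by
              have := S.cyc.per (x - N)
              rw [sub_add_cancel] at this
              exact this.symm
            rw [← h4] at ha ⊢
            exact S.cov2 r hr (x - N) h3.2 (by omega) ha
    -- cops 2 and 3 take the new path
    refine sw_att hnb (2 : Fin 4) (J := free) (h := P.up) ?_ ?_ ?_ ?_
    · intro k hk
      fin_cases k
      · exact S.gd1
      · exact S.gd2
      · exact absurd rfl hk
      · exact isGuard_free hnb R
    · rw [update2]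
      refine cov4 fun r hr v hv ha => ?_
      rcases hcov r hr v hv ha with h | h
      · exact Or.inl h
      · exact Or.inr (Or.inl h)
    · intro r hr c _
      exact P.att_free hG r hr c
    rw [update2]
    refine sw_att hnb (3 : Fin 4) (J := free) (h := P.low) ?_ ?_ ?_ ?_
    · intro k hk
      fin_cases k
      · exact S.gd1
      · exact S.gd2
      · exact P.isGuard_up
      · exact absurd rfl hk
    · rw [update3]
      refine cov4 fun r hr v hv ha => ?_
      rcases hcov r hr v hv ha with h | h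
      · exact Or.inl h
      · exact Or.inr (Or.inl h)
    · intro r hr c _
      exact P.att_free_low hG r hr c
    rw [update3]
    refine sw_pass (Y := arc P.q 0 P.hi) hnb ?_ ?_ ?_ ?_
    · intro k
      fin_cases k
      · exact S.gd1
      · exact S.gd2
      · exact P.isGuard_up
      · exact P.isGuard_low
    · refine cov4 fun r hr v hv ha => ?_
      rcases hcov r hr v hv ha with h | h
      · exact Or.inl h
      · exact Or.inr (Or.inl h)
    · rintro r hr _ v ⟨x, h1, h2, rfl⟩ ha
      rcases P.covers_pair hr (w := x) (by omega) (by omega) ha with h | h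
      · exact ⟨2, h⟩
      · exact ⟨3, h⟩
    intro r0 hr0
    have fin : ∀ h : V → V → Prop, (h = g1 ∨ h = g2) →
        Sw G (comp G (R \ arc P.q 0 P.hi) r0) ![h, P.up, P.low, free] →
        Sw G (comp G (R \ arc P.q 0 P.hi) r0) ![g1, g2, P.up, P.low] := by
      rintro h (rfl | rfl) hsw
      · refine sw_perm4 ![0, 2, 3, 1] ![0, 3, 1, 2] (by decide) (by decide) ?_
        exact sw_mono4 hsw (fun x _ c h => h) (fun x _ c h => h) (fun x _ c h => h)
          (fun _ _ _ _ => trivial)
      · refine sw_perm4 ![1, 2, 3, 0] ![3, 0, 1, 2] (by decide) (by decide) ?_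
        exact sw_mono4 hsw (fun x _ c h => h) (fun x _ c h => h) (fun x _ c h => h)
          (fun _ _ _ _ => trivial)
    have hg : ∀ h : V → V → Prop, (h = g1 ∨ h = g2) → IsGuard G R h := by
      rintro h (rfl | rfl)
      · exact S.gd1
      · exact S.gd2
    rcases x_step hK33 S.cyc S.out S.bd S.conn hst hts P hlo hhi hq0 hqh hqR (hg h1 hh1)
      (hg h2 hh2) hc1 hc2 hr0 ihB with h | h
    · exact fin h1 hh1 h
    · exact fin h2 hh2 h
  · -- one boundary vertex
    have hadj : G.Adj (w s) r1 := hr1s.symm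
    refine sw_att hnb (2 : Fin 4) (J := free) (h := edgeGuard (w s) r1) ?_ ?_ ?_ ?_
    · intro k hk
      fin_cases k
      · exact S.gd1
      · exact S.gd2
      · exact absurd rfl hk
      · exact isGuard_free hnb R
    · rw [update2]
      refine cov4 fun r hr v hv ha => ?_
      rcases hcov r hr v hv ha with h | h
      · exact Or.inl h
      · exact Or.inr (Or.inl h)
    · intro r hr c _
      obtain ⟨p⟩ := hG.preconnected c (w s)
      exact att_walk (h := edgeGuard (w s) r1)
        (fun r _ => Att.done (show edgeGuard (w s) r1 r (w s) from Or.inl rfl)) p r hr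
    rw [update2]
    refine sw_pass (Y := {r1}) hnb ?_ ?_ ?_ ?_
    · intro k
      fin_cases k
      · exact S.gd1
      · exact S.gd2
      · exact isGuard_edge hadj R
      · exact isGuard_free hnb R
    · refine cov4 fun r hr v hv ha => ?_
      rcases hcov r hr v hv ha with h | h
      · exact Or.inl h
      · exact Or.inr (Or.inl h)
    · rintro r hr _ v hv _
      exact ⟨2, covers_edge hadj r v (Or.inr hv)⟩
    intro r0 hr0
    set K := comp G (R \ {r1}) r0 with hKdef
    have hK : K ⊆ R \ {r1} := comp_subset hr0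
    have hKR : K ⊆ R := fun x hx => (hK hx).1
    have hKne : K ≠ R := by
      intro h
      have h2 : r1 ∈ K := by rw [h]; exact hr1
      exact (hK h2).2 rfl
    have A := astate_edge hadj (K := K) (fun h => S.out s (hKR h)) (fun h => (hK h).2 rfl)
      (conn_comp _ _) (by
        intro r hr b hb ha
        by_cases h1 : b ∈ R
        · right
          by_contra h2
          exact hb (mem_comp_of_adj hr ha ⟨h1, h2⟩)
        · left
          obtain ⟨x, hx⟩ := S.bd r (hKR hr) b h1 ha
          obtain ⟨y, h2, h3, h4⟩ := S.cyc.exists_mem a x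
          have h5 : y = s := huniq y h2 h3 ⟨r, hKR hr, by rw [h4, hx]; exact ha⟩
          rw [← hx, ← h4, h5]) hnb
    have hsw := ihA K hKR hKne _ _ _ _ _ _ A
    refine sw_perm4 ![2, 0, 1, 3] ![1, 2, 0, 3] (by decide) (by decide) ?_
    exact sw_mono4 hsw (fun x _ c h => h) (fun _ _ _ _ => trivial) (fun _ _ _ _ => trivial)
      (fun _ _ _ _ => trivial)

/-- All states are winning. -/
theorem all_states [Finite V] (hnb : ∀ v : V, ∃ u, G.Adj v u) (hG : G.Connected)
    (hK33 : NoK33 G) (n : ℕ) : ∀ R : Set V, R.ncard = n →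
    (∀ (w : ℤ → V) (N : ℤ) (g1 g2 : V → V → Prop) (a e : ℤ),
      AState G R w N g1 g2 a e → Sw G R ![g1, g2, free, free]) ∧
    (∀ (w : ℤ → V) (N : ℤ) (P : GPath G R) (a b : ℤ) (g1 : V → V → Prop),
      BState G R w N P a b g1 → Sw G R ![g1, P.up, P.low, free]) := by
  induction n using Nat.strong_induction_on with
  | _ n ih =>
    intro R hR
    have hlt : ∀ K : Set V, K ⊆ R → K ≠ R → K.ncard < n := by
      intro K h1 h2
      rw [← hR]
      exact Set.ncard_lt_ncard (lt_of_le_of_ne h1 h2) (Set.toFinite R)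
    have hA : ∀ (w : ℤ → V) (N : ℤ) (g1 g2 : V → V → Prop) (a e : ℤ),
        AState G R w N g1 g2 a e → Sw G R ![g1, g2, free, free] := by
      intro w N g1 g2 a e S
      exact a_step hnb hG hK33 S (fun K h1 h2 => (ih _ (hlt K h1 h2) K rfl).1)
        (fun K h1 h2 => (ih _ (hlt K h1 h2) K rfl).2)
    refine ⟨hA, ?_⟩
    intro w N P a b g1 S
    exact b_step hnb hG hK33 S hA (fun K h1 h2 => (ih _ (hlt K h1 h2) K rfl).2)

/-- Four cops win from every position. -/
theorem sw_univ [Finite V] (hnb : ∀ v : V, ∃ u, G.Adj v u) (hG : G.Connected)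
    (hK33 : NoK33 G) {u v : V} (huv : G.Adj u v) :
    Sw G Set.univ ![free, free, free, free] := by
  have e0 : Function.update (![free, free, free, free] : Fin 4 → V → V → Prop) 0
      (edgeGuard u v) = ![edgeGuard u v, free, free, free] := by
    funext i; fin_cases i <;> rfl
  refine sw_att hnb (0 : Fin 4) (J := free) (h := edgeGuard u v) ?_ ?_ ?_ ?_
  · intro k _
    fin_cases k <;> exact isGuard_free hnb _
  · intro r _ b hb
    exact absurd (Set.mem_univ b) hb
  · intro r hr c _
    obtain ⟨p⟩ := hG.preconnected c u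
    exact att_walk (h := edgeGuard u v)
      (fun r _ => Att.done (show edgeGuard u v r u from Or.inl rfl)) p r hr
  rw [e0]
  refine sw_pass (Y := {u, v}) hnb ?_ ?_ ?_ ?_
  · intro k
    fin_cases k
    · exact isGuard_edge huv _
    all_goals exact isGuard_free hnb _
  · intro r _ b hb
    exact absurd (Set.mem_univ b) hb
  · rintro r _ _ b hb _
    exact ⟨0, covers_edge huv r b hb⟩
  intro r0 hr0
  set K := comp G (Set.univ \ {u, v}) r0 with hKdef
  have hK : K ⊆ Set.univ \ {u, v} := comp_subset hr0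
  refine (all_states hnb hG hK33 _ K rfl).1 _ _ _ _ _ _ (astate_edge huv (K := K)
    (fun h => (hK h).2 (by simp)) (fun h => (hK h).2 (by simp)) (conn_comp _ _) ?_ hnb)
  intro r hr b hb ha
  by_contra h2
  push Not at h2
  exact hb (mem_comp_of_adj hr ha ⟨Set.mem_univ _, by simp [h2.1, h2.2]⟩)

/-- Four fully active cops win on every connected graph without `K_{3,3}` minor. -/
theorem specCore : SpecCore.{u} := by
  intro V _ G hG hcard hK33
  have hnt : Nontrivial V := Fintype.one_lt_card_iff_nontrivial.1 (by omega)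
  have hnb : ∀ v : V, ∃ u, G.Adj v u := fun v => hG.preconnected.exists_adj_of_nontrivial v
  obtain ⟨u⟩ : Nonempty V := hG.nonempty
  obtain ⟨v, huv⟩ := hnb u
  have hsw := sw_univ hnb hG hK33 huv
  refine copsWin_of_rwin hnb (fun _ => u) fun r => Or.inr ⟨fun _ => v, fun _ => huv, ?_⟩
  refine hsw _ r (Set.mem_univ r) fun i => ?_
  fin_cases i <;> trivial

end Pool.Agent.Lib.MP9d0a1e
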