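import Pool.Agent.Lib.MP_9d0a1e_co.States

/-!
# The steps of the strategy: pushing the path
-/

namespace Pool.Agent.Lib.MP9d0a1e

universe u

variable {V : Type u} {G : SimpleGraph V}

theorem update2 {α : Type*} (p q r s t : α) :
    Function.update ![p, q, r, s] 2 t = ![p, q, t, s] := by
  funext i; fin_cases i <;> rfl

theorem update3 {α : Type*} (p q r s t : α) :
    Function.update ![p, q, r, s] 3 t = ![p, q, r, t] := by
  funext i; fin_cases i <;> rfl

/-- A permutation of the four cops. -/
theorem sw_perm4 {R : Set V} {p q r s : V → V → Prop} (e e' : Fin 4 → Fin 4)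
    (h1 : ∀ i, e' (e i) = i) (h2 : ∀ i, e (e' i) = i)
    (h : Sw G R ![![p, q, r, s] (e 0), ![p, q, r, s] (e 1), ![p, q, r, s] (e 2),
      ![p, q, r, s] (e 3)]) : Sw G R ![p, q, r, s] := by
  refine Sw.perm (⟨e, e', h1, h2⟩ : Equiv.Perm (Fin 4)) ?_
  have : (fun i => ![p, q, r, s] ((⟨e, e', h1, h2⟩ : Equiv.Perm (Fin 4)) i)) =
      ![![p, q, r, s] (e 0), ![p, q, r, s] (e 1), ![p, q, r, s] (e 2), ![p, q, r, s] (e 3)] := by
    funext i; fin_cases i <;> rfl
  rw [this]
  exact h

/-- Weakening the four relations. -/
theorem sw_mono4 {R : Set V} {p q r s p' q' r' s' : V → V → Prop}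
    (h : Sw G R ![p', q', r', s']) (h1 : ∀ x ∈ R, ∀ c, p x c → p' x c)
    (h2 : ∀ x ∈ R, ∀ c, q x c → q' x c) (h3 : ∀ x ∈ R, ∀ c, r x c → r' x c)
    (h4 : ∀ x ∈ R, ∀ c, s x c → s' x c) : Sw G R ![p, q, r, s] := by
  refine h.mono ?_
  intro i
  fin_cases i
  · exact h1
  · exact h2
  · exact h3
  · exact h4

theorem cov4 {R : Set V} {p q r s : V → V → Prop}
    (h : ∀ x ∈ R, ∀ b, b ∉ R → G.Adj x b → Covers G p x b ∨ Covers G q x b ∨ Covers G r x b ∨
      Covers G s x b) : Cov G R ![p, q, r, s] := by
  intro x hx b hb ha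
  rcases h x hx b hb ha with h | h | h | h
  · exact ⟨0, h⟩
  · exact ⟨1, h⟩
  · exact ⟨2, h⟩
  · exact ⟨3, h⟩

/-- The step from a `BState`. -/
theorem b_step (hnb : ∀ v : V, ∃ u, G.Adj v u) (hG : G.Connected) (hK33 : NoK33 G) {R : Set V}
    {w : ℤ → V} {N : ℤ} {P : GPath G R} {a b : ℤ} {g1 : V → V → Prop}
    (S : BState G R w N P a b g1)
    (hA : ∀ (w : ℤ → V) (N : ℤ) (g1 g2 : V → V → Prop) (a e : ℤ), AState G R w N g1 g2 a e →
      Sw G R ![g1, g2, free, free])
    (ih : ∀ K : Set V, K ⊆ R → K ≠ R → ∀ (w : ℤ → V) (N : ℤ) (P : GPath G K) (a b : ℤ)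
      (g1 : V → V → Prop), BState G K w N P a b g1 → Sw G K ![g1, P.up, P.low, free]) :
    Sw G R ![g1, P.up, P.low, free] := by
  classical
  have hbd : ∀ r ∈ R, ∀ v, v ∉ R → G.Adj r v → ∃ x, a ≤ x ∧ x < a + N ∧ w x = v := by
    intro r hr v hv ha
    obtain ⟨x, hx⟩ := S.bd r hr v hv ha
    obtain ⟨y, h1, h2, h3⟩ := S.cyc.exists_mem a x
    exact ⟨y, h1, h2, h3.trans hx⟩
  have g1' := S.lo_le
  have g2' := S.lt
  have g3' := S.le_hi
  have g4' := S.lt'
  by_cases hD : ∃ i, ∃ r ∈ R, P.lo ≤ i ∧ i ≤ P.hi ∧ G.Adj r (P.q i) ∧ P.al r = i + 1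
  · -- the highest D-edge
    obtain ⟨i, ⟨r1, hr1, hi1, hi2, hi3, hi4⟩, hmax⟩ :=
      Int.exists_greatest_of_bdd (P := fun i => ∃ r ∈ R, P.lo ≤ i ∧ i ≤ P.hi ∧ G.Adj r (P.q i) ∧
        P.al r = i + 1) ⟨P.hi, fun z ⟨_, _, _, h, _⟩ => h⟩ hD
    obtain ⟨j, z, b1⟩ := P.exists_bypass S.pout hr1 hi1 hi3 hi4
    have f1 := b1.lt
    have f2 := b1.le_hi
    -- the levels `i`, `j` are between `a` and `b`
    have hai := S.hab r1 hr1 i hi1 hi2 hi3
    have hzj : G.Adj (z (j - 1)) (P.q j) := by
      have := b1.adj (j - 1) (by omega) (by omega)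
      rw [sub_add_cancel, b1.z_j] at this
      exact this
    have haj := S.hab (z (j - 1)) (b1.mem _ (by omega) (by omega)) j (by omega) f2 hzj
    -- covering
    have hcovD : ∀ r ∈ R, ∀ v, v ∉ R → G.Adj r v →
        Covers G g1 r v ∨ Covers G P.up r v ∨ ∃ x, P.lo ≤ x ∧ x ≤ i ∧ v = P.q x ∧
          G.Adj r (P.q x) ∧ P.al r = x + 1 := by
      intro r hr v hv ha
      obtain ⟨x, hx1, hx2, rfl⟩ := hbd r hr v hv ha
      by_cases hxb : x ≤ b
      · rw [S.eq x hx1 hxb] at ha ⊢
        by_cases hal : P.al r = x + 1
        · exact Or.inr (Or.inr ⟨x, by omega,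
            hmax x ⟨r, hr, by omega, by omega, ha, hal⟩, rfl, ha, hal⟩)
        · exact Or.inr (Or.inl (P.covers_up hr (by omega) (by omega) ha hal))
      · exact Or.inl (S.cov1 r hr x (by omega) hx2 ha)
    -- lower mode on the new path covers the D-edges
    have hcovL : ∀ r ∈ R, ∀ x, P.lo ≤ x → x ≤ i → G.Adj r (P.q x) → P.al r = x + 1 →
        Covers G b1.flip.low r (P.q x) := by
      intro r hr x h1 h2 h3 h4
      have e1 : b1.flip.q x = P.q x := Bypass.fq_out P z (Or.inl h2)
      have e2 : P.hh i r = b1.flip.hh i r := (b1.hh_flip r).symm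
      have h5 := P.al_le_be hr
      have h6 := P.be_le_hh (i := i) (by omega) r
      have h7 := b1.flip.be_cases (i := i) (by change i ≤ P.hi; omega) r
      rw [← e1] at h3 ⊢
      exact b1.flip.covers_low hr h1 (by change x ≤ P.hi; omega) h3 (by omega)
    have hcov2 : ∀ r ∈ R, ∀ v, v ∉ R → G.Adj r v →
        Covers G g1 r v ∨ Covers G P.up r v ∨ Covers G b1.flip.low r v := by
      intro r hr v hv ha
      rcases hcovD r hr v hv ha with h | h | ⟨x, h1, h2, rfl, h3, h4⟩
      · exact Or.inl h
      · exact Or.inr (Or.inl h)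
      · exact Or.inr (Or.inr (hcovL r hr x h1 h2 h3 h4))
    -- first change: cop 2 goes to lower mode on the new path
    refine sw_att hnb (2 : Fin 4) (J := b1.rel) (h := b1.flip.low) ?_ ?_ ?_ ?_
    · intro k hk
      fin_cases k
      · exact S.gd1
      · exact P.isGuard_up
      · exact absurd rfl hk
      · exact isGuard_free hnb R
    · rw [update2]
      refine cov4 fun r hr v hv ha => ?_
      rcases hcovD r hr v hv ha with h | h | ⟨x, h1, h2, rfl, h3, h4⟩
      · exact Or.inl h
      · exact Or.inr (Or.inl h)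
      · exact Or.inr (Or.inr (Or.inl (b1.covers_rel hr h1 h2 h3 h4)))
    · intro r hr c hc
      exact b1.att_low r hr c hc
    rw [update2]
    -- second change: cop 3 goes to upper mode on the new path
    refine sw_att hnb (3 : Fin 4) (J := free) (h := b1.flip.up) ?_ ?_ ?_ ?_
    · intro k hk
      fin_cases k
      · exact S.gd1
      · exact P.isGuard_up
      · exact b1.flip.isGuard_low
      · exact absurd rfl hk
    · rw [update3]
      refine cov4 fun r hr v hv ha => ?_
      rcases hcov2 r hr v hv ha with h | h | h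
      · exact Or.inl h
      · exact Or.inr (Or.inl h)
      · exact Or.inr (Or.inr (Or.inl h))
    · intro r hr c _
      exact b1.flip.att_free hG r hr c
    rw [update3]
    -- pass to a component
    have hY : ∀ y ∈ arc z i j, ∃ x, P.lo ≤ x ∧ x ≤ P.hi ∧ b1.flip.q x = y := by
      rintro _ ⟨x, h1, h2, rfl⟩
      exact ⟨x, by omega, by omega, Bypass.fq_in P z h1 h2⟩
    have hYR : arc z i j ⊆ R := by
      rintro _ ⟨x, h1, h2, rfl⟩
      exact b1.mem x h1 h2
    refine sw_pass (Y := arc z i j) hnb ?_ ?_ ?_ ?_
    · intro k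
      fin_cases k
      · exact S.gd1
      · exact P.isGuard_up
      · exact b1.flip.isGuard_low
      · exact b1.flip.isGuard_up
    · refine cov4 fun r hr v hv ha => ?_
      rcases hcov2 r hr v hv ha with h | h | h
      · exact Or.inl h
      · exact Or.inr (Or.inl h)
      · exact Or.inr (Or.inr (Or.inl h))
    · rintro r hr _ v ⟨x, h1, h2, rfl⟩ ha
      have e1 : b1.flip.q x = z x := Bypass.fq_in P z h1 h2
      rw [← e1] at ha ⊢
      rcases b1.flip.covers_pair hr (w := x) (by change P.lo ≤ x; omega)
        (by change x ≤ P.hi; omega) ha with h | h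
      · exact ⟨3, h⟩
      · exact ⟨2, h⟩
    intro r0 hr0
    set K := comp G (R \ arc z i j) r0 with hKdef
    have hK : K ⊆ R \ arc z i j := comp_subset hr0
    have hKR : K ⊆ R := fun x hx => (hK hx).1
    have hKne : K ≠ R := by
      intro h
      have h1 : z (i + 1) ∈ arc z i j := ⟨i + 1, by omega, by omega, rfl⟩
      have h2 : z (i + 1) ∈ K := by rw [h]; exact hYR h1
      exact (hK h2).2 h1
    -- boundary of `K`
    have hbK : ∀ r ∈ K, ∀ v, v ∉ K → G.Adj r v → v ∈ arc z i j ∨ v ∉ R := by
      intro r hr v hv ha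
      by_cases h1 : v ∈ R
      · left
        by_contra h2
        exact hv (mem_comp_of_adj hr ha ⟨h1, h2⟩)
      · exact Or.inr h1
    have hqR : ∀ x, P.lo ≤ x → x ≤ P.hi → b1.flip.q x ∉ R ∨ b1.flip.q x ∈ arc z i j := by
      intro x h1 h2
      by_cases h3 : i < x ∧ x < j
      · right
        have : b1.flip.q x = z x := Bypass.fq_in P z h3.1 h3.2
        rw [this]
        exact ⟨x, h3.1, h3.2, rfl⟩
      · left
        have : b1.flip.q x = P.q x := Bypass.fq_out P z (by omega)
        rw [this]
        exact S.pout x h1 h2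
    have hwz : ∀ x y, i < y → y < j → w x ≠ z y := by
      intro x y h1 h2 h
      exact S.out x (h ▸ b1.mem y h1 h2)
    have hzz : ∀ x y, i < x → x < y → y < j → z x ≠ z y := by
      intro x y h1 h2 h3 h
      have e1 : b1.flip.q x = z x := Bypass.fq_in P z h1 (by omega)
      have e2 : b1.flip.q y = z y := Bypass.fq_in P z (by omega) h3
      have := b1.flip.inj_R (x := x) (y := y) (by change P.lo ≤ x; omega)
        (by change x ≤ P.hi; omega) (by change P.lo ≤ y; omega) (by change y ≤ P.hi; omega)
        (by rw [e1]; exact b1.mem x h1 (by omega)) (by rw [e1, e2, h])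
      omega
    have hfi : ∀ x y, a ≤ x → x < y → y ≤ b → b1.flip.q x ≠ b1.flip.q y := by
      intro x y h1 h2 h3
      by_cases hx : i < x ∧ x < j
      · have e1 : b1.flip.q x = z x := Bypass.fq_in P z hx.1 hx.2
        by_cases hy : i < y ∧ y < j
        · have e2 : b1.flip.q y = z y := Bypass.fq_in P z hy.1 hy.2
          rw [e1, e2]
          exact hzz x y hx.1 h2 hy.2
        · have e2 : b1.flip.q y = P.q y := Bypass.fq_out P z (by omega)
          rw [e1, e2, ← S.eq y (by omega) h3]
          exact (hwz y x hx.1 hx.2).symm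
      · have e1 : b1.flip.q x = P.q x := Bypass.fq_out P z (by omega)
        rw [e1, ← S.eq x h1 (by omega)]
        by_cases hy : i < y ∧ y < j
        · have e2 : b1.flip.q y = z y := Bypass.fq_in P z hy.1 hy.2
          rw [e2]
          exact hwz x y hy.1 hy.2
        · have e2 : b1.flip.q y = P.q y := Bypass.fq_out P z (by omega)
          rw [e2, ← S.eq y (by omega) h3]
          exact S.cyc.ne h2 (by omega)
    have hfw : ∀ x y, a ≤ x → x ≤ b → b < y → y < a + N → b1.flip.q x ≠ w y := by
      intro x y h1 h2 h3 h4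
      by_cases hx : i < x ∧ x < j
      · have e1 : b1.flip.q x = z x := Bypass.fq_in P z hx.1 hx.2
        rw [e1]
        exact (hwz y x hx.1 hx.2).symm
      · have e1 : b1.flip.q x = P.q x := Bypass.fq_out P z (by omega)
        rw [e1, ← S.eq x h1 h2]
        exact S.cyc.ne (by omega) (by omega)
    have hYconn : Conn G (arc z i j) := conn_arc z i j fun x h1 h2 => b1.adj x h1.le (by omega)
    have hzi : G.Adj (z (i + 1)) (w i) := by
      rw [S.eq i hai.1 hai.2, ← b1.z_i]
      exact (b1.adj i le_rfl (by omega)).symm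
    have hzj' : G.Adj (z (j - 1)) (w j) := by
      rw [S.eq j haj.1 haj.2]; exact hzj
    by_cases hcase : ∃ x, i < x ∧ x < j ∧ ∃ r ∈ K, G.Adj r (w x)
    · -- the component touches the replaced part, hence not the rest
      have hno : ∀ x, j < x → x < i + N → ∀ r ∈ K, ¬ G.Adj r (w x) := by
        intro x h1 h2 r hr ha
        exact arc_lemma hK33 S.cyc (s := i) (t := j) (by omega) (by omega) S.conn S.out hYR
          hYconn ⟨_, ⟨i + 1, by omega, by omega, rfl⟩, hzi⟩
          ⟨_, ⟨j - 1, by omega, by omega, rfl⟩, hzj'⟩ hr0 hcase ⟨x, h1, h2, r, hr, ha⟩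
      have hno' : ∀ x, P.lo ≤ x → x ≤ P.hi → ∀ r ∈ K, G.Adj r (P.q x) → i ≤ x ∧ x ≤ j := by
        intro x h1 h2 r hr ha
        have h3 := S.hab r (hKR hr) x h1 h2 ha
        rw [← S.eq x h3.1 h3.2] at ha
        by_contra h4
        have h5 : x < i ∨ j < x := by omega
        rcases h5 with h5 | h5
        · refine hno (x + N) (by omega) (by omega) r hr ?_
          rwa [S.cyc.per]
        · exact hno x h5 (by omega) r hr ha
      have B := bstate_mk b1.flip (a := i) (b := j) (m := j - i) (g := fun y => P.q (j - y))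
        (Y := arc z i j) (r0 := r0) (h := P.up) hr0 hi1 (by omega) f2 (by omega) hqR
        (by change Bypass.fq P i j z j = _; rw [Bypass.fq_out P z (by omega)]; simp)
        (by change Bypass.fq P i j z i = _; rw [Bypass.fq_out P z (by omega)]; simp)
        (by
          intro y h1 h2
          have := P.adj (j - y - 1) (by omega) (by omega)
          rw [sub_add_cancel] at this
          change G.Adj (P.q (j - y)) (P.q (j - (y + 1)))
          rw [show j - (y + 1) = j - y - 1 by ring]
          exact this.symm)
        (fun x y h1 h2 h3 => hfi x y (by omega) h2 (by omega))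
        (by
          intro x y h1 h2 h3
          change P.q (j - x) ≠ P.q (j - y)
          rw [← S.eq (j - x) (by omega) (by omega), ← S.eq (j - y) (by omega) (by omega)]
          exact (S.cyc.ne (by omega) (by omega)).symm)
        (by
          intro x y h1 h2 h3 h4
          change b1.flip.q x ≠ P.q (j - y)
          rw [← S.eq (j - y) (by omega) (by omega)]
          by_cases hx : i < x ∧ x < j
          · have e1 : b1.flip.q x = z x := Bypass.fq_in P z hx.1 hx.2
            rw [e1]
            exact (hwz _ x hx.1 hx.2).symm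
          · have e1 : b1.flip.q x = P.q x := Bypass.fq_out P z (by omega)
            rw [e1, ← S.eq x (by omega) (by omega)]
            have : x = i ∨ x = j := by omega
            rcases this with rfl | rfl
            · exact S.cyc.ne (by omega) (by omega)
            · exact (S.cyc.ne (by omega) (by omega)).symm)
        (fun y h1 h2 h3 => S.pout _ (by omega) (by omega) (hKR h3))
        (by
          intro r hr v hv ha
          rcases hbK r hr v hv ha with ⟨x, h1, h2, rfl⟩ | h1
          · exact Or.inl ⟨x, h1.le, h2.le, Bypass.fq_in P z h1 h2⟩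
          · obtain ⟨x, h2, h3, rfl⟩ := hbd r (hKR hr) v h1 ha
            have h4 : i ≤ x ∧ x ≤ j := by
              by_contra h5
              have h6 : x < i ∨ j < x := by omega
              rcases h6 with h6 | h6
              · refine hno (x + N) (by omega) (by omega) r hr ?_
                rwa [S.cyc.per]
              · exact hno x h6 (by omega) r hr ha
            by_cases h5 : i < x ∧ x < j
            · exact Or.inr ⟨j - x, by omega, by omega, by
                change P.q (j - (j - x)) = w x
                rw [S.eq x h2 (by omega)]; congr 1; ring⟩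
            · refine Or.inl ⟨x, h4.1, h4.2, ?_⟩
              change Bypass.fq P i j z x = w x
              rw [Bypass.fq_out P z (by omega), S.eq x h2 (by omega)])
        (by
          intro r hr x h1 h2 ha
          by_cases h3 : i < x ∧ x < j
          · exact ⟨h3.1.le, h3.2.le⟩
          · have e1 : b1.flip.q x = P.q x := Bypass.fq_out P z (by omega)
            rw [e1] at ha
            exact hno' x h1 h2 r hr ha)
        (P.isGuard_up.subset hKR)
        (by
          intro r hr y h1 h2 ha
          change G.Adj r (P.q (j - y)) at ha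
          change Covers G P.up r (P.q (j - y))
          refine P.covers_up (hKR hr) (by omega) (by omega) ha ?_
          intro h3
          have := hmax (j - y) ⟨r, hKR hr, by omega, by omega, ha, h3⟩
          omega)
      have hsw := ih K hKR hKne _ _ _ _ _ _ B
      refine sw_perm4 ![1, 3, 2, 0] ![3, 0, 2, 1] (by decide) (by decide) ?_
      refine sw_mono4 hsw (fun x _ c h => h) ?_ ?_ (fun _ _ _ _ => trivial)
      · intro x hx c h
        exact (b1.flip.up_restrict hr0 hY hx c).2 h
      · intro x hx c h
        exact (b1.flip.low_restrict hr0 hY hx c).2 h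
    · -- the component does not touch the replaced part
      push Not at hcase
      have B := bstate_mk b1.flip (a := a) (b := b) (m := N - (b - a)) (g := fun y => w (b + y))
        (Y := arc z i j) (r0 := r0) (h := g1) hr0 S.lo_le S.lt S.le_hi (by omega) hqR
        (by
          change Bypass.fq P i j z b = w (b + 0)
          rw [Bypass.fq_out P z (by omega), add_zero, S.eq b (by omega) le_rfl])
        (by
          change Bypass.fq P i j z a = w (b + (N - (b - a)))
          rw [Bypass.fq_out P z (by omega), show b + (N - (b - a)) = a + N by ring, S.cyc.per,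
            S.eq a le_rfl (by omega)])
        (by
          intro y _ _
          have := S.cyc.adj (b + y)
          rwa [add_assoc] at this)
        hfi
        (fun x y h1 h2 h3 => S.cyc.ne (by omega) (by omega))
        (fun x y h1 h2 h3 h4 => hfw x (b + y) h1 h2 (by omega) (by omega))
        (fun y h1 h2 h3 => S.out _ (hKR h3))
        (by
          intro r hr v hv ha
          rcases hbK r hr v hv ha with ⟨x, h1, h2, rfl⟩ | h1
          · exact Or.inl ⟨x, by omega, by omega, Bypass.fq_in P z h1 h2⟩
          · obtain ⟨x, h2, h3, rfl⟩ := hbd r (hKR hr) v h1 ha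
            by_cases h4 : x ≤ b
            · refine Or.inl ⟨x, h2, h4, ?_⟩
              change Bypass.fq P i j z x = w x
              rw [Bypass.fq_out P z ?_, S.eq x h2 h4]
              by_contra h5
              exact hcase x (by omega) (by omega) r hr ha
            · exact Or.inr ⟨x - b, by omega, by omega, by
                change w (b + (x - b)) = w x
                congr 1; ring⟩)
        (by
          intro r hr x h1 h2 ha
          by_cases h3 : i < x ∧ x < j
          · exact ⟨by omega, by omega⟩
          · have e1 : b1.flip.q x = P.q x := Bypass.fq_out P z (by omega)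
            rw [e1] at ha
            exact S.hab r (hKR hr) x h1 h2 ha)
        (S.gd1.subset hKR)
        (by
          intro r hr y h1 h2 ha
          exact S.cov1 r (hKR hr) (b + y) (by omega) (by omega) ha)
      have hsw := ih K hKR hKne _ _ _ _ _ _ B
      refine sw_perm4 ![0, 3, 2, 1] ![0, 3, 2, 1] (by decide) (by decide) ?_
      refine sw_mono4 hsw (fun x _ c h => h) ?_ ?_ (fun _ _ _ _ => trivial)
      · intro x hx c h
        exact (b1.flip.up_restrict hr0 hY hx c).2 h
      · intro x hx c h
        exact (b1.flip.low_restrict hr0 hY hx c).2 h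
  · -- no D-edge: upper mode alone suffices
    push Not at hD
    have A : AState G R w N P.up g1 a b := by
      refine ⟨S.cyc, S.out, S.bd, S.conn, P.isGuard_up, S.gd1, by omega, ?_, ?_⟩
      · intro r hr x h1 h2 ha
        rw [S.eq x h1 h2] at ha ⊢
        exact P.covers_up hr (by omega) (by omega) ha
          (hD x r hr (by omega) (by omega) ha)
      · intro r hr x h1 h2 ha
        exact S.cov1 r hr x h1 h2 ha
    have hsw := hA _ _ _ _ _ _ A
    refine sw_perm4 ![1, 0, 2, 3] ![1, 0, 2, 3] (by decide) (by decide) ?_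
    exact sw_mono4 hsw (fun x _ c h => h) (fun x _ c h => h) (fun _ _ _ _ => trivial)
      (fun _ _ _ _ => trivial)

end Pool.Agent.Lib.MP9d0a1e
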