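import Mathlib

/-!
# Fully active Cops and Robbers: definitions and statements of the modules
-/

namespace Pool.Agent.Lib.MP9d0a1e

universe u

/-- The history seen by the cops after the robber has taken the positions `ρ 0, ..., ρ (n-1)`
(most recent position first). -/
def hist {V : Type u} (ρ : ℕ → V) : ℕ → List V
  | 0 => []
  | n + 1 => ρ n :: hist ρ n

/-- A strategy for `k` cops. `pos []` gives the starting vertices; `pos (r :: l)` gives the vertices
of the cops after the cop turn at which the robber stands at `r`, the earlier robber positions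
being `l` (most recent first). On a cop turn every cop moves to an adjacent vertex. -/
structure CopStrategy {V : Type u} (G : SimpleGraph V) (k : ℕ) where
  /-- positions of the cops after a given history -/
  pos : List V → Fin k → V
  adj : ∀ (l : List V) (r : V) (i : Fin k), G.Adj (pos l i) (pos (r :: l) i)

/-- A strategy is winning if it captures every robber who moves to an adjacent vertex on each of
his turns: at some time some cop stands on the vertex of the robber, either after the robber has
taken position `ρ n` or after the next cop turn. -/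
def CopStrategy.Winning {V : Type u} {G : SimpleGraph V} {k : ℕ} (S : CopStrategy G k) : Prop :=
  ∀ ρ : ℕ → V, (∀ n, G.Adj (ρ n) (ρ (n + 1))) →
    ∃ (n : ℕ) (i : Fin k), S.pos (hist ρ n) i = ρ n ∨ S.pos (hist ρ (n + 1)) i = ρ n

/-- `k` cops have a winning strategy in the fully active game on `G`. -/
def CopsWin {V : Type u} (G : SimpleGraph V) (k : ℕ) : Prop :=
  ∃ S : CopStrategy G k, S.Winning

/-- The fully active cop number. -/
noncomputable def activeCopNumber {V : Type u} (G : SimpleGraph V) : ℕ :=
  sInf {k | CopsWin G k}

/-- Planarity of a finite connected graph with at least one edge, through a rotation system of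
genus zero: `σ` permutes cyclically the darts at each vertex, the faces are the orbits of
`φ = σ ∘ (reversal)`, and Euler's formula holds. -/
def Planar {V : Type u} [Fintype V] (G : SimpleGraph V) : Prop :=
  ∃ k : ℕ, k + Fintype.card V = 2 + Nat.card G.edgeSet ∧
    ∃ (σ φ : Equiv.Perm G.Dart) (face : G.Dart → Fin k),
      (∀ d : G.Dart, (σ d).fst = d.fst) ∧
      (∀ d d' : G.Dart, d.fst = d'.fst → ∃ n : ℕ, (σ ^ n) d = d') ∧
      (∀ d : G.Dart, φ d = σ d.symm) ∧
      (∀ d d' : G.Dart, face d = face d' ↔ ∃ n : ℕ, (φ ^ n) d = d') ∧
      Function.Surjective face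

/-- The graph has no `K_{3,3}` minor: there are no six disjoint connected vertex sets
`A 0, A 1, A 2, B 0, B 1, B 2` with an edge between each `A i` and each `B j`. -/
def NoK33 {V : Type u} (G : SimpleGraph V) : Prop :=
  ¬ ∃ A B : Fin 3 → Set V,
    (∀ i, (G.induce (A i)).Connected) ∧ (∀ i, (G.induce (B i)).Connected) ∧
    (∀ i j, i ≠ j → Disjoint (A i) (A j)) ∧ (∀ i j, i ≠ j → Disjoint (B i) (B j)) ∧
    (∀ i j, Disjoint (A i) (B j)) ∧
    ∀ i j, ∃ a ∈ A i, ∃ b ∈ B j, G.Adj a b

/-! ### Statements of the modules -/

/-- PLAN -/
def SpecPlan : Prop :=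
  ∀ (V : Type u) [Fintype V] (G : SimpleGraph V), G.Connected → Planar G → NoK33 G

/-- DODEC -/
def SpecDodec : Prop :=
  ∃ G : SimpleGraph (Fin 20), G.Connected ∧ Planar G ∧ ¬ CopsWin G 2

/-- CORE -/
def SpecCore : Prop :=
  ∀ (V : Type u) [Fintype V] (G : SimpleGraph V), G.Connected → 2 ≤ Fintype.card V → NoK33 G →
    CopsWin G 4

end Pool.Agent.Lib.MP9d0a1e
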