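import Mathlib
import Pool.Agent.Lib.MP_9d0a1e_co.Defs

/-!
# A connected graph with a rotation system of genus zero has no `K₃₃` minor
-/

namespace Pool.Agent.Lib.MP9d0a1e

universe u

namespace Plan

open Finset
open scoped Classical

/-! ### The combinatorial core: the cycle space of `K₃₃` has no 2-basis -/

/-- Even subgraphs of `K₃₃`. -/
def Even33 (m : Fin 3 → Fin 3 → ZMod 2) : Prop :=
  (∀ i, ∑ j, m i j = 0) ∧ (∀ j, ∑ i, m i j = 0)

theorem add3 : ∀ a b c : ZMod 2, a + b + c = 0 → c = a + b := by decide

theorem add2 : ∀ a : ZMod 2, a + a = 0 := by decide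

theorem eq_of_add (a b : ZMod 2) (h : a + b = 0) : a = b := by
  revert a b; decide

theorem four_le (a b c d e f g h i : ZMod 2)
    (h1 : a + b + c = 0) (h2 : d + e + f = 0) (h3 : g + h + i = 0)
    (h4 : a + d + g = 0) (h5 : b + e + h = 0) :
    (a = 0 ∧ b = 0 ∧ c = 0 ∧ d = 0 ∧ e = 0 ∧ f = 0 ∧ g = 0 ∧ h = 0 ∧ i = 0) ∨
    4 ≤ (a.val + b.val + c.val + (d.val + e.val + f.val) + (g.val + h.val + i.val)) := by
  have hc := add3 _ _ _ h1
  have hf := add3 _ _ _ h2
  have hi := add3 _ _ _ h3
  have hg := add3 _ _ _ h4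
  have hh := add3 _ _ _ h5
  clear h1 h2 h3 h4 h5
  subst hc hf hi hg hh
  revert a b d e
  decide

theorem even_card (m : Fin 3 → Fin 3 → ZMod 2) (h : Even33 m) (hne : m ≠ 0) :
    4 ≤ ∑ i, ∑ j, (m i j).val := by
  obtain ⟨h1, h2⟩ := h
  have e1 := h1 0
  have e2 := h1 1
  have e3 := h1 2
  have e4 := h2 0
  have e5 := h2 1
  simp only [Fin.sum_univ_three] at e1 e2 e3 e4 e5 ⊢
  rcases four_le _ _ _ _ _ _ _ _ _ e1 e2 e3 e4 e5 with h | h
  · exfalso
    apply hne
    obtain ⟨a, b, c, d, e, f, g, h, i⟩ := h
    funext i j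
    fin_cases i <;> fin_cases j <;> simpa
  · exact h

/-- The even subgraph with given upper left corner. -/
def mk (a b c d : ZMod 2) : Fin 3 → Fin 3 → ZMod 2 :=
  ![![a, b, a + b], ![c, d, c + d], ![a + c, b + d, a + b + (c + d)]]

theorem even_mk : ∀ a b c d : ZMod 2, Even33 (mk a b c d) := by
  unfold Even33 mk
  decide

theorem no_two_basis (K : Type) [Fintype K] (L R : Fin 3 → Fin 3 → K)
    (h1 : ∀ g : K → ZMod 2, Even33 (fun i j => g (L i j) + g (R i j)))
    (h2 : ∀ m, Even33 m → ∃ g : K → ZMod 2, ∀ i j, m i j = g (L i j) + g (R i j)) : False := by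
  -- the generators
  let w : K → Fin 3 → Fin 3 → ZMod 2 :=
    fun c i j => (if L i j = c then 1 else 0) + (if R i j = c then 1 else 0)
  have hw : ∀ c, Even33 (w c) := by
    intro c
    exact h1 (fun x => if x = c then 1 else 0)
  have hsum : ∀ (g : K → ZMod 2) i j, g (L i j) + g (R i j) = ∑ c, g c * w c i j := by
    intro g i j
    simp only [w, mul_add, Finset.sum_add_distrib, mul_ite, mul_one, mul_zero,
      Finset.sum_ite_eq, Finset.mem_univ, if_true]
  let T : Finset K := Finset.univ.filter (fun c => w c ≠ 0)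
  have hcount : 4 * T.card ≤ 18 := by
    calc 4 * T.card = ∑ c ∈ T, 4 := by rw [Finset.sum_const, smul_eq_mul, mul_comm]
      _ ≤ ∑ c ∈ T, ∑ i, ∑ j, (w c i j).val := by
        apply Finset.sum_le_sum
        intro c hc
        exact even_card _ (hw c) (by simpa [T] using hc)
      _ ≤ ∑ c, ∑ i, ∑ j, (w c i j).val := by
        apply Finset.sum_le_sum_of_subset (Finset.subset_univ _)
      _ ≤ ∑ c, ∑ i, ∑ j, ((if L i j = c then 1 else 0) + (if R i j = c then 1 else 0)) := by
        apply Finset.sum_le_sum; intro c _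
        apply Finset.sum_le_sum; intro i _
        apply Finset.sum_le_sum; intro j _
        simp only [w]
        split_ifs <;> decide
      _ = ∑ i : Fin 3, ∑ j : Fin 3, ∑ c,
            ((if L i j = c then 1 else 0) + (if R i j = c then 1 else 0)) := by
        rw [Finset.sum_comm]
        apply Finset.sum_congr rfl; intro i _
        rw [Finset.sum_comm]
      _ = 18 := by
        simp [Finset.sum_add_distrib]
  have hT : T.card ≤ 4 := by omega
  -- T is nonempty
  have hTne : T.Nonempty := by
    by_contra hemp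
    rw [Finset.not_nonempty_iff_eq_empty] at hemp
    obtain ⟨g, hg⟩ := h2 (mk 1 0 0 0) (even_mk _ _ _ _)
    have h00 := hg 0 0
    rw [hsum] at h00
    have : ∀ c, w c 0 0 = 0 := by
      intro c
      have : c ∉ T := by rw [hemp]; exact Finset.notMem_empty _
      simp only [T, Finset.mem_filter, Finset.mem_univ, true_and, not_not] at this
      rw [this]; rfl
    simp [this, mk] at h00
  obtain ⟨c0, hc0⟩ := hTne
  let T' := T.erase c0
  have hT' : T'.card ≤ 3 := by
    have := Finset.card_erase_of_mem hc0
    have h' : T'.card = T.card - 1 := this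
    omega
  -- every even matrix is a combination of the generators in T'
  have key : ∀ x : ZMod 2 × ZMod 2 × ZMod 2 × ZMod 2, ∃ h : T' → ZMod 2,
      ∀ i j, mk x.1 x.2.1 x.2.2.1 x.2.2.2 i j = ∑ c : T', h c * w c i j := by
    intro x
    obtain ⟨g, hg⟩ := h2 _ (even_mk x.1 x.2.1 x.2.2.1 x.2.2.2)
    refine ⟨fun c => g c + g c0, fun i j => ?_⟩
    have e1 : g (L i j) + g (R i j) = (g (L i j) + g c0) + (g (R i j) + g c0) := by
      have := add2 (g c0)
      linear_combination -this
    have e2 : (g (L i j) + g c0) + (g (R i j) + g c0) = ∑ c, (g c + g c0) * w c i j :=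
      hsum (fun c => g c + g c0) i j
    rw [hg, e1, e2]
    rw [Finset.sum_coe_sort T' (fun c => (g c + g c0) * w c i j)]
    symm
    apply Finset.sum_subset (Finset.subset_univ _)
    intro c _ hc
    by_cases hcc : c = c0
    · rw [hcc, add2, zero_mul]
    · have : c ∉ T := fun h => hc (Finset.mem_erase.mpr ⟨hcc, h⟩)
      simp only [T, Finset.mem_filter, Finset.mem_univ, true_and, not_not] at this
      rw [this]; simp
  choose h hh using key
  have hinj : Function.Injective h := by
    intro x y hxy
    have e : ∀ i j, mk x.1 x.2.1 x.2.2.1 x.2.2.2 i j = mk y.1 y.2.1 y.2.2.1 y.2.2.2 i j := by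
      intro i j
      rw [hh, hh, hxy]
    have e00 := e 0 0
    have e01 := e 0 1
    have e10 := e 1 0
    have e11 := e 1 1
    simp only [mk, Matrix.cons_val] at e00 e01 e10 e11
    ext1
    · exact e00
    · ext1
      · exact e01
      · ext1
        · exact e10
        · exact e11
  have hc := Fintype.card_le_of_injective h hinj
  have h16 : Fintype.card (ZMod 2 × ZMod 2 × ZMod 2 × ZMod 2) = 16 := by
    simp [ZMod.card]
  rw [h16, Fintype.card_fun, ZMod.card, Fintype.card_coe] at hc
  have : 2 ^ T'.card ≤ 2 ^ 3 := Nat.pow_le_pow_right (by norm_num) hT'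
  omega

/-! ### The boundary map and the coboundary of faces -/

section
variable {V : Type*} [Fintype V] {G : SimpleGraph V}
set_option linter.unusedSectionVars false

/-- The edge of a dart. -/
def ed (d : G.Dart) : G.edgeSet := ⟨d.edge, d.edge_mem⟩

theorem ed_symm (d : G.Dart) : ed d.symm = ed d := by
  apply Subtype.ext
  exact d.edge_symm

theorem ed_eq_iff (d d' : G.Dart) : ed d = ed d' ↔ d = d' ∨ d = d'.symm := by
  rw [Subtype.ext_iff]
  exact SimpleGraph.dart_edge_eq_iff d d'

/-- The boundary map. -/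
noncomputable def bd : (G.edgeSet → ZMod 2) →ₗ[ZMod 2] (V → ZMod 2) where
  toFun z v := ∑ d : G.Dart, if d.fst = v then z (ed d) else 0
  map_add' z z' := by
    funext v
    simp only [Pi.add_apply, ← Finset.sum_add_distrib]
    apply Finset.sum_congr rfl
    intro d _
    split_ifs <;> simp
  map_smul' c z := by
    funext v
    simp only [Pi.smul_apply, smul_eq_mul, RingHom.id_apply, Finset.mul_sum]
    apply Finset.sum_congr rfl
    intro d _
    split_ifs <;> simp

theorem bd_apply (z : G.edgeSet → ZMod 2) (v : V) :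
    bd z v = ∑ d : G.Dart, if d.fst = v then z (ed d) else 0 := rfl

/-- The coboundary of a function on the faces. -/
noncomputable def cob {k : ℕ} (face : G.Dart → Fin k) :
    (Fin k → ZMod 2) →ₗ[ZMod 2] (G.edgeSet → ZMod 2) where
  toFun g e := ∑ d : G.Dart, if ed d = e then g (face d) else 0
  map_add' z z' := by
    funext v
    simp only [Pi.add_apply, ← Finset.sum_add_distrib]
    apply Finset.sum_congr rfl
    intro d _
    split_ifs <;> simp
  map_smul' c z := by
    funext v
    simp only [Pi.smul_apply, smul_eq_mul, RingHom.id_apply, Finset.mul_sum]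
    apply Finset.sum_congr rfl
    intro d _
    split_ifs <;> simp

theorem sum_edge (d : G.Dart) (f : G.Dart → ZMod 2) :
    (∑ d' : G.Dart, if ed d' = ed d then f d' else 0) = f d + f d.symm := by
  have hne : d ≠ d.symm := d.symm_ne.symm
  rw [← Finset.sum_filter]
  have : (Finset.univ.filter (fun d' : G.Dart => ed d' = ed d)) = {d, d.symm} := by
    ext d'
    simp only [Finset.mem_filter, Finset.mem_univ, true_and, Finset.mem_insert,
      Finset.mem_singleton]
    exact ed_eq_iff d' d
  rw [this, Finset.sum_pair hne]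

theorem cob_apply {k : ℕ} (face : G.Dart → Fin k) (g : Fin k → ZMod 2) (d : G.Dart) :
    cob face g (ed d) = g (face d) + g (face d.symm) :=
  sum_edge d (fun d' => g (face d'))

theorem bd_single (d : G.Dart) :
    bd (Pi.single (ed d) 1) = (Pi.single d.fst 1 + Pi.single d.snd 1 : V → ZMod 2) := by
  funext v
  rw [bd_apply]
  have : (∑ d' : G.Dart, if d'.fst = v then (Pi.single (ed d) (1 : ZMod 2) :
      G.edgeSet → ZMod 2) (ed d') else 0)
      = ∑ d' : G.Dart, if ed d' = ed d then (if d'.fst = v then (1 : ZMod 2) else 0) else 0 := by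
    apply Finset.sum_congr rfl
    intro d' _
    by_cases h1 : ed d' = ed d
    · rw [h1]; simp
    · simp [h1]
  rw [this, sum_edge d (fun d' => if d'.fst = v then (1 : ZMod 2) else 0)]
  simp only [Pi.add_apply, Pi.single_apply]
  congr 1
  · simp [eq_comm]
  · simp [eq_comm]

theorem bd_sum (m : Fin 3 → Fin 3 → ZMod 2) (t : Fin 3 → Fin 3 → G.Dart) :
    bd (∑ i, ∑ j, m i j • Pi.single (ed (t i j)) (1 : ZMod 2)) =
      (∑ i, ∑ j, m i j • Pi.single (t i j).fst (1 : ZMod 2))
        + (∑ i, ∑ j, m i j • Pi.single (t i j).snd (1 : ZMod 2) : V → ZMod 2) := by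
  rw [← Finset.sum_add_distrib, map_sum]
  apply Finset.sum_congr rfl
  intro i _
  rw [← Finset.sum_add_distrib, map_sum]
  apply Finset.sum_congr rfl
  intro j _
  rw [map_smul, bd_single, smul_add]

/-- Connecting two vertices inside a connected set. -/
theorem exists_path (S : Set V) (u v : V) (hu : u ∈ S) (hv : v ∈ S)
    (h : (G.induce S).Reachable ⟨u, hu⟩ ⟨v, hv⟩) :
    ∃ z : G.edgeSet → ZMod 2,
      (∀ d : G.Dart, z (ed d) ≠ 0 → d.fst ∈ S ∧ d.snd ∈ S) ∧
      bd z = (Pi.single u 1 + Pi.single v 1 : V → ZMod 2) := by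
  obtain ⟨p⟩ := h
  suffices H : ∀ (a b : S) (p : (G.induce S).Walk a b),
      ∃ z : G.edgeSet → ZMod 2,
      (∀ d : G.Dart, z (ed d) ≠ 0 → d.fst ∈ S ∧ d.snd ∈ S) ∧
      bd z = (Pi.single a.1 1 + Pi.single b.1 1 : V → ZMod 2) from H _ _ p
  intro a b p
  induction p with
  | nil =>
    rename_i a
    refine ⟨0, fun d hd => absurd rfl hd, ?_⟩
    rw [map_zero]
    funext v
    simp [add2]
  | cons hadj p ih =>
    rename_i a b c
    obtain ⟨z, hz1, hz2⟩ := ih
    have hadj' : G.Adj a.1 b.1 := hadj
    let d : G.Dart := ⟨(a.1, b.1), hadj'⟩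
    refine ⟨z + Pi.single (ed d) 1, ?_, ?_⟩
    · intro d' hd'
      by_cases h1 : ed d' = ed d
      · rcases (ed_eq_iff d' d).mp h1 with h | h
        · subst h; exact ⟨a.2, b.2⟩
        · subst h; exact ⟨b.2, a.2⟩
      · apply hz1
        simpa [Pi.single_apply, h1] using hd'
    · rw [map_add, hz2, bd_single]
      funext v
      have := add2 ((Pi.single b.1 1 : V → ZMod 2) v)
      simp only [Pi.add_apply]
      show _ = _
      have e1 : d.fst = a.1 := rfl
      have e2 : d.snd = b.1 := rfl
      rw [e1, e2]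
      linear_combination this

/-- The image of the boundary map has codimension at most one. -/
theorem rank_bd (hG : G.Connected) :
    Fintype.card V ≤ Module.finrank (ZMod 2) (LinearMap.range (bd (G := G))) + 1 := by
  obtain ⟨r⟩ := hG.nonempty
  -- the sum functional
  let s : (V → ZMod 2) →ₗ[ZMod 2] ZMod 2 :=
    { toFun := fun b => ∑ v, b v
      map_add' := fun b c => by simp [Finset.sum_add_distrib]
      map_smul' := fun c b => by simp [Finset.mul_sum] }
  have hs : LinearMap.ker s ≤ LinearMap.range (bd (G := G)) := by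
    intro b hb
    have hb0 : ∑ v, b v = 0 := hb
    have hpath : ∀ v : V, ∃ z : G.edgeSet → ZMod 2,
        bd z = (Pi.single v 1 + Pi.single r 1 : V → ZMod 2) := by
      intro v
      have hr : (G.induce (Set.univ : Set V)).Reachable ⟨v, Set.mem_univ v⟩ ⟨r, Set.mem_univ r⟩ := by
        have h0 := hG.preconnected v r
        have := h0.map (G.induceUnivIso.symm.toEmbedding.toHom)
        exact this
      obtain ⟨z, -, hz⟩ := exists_path (G := G) Set.univ v r (Set.mem_univ _) (Set.mem_univ _) hr
      exact ⟨z, hz⟩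
    choose z hz using hpath
    refine ⟨∑ v, b v • z v, ?_⟩
    rw [map_sum]
    funext u
    simp only [map_smul, hz, Finset.sum_apply, Pi.smul_apply, Pi.add_apply, smul_eq_mul, mul_add,
      Finset.sum_add_distrib, ← Finset.sum_mul, hb0, zero_mul, add_zero]
    simp [Pi.single_apply]
  have h1 := LinearMap.finrank_range_add_finrank_ker s
  have h2 : Module.finrank (ZMod 2) (LinearMap.range s) ≤ 1 := by
    have := Submodule.finrank_le (LinearMap.range s)
    simpa using this
  have h3 : Module.finrank (ZMod 2) (V → ZMod 2) = Fintype.card V := Module.finrank_fintype_fun_eq_card _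
  have h4 := Submodule.finrank_mono hs
  omega

/-- The data of a rotation system. -/
structure Rot {V : Type*} [Fintype V] (G : SimpleGraph V) (k : ℕ) where
  σ : Equiv.Perm G.Dart
  φ : Equiv.Perm G.Dart
  face : G.Dart → Fin k
  h1 : ∀ d : G.Dart, (σ d).fst = d.fst
  h2 : ∀ d d' : G.Dart, d.fst = d'.fst → ∃ n : ℕ, (σ ^ n) d = d'
  h3 : ∀ d : G.Dart, φ d = σ d.symm
  h4 : ∀ d d' : G.Dart, face d = face d' ↔ ∃ n : ℕ, (φ ^ n) d = d'
  h5 : Function.Surjective face

theorem Rot.face_symm {k : ℕ} (T : Rot G k) (d : G.Dart) : T.face d.symm = T.face (T.σ d) := by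
  rw [T.h4]
  refine ⟨1, ?_⟩
  rw [pow_one, T.h3, d.symm_symm]

/-- Coboundaries are cycles. -/
theorem Rot.bd_cob {k : ℕ} (T : Rot G k) (g : Fin k → ZMod 2) : bd (cob T.face g) = 0 := by
  funext v
  rw [bd_apply]
  have e1 : ∀ d : G.Dart, (if d.fst = v then cob T.face g (ed d) else 0)
      = (if d.fst = v then g (T.face d) else 0)
        + (if (T.σ d).fst = v then g (T.face (T.σ d)) else 0) := by
    intro d
    rw [cob_apply, T.face_symm, T.h1]
    split_ifs <;> simp
  rw [Finset.sum_congr rfl (fun d _ => e1 d), Finset.sum_add_distrib,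
    Equiv.sum_comp T.σ (fun d => if d.fst = v then g (T.face d) else 0)]
  exact add2 _

/-- A function on the faces with zero coboundary is constant. -/
theorem Rot.const {k : ℕ} (T : Rot G k) (hG : G.Connected) (g : Fin k → ZMod 2)
    (h : cob T.face g = 0) (a b : Fin k) : g a = g b := by
  have hsymm : ∀ d : G.Dart, g (T.face d.symm) = g (T.face d) := by
    intro d
    have := cob_apply T.face g d
    rw [h] at this
    exact (eq_of_add _ _ this.symm).symm
  have hσ : ∀ d : G.Dart, g (T.face (T.σ d)) = g (T.face d) := by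
    intro d
    rw [← T.face_symm, hsymm]
  have hσn : ∀ (n : ℕ) (d : G.Dart), g (T.face ((T.σ ^ n) d)) = g (T.face d) := by
    intro n
    induction n with
    | zero => intro d; rfl
    | succ n ih =>
      intro d
      rw [pow_succ, Equiv.Perm.mul_apply, ih, hσ]
  have hv : ∀ d d' : G.Dart, d.fst = d'.fst → g (T.face d) = g (T.face d') := by
    intro d d' hdd
    obtain ⟨n, hn⟩ := T.h2 d d' hdd
    rw [← hn, hσn]
  have hwalk : ∀ (u v : V) (_ : G.Walk u v) (d d' : G.Dart), d.fst = u → d'.fst = v →
      g (T.face d) = g (T.face d') := by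
    intro u v p
    induction p with
    | nil => intro d d' h1 h2; exact hv d d' (h1.trans h2.symm)
    | cons hadj p ih =>
      rename_i a b c
      intro d d' h1 h2
      let e : G.Dart := ⟨(a, b), hadj⟩
      have e1 : g (T.face d) = g (T.face e) := hv d e h1
      have e2 : g (T.face e.symm) = g (T.face d') := ih e.symm d' rfl h2
      rw [e1, ← hsymm e, e2]
  obtain ⟨d, rfl⟩ := T.h5 a
  obtain ⟨d', rfl⟩ := T.h5 b
  obtain ⟨p⟩ := hG.preconnected d.fst d'.fst
  exact hwalk _ _ p d d' rfl rfl

/-- MacLane's theorem: every cycle is the coboundary of a set of faces. -/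
theorem Rot.exists_cob {k : ℕ} (T : Rot G k) (hG : G.Connected)
    (hE : k + Fintype.card V = 2 + Nat.card G.edgeSet)
    (z : G.edgeSet → ZMod 2) (hz : bd z = 0) : ∃ g : Fin k → ZMod 2, cob T.face g = z := by
  have hle : LinearMap.range (cob T.face) ≤ LinearMap.ker (bd (G := G)) := by
    rintro _ ⟨g, rfl⟩
    exact T.bd_cob g
  have r1 := rank_bd hG
  have r2 := LinearMap.finrank_range_add_finrank_ker (bd (G := G))
  have r3 := LinearMap.finrank_range_add_finrank_ker (cob T.face)
  have r4 : Module.finrank (ZMod 2) (G.edgeSet → ZMod 2) = Nat.card G.edgeSet := by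
    rw [Module.finrank_fintype_fun_eq_card, Nat.card_eq_fintype_card]
  have r5 : Module.finrank (ZMod 2) (Fin k → ZMod 2) = k := by
    rw [Module.finrank_fintype_fun_eq_card, Fintype.card_fin]
  have r6 : Module.finrank (ZMod 2) (LinearMap.ker (cob T.face)) ≤ 1 := by
    have hsub : LinearMap.ker (cob T.face) ≤ Submodule.span (ZMod 2) {(fun _ => 1 : Fin k → ZMod 2)} := by
      intro g hg
      rw [Submodule.mem_span_singleton]
      by_cases hk : Nonempty (Fin k)
      · obtain ⟨a⟩ := hk
        refine ⟨g a, ?_⟩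
        funext b
        simp only [Pi.smul_apply, smul_eq_mul, mul_one]
        exact T.const hG g hg a b
      · refine ⟨0, ?_⟩
        funext b
        exact absurd ⟨b⟩ hk
    refine (Submodule.finrank_mono hsub).trans ((finrank_span_le_card _).trans ?_)
    simp
  have hfin : Module.finrank (ZMod 2) (LinearMap.ker (bd (G := G)))
      ≤ Module.finrank (ZMod 2) (LinearMap.range (cob T.face)) := by
    omega
  have heq := Submodule.eq_of_le_of_finrank_le hle hfin
  have hmem : z ∈ LinearMap.ker (bd (G := G)) := hz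
  rw [← heq] at hmem
  exact hmem

/-- The sum of a cycle over the darts leaving a set is zero. -/
theorem cut_sum (S : Set V) (t : Fin 3 → G.Dart) (ht : Function.Injective t)
    (htS : ∀ j, (t j).fst ∈ S ∧ (t j).snd ∉ S)
    (z : G.edgeSet → ZMod 2) (hz : bd z = 0)
    (hsupp : ∀ d : G.Dart, d.fst ∈ S → d.snd ∉ S → z (ed d) ≠ 0 → ∃ j, d = t j) :
    ∑ j, z (ed (t j)) = 0 := by
  have h1 : ∑ d : G.Dart, (if d.fst ∈ S then z (ed d) else 0) = 0 := by
    have e1 : ∀ d : G.Dart, (if d.fst ∈ S then z (ed d) else 0)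
        = ∑ v : V, if v ∈ S then (if d.fst = v then z (ed d) else 0) else 0 := by
      intro d
      rw [Finset.sum_eq_single d.fst]
      · simp
      · intro b _ hb
        simp [hb.symm]
      · intro h; exact absurd (Finset.mem_univ _) h
    rw [Finset.sum_congr rfl (fun d _ => e1 d), Finset.sum_comm]
    apply Finset.sum_eq_zero
    intro v _
    by_cases hv : v ∈ S
    · simp only [hv, if_true]
      rw [← bd_apply, hz]; rfl
    · simp [hv]
  have h2 : ∑ d : G.Dart, (if d.fst ∈ S ∧ d.snd ∈ S then z (ed d) else 0) = 0 := by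
    apply Finset.sum_involution (fun d _ => d.symm)
    · intro d _
      have : (d.symm.fst ∈ S ∧ d.symm.snd ∈ S) ↔ (d.fst ∈ S ∧ d.snd ∈ S) := by
        show (d.snd ∈ S ∧ d.fst ∈ S) ↔ _
        exact and_comm
      rw [ed_symm]
      by_cases h : d.fst ∈ S ∧ d.snd ∈ S
      · rw [if_pos h, if_pos (this.mpr h), add2]
      · rw [if_neg h, if_neg (fun h' => h (this.mp h')), add2]
    · intro d _ _
      exact d.symm_ne
    · intro d _; exact d.symm_symm
    · intro d _; exact Finset.mem_univ _
  have h3 : ∑ d : G.Dart, (if d.fst ∈ S ∧ d.snd ∉ S then z (ed d) else 0) = 0 := by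
    have e : ∀ d : G.Dart, (if d.fst ∈ S then z (ed d) else 0)
        = (if d.fst ∈ S ∧ d.snd ∈ S then z (ed d) else 0)
          + (if d.fst ∈ S ∧ d.snd ∉ S then z (ed d) else 0) := by
      intro d
      by_cases ha : d.fst ∈ S <;> by_cases hb : d.snd ∈ S <;> simp [ha, hb]
    rw [Finset.sum_congr rfl (fun d _ => e d), Finset.sum_add_distrib, h2, zero_add] at h1
    exact h1
  have h4 : ∑ d : G.Dart, (if d.fst ∈ S ∧ d.snd ∉ S then z (ed d) else 0)
      = ∑ d ∈ Finset.univ.image t, (if d.fst ∈ S ∧ d.snd ∉ S then z (ed d) else 0) := by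
    symm
    apply Finset.sum_subset (Finset.subset_univ _)
    intro d _ hd
    by_contra hne
    by_cases h : d.fst ∈ S ∧ d.snd ∉ S
    · rw [if_pos h] at hne
      obtain ⟨j, hj⟩ := hsupp d h.1 h.2 hne
      exact hd (by rw [hj]; exact Finset.mem_image_of_mem _ (Finset.mem_univ _))
    · rw [if_neg h] at hne
      exact hne rfl
  rw [h4, Finset.sum_image (fun x _ y _ h => ht h)] at h3
  rw [← h3]
  apply Finset.sum_congr rfl
  intro j _
  rw [if_pos (htS j)]

end

end Plan

open Plan Finset in
open scoped Classical in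
theorem specPlan : SpecPlan.{u} := by
  intro V _ G hG hplan
  obtain ⟨k, hE, σ, φ, face, p1, p2, p3, p4, p5⟩ := hplan
  let T : Rot G k := ⟨σ, φ, face, p1, p2, p3, p4, p5⟩
  rintro ⟨A, B, hA, hB, hAA, hBB, hAB, hadj⟩
  choose x hx y hy hxy using hadj
  let t : Fin 3 → Fin 3 → G.Dart := fun i j => ⟨(x i j, y i j), hxy i j⟩
  have htA : ∀ i j, (t i j).fst ∈ A i := hx
  have htB : ∀ i j, (t i j).snd ∈ B j := hy
  have hAuniq : ∀ {i i' : Fin 3} {v : V}, v ∈ A i → v ∈ A i' → i = i' := by
    intro i i' v h h'
    by_contra hne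
    exact Set.disjoint_left.mp (hAA i i' hne) h h'
  have hBuniq : ∀ {i i' : Fin 3} {v : V}, v ∈ B i → v ∈ B i' → i = i' := by
    intro i i' v h h'
    by_contra hne
    exact Set.disjoint_left.mp (hBB i i' hne) h h'
  have hABno : ∀ {i j : Fin 3} {v : V}, v ∈ A i → v ∈ B j → False := by
    intro i j v h h'
    exact Set.disjoint_left.mp (hAB i j) h h'
  have hedinj : ∀ {i j i' j' : Fin 3}, ed (t i j) = ed (t i' j') → i = i' ∧ j = j' := by
    intro i j i' j' h
    rcases (ed_eq_iff _ _).mp h with h | h
    · have e1 := htA i j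
      have e2 := htB i j
      rw [h] at e1 e2
      exact ⟨hAuniq e1 (htA i' j'), hBuniq e2 (htB i' j')⟩
    · have e1 := htA i j
      rw [h] at e1
      exact (hABno e1 (htB i' j')).elim
  -- the edges of the model
  let inH : G.Dart → Prop := fun d =>
    (∃ i, d.fst ∈ A i ∧ d.snd ∈ A i) ∨ (∃ j, d.fst ∈ B j ∧ d.snd ∈ B j) ∨
      ∃ i j, ed d = ed (t i j)
  let r : Fin k → Fin k → Prop := fun a b => ∃ d : G.Dart, ¬ inH d ∧ a = face d ∧ b = face d.symm
  let L : Fin 3 → Fin 3 → Quot r := fun i j => Quot.mk r (face (t i j))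
  let R : Fin 3 → Fin 3 → Quot r := fun i j => Quot.mk r (face (t i j).symm)
  have : Fintype (Quot r) := Fintype.ofSurjective (Quot.mk r) (fun q => Quot.exists_rep q)
  apply no_two_basis (Quot r) L R
  · -- coboundaries of unions of classes are even
    intro g
    let g' : Fin k → ZMod 2 := fun a => g (Quot.mk r a)
    have hz : bd (cob face g') = 0 := T.bd_cob g'
    have hout : ∀ d : G.Dart, cob face g' (ed d) ≠ 0 → inH d := by
      intro d hd
      by_contra hno
      apply hd
      rw [cob_apply]
      have : Quot.mk r (face d) = Quot.mk r (face d.symm) := Quot.sound ⟨d, hno, rfl, rfl⟩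
      show g (Quot.mk r (face d)) + g (Quot.mk r (face d.symm)) = 0
      rw [this, add2]
    have hval : ∀ i j, g (L i j) + g (R i j) = cob face g' (ed (t i j)) := by
      intro i j
      rw [cob_apply]
    constructor
    · intro i
      simp only [hval]
      apply cut_sum (A i) (fun j => t i j)
      · intro j j' h
        exact (hedinj (congrArg ed h)).2
      · intro j
        exact ⟨htA i j, fun h => hABno h (htB i j)⟩
      · exact hz
      · intro d h1 h2 h3
        rcases hout d h3 with ⟨i', ha, hb⟩ | ⟨j, ha, hb⟩ | ⟨i', j, he⟩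
        · have := hAuniq h1 ha
          subst this
          exact absurd hb h2
        · exact (hABno h1 ha).elim
        · rcases (ed_eq_iff _ _).mp he with h | h
          · have e1 := htA i' j
            rw [← h] at e1
            have := hAuniq h1 e1
            subst this
            exact ⟨j, h⟩
          · have e1 := htB i' j
            rw [h] at h1
            exact (hABno h1 e1).elim
    · intro j
      simp only [hval]
      have := cut_sum (B j) (fun i => (t i j).symm) (z := cob face g')
        (by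
          intro i i' h
          have h' := congrArg ed h
          simp only [ed_symm] at h'
          exact (hedinj h').1)
        (by
          intro i
          exact ⟨htB i j, fun h => hABno (htA i j) h⟩)
        hz
        (by
          intro d h1 h2 h3
          rcases hout d h3 with ⟨i', ha, hb⟩ | ⟨j', ha, hb⟩ | ⟨i', j', he⟩
          · exact (hABno ha h1).elim
          · have := hBuniq h1 ha
            subst this
            exact absurd hb h2
          · rcases (ed_eq_iff _ _).mp he with h | h
            · have e1 := htA i' j'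
              rw [← h] at e1
              exact (hABno e1 h1).elim
            · have e1 := htB i' j'
              have h1' := h1
              rw [h] at h1'
              have := hBuniq h1' e1
              subst this
              exact ⟨i', h⟩)
      simpa only [ed_symm] using this
  · -- every even matrix is a coboundary
    intro m hm
    have hpA : ∀ i, ∃ z : G.edgeSet → ZMod 2,
        (∀ d : G.Dart, z (ed d) ≠ 0 → d.fst ∈ A i ∧ d.snd ∈ A i) ∧
        bd z = (∑ j, m i j • Pi.single (x i j) (1 : ZMod 2) : V → ZMod 2) := by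
      intro i
      have : ∀ j, ∃ z : G.edgeSet → ZMod 2,
          (∀ d : G.Dart, z (ed d) ≠ 0 → d.fst ∈ A i ∧ d.snd ∈ A i) ∧
          bd z = (Pi.single (x i j) 1 + Pi.single (x i 0) 1 : V → ZMod 2) := by
        intro j
        exact exists_path (A i) (x i j) (x i 0) (hx i j) (hx i 0) ((hA i).preconnected _ _)
      choose z hz1 hz2 using this
      refine ⟨∑ j, m i j • z j, ?_, ?_⟩
      · intro d hd
        rw [Finset.sum_apply] at hd
        obtain ⟨j, -, hj⟩ := Finset.exists_ne_zero_of_sum_ne_zero hd
        apply hz1 j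
        intro h0
        apply hj
        simp [h0]
      · rw [map_sum]
        simp only [map_smul, hz2, smul_add, Finset.sum_add_distrib]
        rw [← Finset.sum_smul, hm.1 i, zero_smul, add_zero]
    have hpB : ∀ j, ∃ z : G.edgeSet → ZMod 2,
        (∀ d : G.Dart, z (ed d) ≠ 0 → d.fst ∈ B j ∧ d.snd ∈ B j) ∧
        bd z = (∑ i, m i j • Pi.single (y i j) (1 : ZMod 2) : V → ZMod 2) := by
      intro j
      have : ∀ i, ∃ z : G.edgeSet → ZMod 2,
          (∀ d : G.Dart, z (ed d) ≠ 0 → d.fst ∈ B j ∧ d.snd ∈ B j) ∧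
          bd z = (Pi.single (y i j) 1 + Pi.single (y 0 j) 1 : V → ZMod 2) := by
        intro i
        exact exists_path (B j) (y i j) (y 0 j) (hy i j) (hy 0 j) ((hB j).preconnected _ _)
      choose z hz1 hz2 using this
      refine ⟨∑ i, m i j • z i, ?_, ?_⟩
      · intro d hd
        rw [Finset.sum_apply] at hd
        obtain ⟨i, -, hi⟩ := Finset.exists_ne_zero_of_sum_ne_zero hd
        apply hz1 i
        intro h0
        apply hi
        simp [h0]
      · rw [map_sum]
        simp only [map_smul, hz2, smul_add, Finset.sum_add_distrib]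
        rw [← Finset.sum_smul, hm.2 j, zero_smul, add_zero]
    choose zA hA1 hA2 using hpA
    choose zB hB1 hB2 using hpB
    obtain ⟨z0, hz0d⟩ : ∃ z0 : G.edgeSet → ZMod 2,
        z0 = ∑ i, ∑ j, m i j • Pi.single (ed (t i j)) (1 : ZMod 2) := ⟨_, rfl⟩
    obtain ⟨z, hzd⟩ : ∃ z : G.edgeSet → ZMod 2, z = z0 + ∑ i, zA i + ∑ j, zB j := ⟨_, rfl⟩
    obtain ⟨bA, hbA⟩ : ∃ b : V → ZMod 2,
        b = ∑ i, ∑ j, m i j • Pi.single (x i j) (1 : ZMod 2) := ⟨_, rfl⟩
    obtain ⟨bB, hbB⟩ : ∃ b : V → ZMod 2,
        b = ∑ i, ∑ j, m i j • Pi.single (y i j) (1 : ZMod 2) := ⟨_, rfl⟩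
    have e0 : bd z0 = bA + bB := by
      rw [hz0d, bd_sum, hbA, hbB]
    have eA : bd (∑ i, zA i) = bA := by
      rw [map_sum, hbA]
      exact Finset.sum_congr rfl (fun i _ => hA2 i)
    have eB : bd (∑ i, zB i) = bB := by
      rw [map_sum, hbB, Finset.sum_comm]
      exact Finset.sum_congr rfl (fun i _ => hB2 i)
    have hbd : bd z = 0 := by
      rw [hzd, map_add, map_add, e0, eA, eB]
      funext v
      simp only [Pi.add_apply, Pi.zero_apply]
      linear_combination add2 (bA v) + add2 (bB v)
    have hz0 : ∀ d : G.Dart, z0 (ed d) ≠ 0 → ∃ i j, ed d = ed (t i j) := by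
      intro d hd
      by_contra hno
      apply hd
      rw [hz0d]
      simp only [Finset.sum_apply, Pi.smul_apply]
      apply Finset.sum_eq_zero; intro i _
      apply Finset.sum_eq_zero; intro j _
      rw [Pi.single_apply, if_neg (fun h => hno ⟨i, j, h⟩), smul_zero]
    have hsuppH : ∀ d : G.Dart, ¬ inH d → z (ed d) = 0 := by
      intro d hd
      have a0 : z0 (ed d) = 0 := by
        by_contra h
        exact hd (Or.inr (Or.inr (hz0 d h)))
      have a1 : ∀ i, zA i (ed d) = 0 := by
        intro i
        by_contra h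
        exact hd (Or.inl ⟨i, hA1 i d h⟩)
      have a2 : ∀ j, zB j (ed d) = 0 := by
        intro j
        by_contra h
        exact hd (Or.inr (Or.inl ⟨j, hB1 j d h⟩))
      rw [hzd]
      simp [a0, a1, a2]
    have hzt : ∀ i j, z (ed (t i j)) = m i j := by
      intro i j
      have a1 : ∀ i', zA i' (ed (t i j)) = 0 := by
        intro i'
        by_contra h
        exact hABno (hA1 i' _ h).2 (htB i j)
      have a2 : ∀ j', zB j' (ed (t i j)) = 0 := by
        intro j'
        by_contra h
        exact hABno (htA i j) (hB1 j' _ h).1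
      have a0 : z0 (ed (t i j)) = m i j := by
        rw [hz0d]
        simp only [Finset.sum_apply, Pi.smul_apply]
        rw [Finset.sum_eq_single i, Finset.sum_eq_single j]
        · simp
        · intro j' _ hj
          rw [Pi.single_apply, if_neg (fun h => hj (hedinj h).2.symm), smul_zero]
        · intro h; exact absurd (Finset.mem_univ _) h
        · intro i' _ hi
          apply Finset.sum_eq_zero
          intro j' _
          rw [Pi.single_apply, if_neg (fun h => hi (hedinj h).1.symm), smul_zero]
        · intro h; exact absurd (Finset.mem_univ _) h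
      rw [hzd]
      simp [a0, a1, a2]
    obtain ⟨g, hg⟩ := T.exists_cob hG hE z hbd
    have hdesc : ∀ a b, r a b → g a = g b := by
      rintro a b ⟨d, hd, rfl, rfl⟩
      have h1 := cob_apply face g d
      have h2 : cob face g = z := hg
      rw [h2, hsuppH d hd] at h1
      exact eq_of_add _ _ h1.symm
    refine ⟨Quot.lift g hdesc, ?_⟩
    intro i j
    have h1 := cob_apply face g (t i j)
    have h2 : cob face g = z := hg
    rw [h2, hzt] at h1
    exact h1

end Pool.Agent.Lib.MP9d0a1e
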