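import Pool.Agent.Lib.MP_9d0a1e_co.Defs

/-!
# Monotonicity in the number of cops
-/

namespace Pool.Agent.Lib.MP9d0a1e

universe u

variable {V : Type u} {G : SimpleGraph V}

theorem CopsWin.of_surjective {k m : ℕ} (f : Fin m → Fin k) (hf : Function.Surjective f)
    (h : CopsWin G k) : CopsWin G m := by
  obtain ⟨S, hS⟩ := h
  refine ⟨⟨fun l i => S.pos l (f i), fun l r i => S.adj l r (f i)⟩, fun ρ hρ => ?_⟩
  obtain ⟨n, i, hi⟩ := hS ρ hρ
  obtain ⟨j, rfl⟩ := hf i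
  exact ⟨n, j, hi⟩

theorem CopsWin.mono {k m : ℕ} (hk : 1 ≤ k) (hkm : k ≤ m) (h : CopsWin G k) : CopsWin G m := by
  refine h.of_surjective (fun i => ⟨min i (k - 1), by omega⟩) fun j => ?_
  refine ⟨⟨j, by omega⟩, ?_⟩
  have := j.2
  ext
  simp only
  omega

theorem not_copsWin_zero [Nonempty V] (hnb : ∀ v : V, ∃ u, G.Adj v u) : ¬ CopsWin G 0 := by
  rintro ⟨S, hS⟩
  choose nb hnb using hnb
  obtain ⟨v⟩ := ‹Nonempty V›
  obtain ⟨n, i, _⟩ := hS (fun n => nb^[n] v) (fun n => by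
    simp only [Function.iterate_succ_apply']
    exact hnb _)
  exact i.elim0

theorem three_le_of_not_two [Nonempty V] (hnb : ∀ v : V, ∃ u, G.Adj v u)
    (h2 : ¬ CopsWin G 2) {k : ℕ} (hk : CopsWin G k) : 3 ≤ k := by
  by_contra h
  rcases Nat.eq_zero_or_pos k with rfl | h0
  · exact not_copsWin_zero hnb hk
  · exact h2 (hk.mono h0 (by omega))

end Pool.Agent.Lib.MP9d0a1e
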