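import Pool.Agent.Lib.MP_9d0a1e_co.Push

/-!
# Cycles as periodic functions, and the use of the forbidden minor
-/

namespace Pool.Agent.Lib.MP9d0a1e

universe u

variable {V : Type u} {G : SimpleGraph V}

theorem Reach.last {R : Set V} {n : ℕ} {r v : V} (h : Reach G R n r v) (hne : r ≠ v) :
    ∃ u ∈ R, G.Adj u v := by
  induction h with
  | zero v => exact absurd rfl hne
  | @step n r r' v hr ha _ ih =>
    by_cases h' : r' = v
    · exact ⟨r, hr, h' ▸ ha⟩
    · exact ih h'

theorem Reach.last' {R : Set V} {n : ℕ} : ∀ {r v : V}, Reach G R (n + 1) r v →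
    ∃ u ∈ R, G.Adj u v ∧ Reach G R n r u := by
  induction n with
  | zero =>
    intro r v h
    cases h with
    | step hr ha h => exact ⟨r, hr, h.eq_zero ▸ ha, Reach.zero r⟩
  | succ n ih =>
    intro r v h
    cases h with
    | step hr ha h =>
      obtain ⟨u, hu, hua, h'⟩ := ih h
      exact ⟨u, hu, hua, Reach.step hr ha h'⟩

theorem connected_of_conn {S : Set V} (h : Conn G S) (hne : S.Nonempty) :
    (G.induce S).Connected := by
  haveI : Nonempty S := hne.to_subtype
  refine ⟨?_⟩
  have key : ∀ (n : ℕ) (x y : V), Reach G S n x y → ∀ (hx : x ∈ S) (hy : y ∈ S),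
      (G.induce S).Reachable ⟨x, hx⟩ ⟨y, hy⟩ := by
    intro n x y hr
    induction hr with
    | zero v => intro hx hy; exact SimpleGraph.Reachable.refl _
    | @step n r r' v hr ha h ih =>
      intro hx hy
      have hr' : r' ∈ S := by
        cases n with
        | zero => rw [h.eq_zero]; exact hy
        | succ n => exact h.start_mem
      have h1 : (G.induce S).Adj ⟨r, hx⟩ ⟨r', hr'⟩ := ha
      exact h1.reachable.trans (ih hr' hy)
  rintro ⟨x, hx⟩ ⟨y, hy⟩
  obtain ⟨n, hn⟩ := h x hx y hy
  exact key n x y hn hx hy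

/-- The image of an open interval. -/
def arc (f : ℤ → V) (a b : ℤ) : Set V := {v | ∃ x, a < x ∧ x < b ∧ f x = v}

theorem conn_arc (f : ℤ → V) (a b : ℤ) (h : ∀ x, a < x → x + 1 < b → G.Adj (f x) (f (x + 1))) :
    Conn G (arc f a b) := by
  have key : ∀ (n : ℕ) (x : ℤ), a < x → x + n < b → Reach G (arc f a b) n (f x) (f (x + n)) := by
    intro n
    induction n with
    | zero => intro x _ _; simpa using Reach.zero (f x)
    | succ n ih =>
      intro x h1 h2
      push_cast at h2
      have h3 := ih (x + 1) (by omega) (by omega)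
      have h4 := Reach.step (R := arc f a b) ⟨x, h1, by omega, rfl⟩ (h x h1 (by omega)) h3
      rwa [show x + 1 + (n : ℤ) = x + ((n + 1 : ℕ) : ℤ) by push_cast; ring] at h4
  rintro _ ⟨x, hx1, hx2, rfl⟩ _ ⟨y, hy1, hy2, rfl⟩
  rcases le_total x y with hxy | hxy
  · have := key (y - x).toNat x hx1 (by omega)
    rw [show x + ((y - x).toNat : ℤ) = y by omega] at this
    exact ⟨_, this⟩
  · have := key (x - y).toNat y hy1 (by omega)
    rw [show y + ((x - y).toNat : ℤ) = x by omega] at this
    exact ⟨_, this.symm ⟨x, hx1, hx2, rfl⟩⟩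

/-- A cycle as a periodic function; the period two is allowed. -/
structure Cyc (G : SimpleGraph V) (w : ℤ → V) (N : ℤ) : Prop where
  two_le : 2 ≤ N
  per : ∀ x, w (x + N) = w x
  adj : ∀ x, G.Adj (w x) (w (x + 1))
  inj : ∀ x y, w x = w y → N ∣ x - y

namespace Cyc

variable {w : ℤ → V} {N : ℤ}

theorem per_mul (c : Cyc G w N) (x k : ℤ) : w (x + k * N) = w x := by
  have h : Function.Periodic w N := c.per
  exact h.int_mul k x

theorem emod_eq (c : Cyc G w N) (a x : ℤ) : w (a + (x - a) % N) = w x := by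
  have h := Int.emod_add_mul_ediv (x - a) N
  have h2 := c.per_mul (a + (x - a) % N) ((x - a) / N)
  rw [show a + (x - a) % N + (x - a) / N * N = x by rw [mul_comm ((x - a) / N) N]; omega] at h2
  exact h2.symm

theorem exists_mem (c : Cyc G w N) (a x : ℤ) : ∃ y, a ≤ y ∧ y < a + N ∧ w y = w x := by
  have h0 := c.two_le
  have h1 := Int.emod_nonneg (x - a) (show N ≠ 0 by omega)
  have h2 := Int.emod_lt_of_pos (x - a) (show 0 < N by omega)
  exact ⟨a + (x - a) % N, by omega, by omega, c.emod_eq a x⟩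

theorem ne (c : Cyc G w N) {x y : ℤ} (h1 : x < y) (h2 : y < x + N) : w x ≠ w y := by
  intro h
  obtain ⟨k, hk⟩ := c.inj y x h.symm
  have h0 := c.two_le
  have h3 : 0 < N * k := by omega
  have h4 : N * k < N * 1 := by omega
  have h5 : k < 1 := lt_of_mul_lt_mul_left h4 (by omega)
  have h6 : 0 < k := by
    by_contra h7
    have : N * k ≤ 0 := mul_nonpos_of_nonneg_of_nonpos (by omega) (by omega)
    omega
  omega

end Cyc

/-- The cycle made of the path `f` on `[a, b]` and the path `g` on `[0, m]` leading back. -/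
noncomputable def mk (f g : ℤ → V) (a b m x : ℤ) : V :=
  if (x - a) % (b - a + m) ≤ b - a then f (a + (x - a) % (b - a + m))
  else g ((x - a) % (b - a + m) - (b - a))

section mk

variable {f g : ℤ → V} {a b m : ℤ}

theorem mk_per (x : ℤ) : mk f g a b m (x + (b - a + m)) = mk f g a b m x := by
  unfold mk
  have : (x + (b - a + m) - a) % (b - a + m) = (x - a) % (b - a + m) := by
    rw [show x + (b - a + m) - a = x - a + (b - a + m) by ring, Int.add_emod_right]
  rw [this]

theorem mk_left (hm : 1 ≤ m) {x : ℤ} (h1 : a ≤ x) (h2 : x ≤ b) :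
    mk f g a b m x = f x := by
  unfold mk
  have : (x - a) % (b - a + m) = x - a := Int.emod_eq_of_lt (by omega) (by omega)
  rw [this, if_pos (by omega)]
  congr 1; ring

theorem mk_right (hm : 1 ≤ m) (hab : a < b) (h0 : f b = g 0) (h1 : f a = g m) {y : ℤ}
    (hy1 : 0 ≤ y) (hy2 : y ≤ m) : mk f g a b m (b + y) = g y := by
  rcases eq_or_lt_of_le hy2 with rfl | hy2
  · have := mk_per (f := f) (g := g) (a := a) (b := b) (m := y) a
    rw [show a + (b - a + y) = b + y by ring] at this
    rw [this, mk_left hm le_rfl hab.le, h1]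
  · rcases eq_or_lt_of_le hy1 with rfl | hy1
    · rw [add_zero, mk_left hm hab.le le_rfl, h0]
    · unfold mk
      have : (b + y - a) % (b - a + m) = b + y - a := Int.emod_eq_of_lt (by omega) (by omega)
      rw [this, if_neg (by omega)]
      congr 1; ring

theorem cyc_mk (hm : 1 ≤ m) (hab : a < b) (h0 : f b = g 0) (h1 : f a = g m)
    (hf : ∀ x, a ≤ x → x < b → G.Adj (f x) (f (x + 1)))
    (hg : ∀ y, 0 ≤ y → y < m → G.Adj (g y) (g (y + 1)))
    (hfi : ∀ x y, a ≤ x → x < y → y ≤ b → f x ≠ f y)
    (hgi : ∀ x y, 0 < x → x < y → y < m → g x ≠ g y)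
    (hfg : ∀ x y, a ≤ x → x ≤ b → 0 < y → y < m → f x ≠ g y) :
    Cyc G (mk f g a b m) (b - a + m) := by
  have hN : 2 ≤ b - a + m := by omega
  have hper : ∀ x, mk f g a b m (x + (b - a + m)) = mk f g a b m x := fun x => mk_per x
  have hperk : ∀ x k : ℤ, mk f g a b m (x + k * (b - a + m)) = mk f g a b m x := by
    intro x k
    have h : Function.Periodic (mk f g a b m) (b - a + m) := hper
    exact h.int_mul k x
  have hred : ∀ x, ∃ y k : ℤ, 0 ≤ y ∧ y < b - a + m ∧ x = a + y + k * (b - a + m) := by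
    intro x
    have h2 := Int.emod_nonneg (x - a) (show b - a + m ≠ 0 by omega)
    have h3 := Int.emod_lt_of_pos (x - a) (show 0 < b - a + m by omega)
    have h4 := Int.emod_add_mul_ediv (x - a) (b - a + m)
    refine ⟨(x - a) % (b - a + m), (x - a) / (b - a + m), h2, h3, ?_⟩
    rw [mul_comm ((x - a) / (b - a + m)) (b - a + m)]
    omega
  refine ⟨hN, hper, ?_, ?_⟩
  · intro x
    obtain ⟨y, k, hy1, hy2, rfl⟩ := hred x
    rw [hperk, show a + y + k * (b - a + m) + 1 = a + (y + 1) + k * (b - a + m) by ring, hperk]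
    by_cases h : y < b - a
    · rw [mk_left hm (by omega) (by omega), mk_left hm (by omega) (by omega)]
      have := hf (a + y) (by omega) (by omega)
      rwa [add_assoc] at this
    · have h2 := mk_right (a := a) (y := y - (b - a)) hm hab h0 h1 (by omega) (by omega)
      have h3 := mk_right (a := a) (y := y - (b - a) + 1) hm hab h0 h1 (by omega) (by omega)
      rw [show b + (y - (b - a)) = a + y by ring] at h2
      rw [show b + (y - (b - a) + 1) = a + (y + 1) by ring] at h3
      rw [h2, h3]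
      exact hg _ (by omega) (by omega)
  · have key : ∀ y y' : ℤ, 0 ≤ y → y < y' → y' < b - a + m →
        mk f g a b m (a + y) ≠ mk f g a b m (a + y') := by
      intro y y' hy hyy' hy'
      by_cases h2 : y' ≤ b - a
      · rw [mk_left hm (by omega) (by omega), mk_left hm (by omega) (by omega)]
        exact hfi _ _ (by omega) (by omega) (by omega)
      · have h3 := mk_right (a := a) (y := y' - (b - a)) hm hab h0 h1 (by omega) (by omega)
        rw [show b + (y' - (b - a)) = a + y' by ring] at h3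
        rw [h3]
        by_cases h4 : y ≤ b - a
        · rw [mk_left hm (by omega) (by omega)]
          exact hfg _ _ (by omega) (by omega) (by omega) (by omega)
        · have h5 := mk_right (a := a) (y := y - (b - a)) hm hab h0 h1 (by omega) (by omega)
          rw [show b + (y - (b - a)) = a + y by ring] at h5
          rw [h5]
          exact hgi _ _ (by omega) (by omega) (by omega)
    intro x x' hxx'
    obtain ⟨y, k, hy1, hy2, rfl⟩ := hred x
    obtain ⟨y', k', hy1', hy2', rfl⟩ := hred x'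
    rw [hperk, hperk] at hxx'
    have h5 : y = y' := by
      rcases lt_trichotomy y y' with h | h | h
      · exact absurd hxx' (key y y' hy1 h hy2')
      · exact h
      · exact absurd hxx'.symm (key y' y hy1' h hy2)
    subst h5
    exact ⟨k - k', by ring⟩

end mk

/-- The use of the forbidden minor: a component `K` of `R \ Y`, where `Y` is a connected set joining
the vertices `w s` and `w t` of the cycle, is adjacent to at most one of the two arcs. -/
theorem arc_lemma (hG : NoK33 G) {w : ℤ → V} {N : ℤ} (c : Cyc G w N) {s t : ℤ} (hst : s < t)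
    (hts : t < s + N) {R : Set V} (hR : Conn G R) (hw : ∀ x, w x ∉ R) {Y : Set V}
    (hYR : Y ⊆ R) (hY : Conn G Y) (hYs : ∃ y ∈ Y, G.Adj y (w s)) (hYt : ∃ y ∈ Y, G.Adj y (w t))
    {r0 : V} (hr0 : r0 ∈ R \ Y)
    (h1 : ∃ x, s < x ∧ x < t ∧ ∃ r ∈ comp G (R \ Y) r0, G.Adj r (w x))
    (h2 : ∃ x, t < x ∧ x < s + N ∧ ∃ r ∈ comp G (R \ Y) r0, G.Adj r (w x)) : False := by
  set K := comp G (R \ Y) r0 with hK
  have hKR : K ⊆ R \ Y := comp_subset hr0
  obtain ⟨ys, hys, hyss⟩ := hYs
  obtain ⟨yt, hyt, hytt⟩ := hYt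
  obtain ⟨x1, hx1, hx1', r1, hr1, hr1a⟩ := h1
  obtain ⟨x2, hx2, hx2', r2, hr2, hr2a⟩ := h2
  -- `K` is adjacent to `Y`
  have hKY : ∃ y ∈ Y, ∃ r ∈ K, G.Adj y r := by
    obtain ⟨n, hn⟩ := hR r0 hr0.1 ys (hYR hys)
    rcases hn.first (self_mem_comp G (R \ Y) r0) with h | ⟨y, hy, _, n1, n2, _, h, _⟩
    · obtain ⟨u, hu, hua⟩ := h.last (fun h => hr0.2 (h ▸ hys))
      exact ⟨ys, hys, u, hu, hua.symm⟩
    · obtain ⟨u, hu, hua⟩ := h.last (fun h => hr0.2 (h ▸ hy))
      exact ⟨y, hy, u, hu, hua.symm⟩
  apply hG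
  have hwY : ∀ x, w x ∉ Y := fun x h => hw x (hYR h)
  have hwK : ∀ x, w x ∉ K := fun x h => hw x (hKR h).1
  have hs1 : ∀ {x y : ℤ}, x ≠ y → s ≤ x → x < s + N → s ≤ y → y < s + N → w x ≠ w y := by
    intro x y hxy h1 h2 h3 h4
    rcases lt_or_gt_of_ne hxy with h | h
    · exact c.ne h (by omega)
    · exact (c.ne h (by omega)).symm
  have hconn : ∀ v : V, Conn G ({v} : Set V) := by
    intro v x hx y hy
    rw [Set.mem_singleton_iff] at hx hy
    subst hx; subst hy
    exact ⟨0, Reach.zero _⟩
  have hcA1 : Conn G (arc w s t) := conn_arc _ _ _ fun x _ _ => c.adj x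
  have hcA2 : Conn G (arc w t (s + N)) := conn_arc _ _ _ fun x _ _ => c.adj x
  have hwsN : w (s + N) = w s := c.per s
  refine ⟨![Y, arc w s t, arc w t (s + N)], ![{w s}, {w t}, K], ?_, ?_, ?_, ?_, ?_, ?_⟩
  · intro i
    fin_cases i
    · exact connected_of_conn hY ⟨ys, hys⟩
    · exact connected_of_conn hcA1 ⟨w x1, x1, hx1, hx1', rfl⟩
    · exact connected_of_conn hcA2 ⟨w x2, x2, hx2, hx2', rfl⟩
  · intro i
    fin_cases i
    · exact connected_of_conn (hconn _) ⟨_, rfl⟩
    · exact connected_of_conn (hconn _) ⟨_, rfl⟩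
    · exact connected_of_conn (conn_comp _ _) ⟨r0, self_mem_comp _ _ _⟩
  · have d1 : Disjoint Y (arc w s t) := by
      rw [Set.disjoint_left]
      rintro _ hy ⟨x, _, _, rfl⟩
      exact hwY x hy
    have d2 : Disjoint Y (arc w t (s + N)) := by
      rw [Set.disjoint_left]
      rintro _ hy ⟨x, _, _, rfl⟩
      exact hwY x hy
    have d3 : Disjoint (arc w s t) (arc w t (s + N)) := by
      rw [Set.disjoint_left]
      rintro _ ⟨x, _, _, rfl⟩ ⟨y, _, _, h⟩
      exact hs1 (x := y) (y := x) (by omega) (by omega) (by omega) (by omega) (by omega) h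
    intro i j hij
    fin_cases i <;> fin_cases j <;> first | exact absurd rfl hij | skip
    · exact d1
    · exact d2
    · exact d1.symm
    · exact d3
    · exact d2.symm
    · exact d3.symm
  · have d1 : Disjoint ({w s} : Set V) {w t} := by
      rw [Set.disjoint_singleton]
      exact hs1 (by omega) (by omega) (by omega) (by omega) (by omega)
    have d2 : Disjoint ({w s} : Set V) K := by
      rw [Set.disjoint_singleton_left]; exact hwK s
    have d3 : Disjoint ({w t} : Set V) K := by
      rw [Set.disjoint_singleton_left]; exact hwK t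
    intro i j hij
    fin_cases i <;> fin_cases j <;> first | exact absurd rfl hij | skip
    · exact d1
    · exact d2
    · exact d1.symm
    · exact d3
    · exact d2.symm
    · exact d3.symm
  · intro i j
    fin_cases i <;> fin_cases j
    · exact Set.disjoint_singleton_right.2 (hwY s)
    · exact Set.disjoint_singleton_right.2 (hwY t)
    · exact Set.disjoint_left.2 fun x hx hx' => (hKR hx').2 hx
    · refine Set.disjoint_singleton_right.2 ?_
      rintro ⟨x, _, _, h⟩
      exact hs1 (by omega) (by omega) (by omega) (by omega) (by omega) h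
    · refine Set.disjoint_singleton_right.2 ?_
      rintro ⟨x, _, _, h⟩
      exact hs1 (by omega) (by omega) (by omega) (by omega) (by omega) h
    · refine Set.disjoint_left.2 ?_
      rintro _ ⟨x, _, _, rfl⟩ h
      exact hwK x h
    · refine Set.disjoint_singleton_right.2 ?_
      rintro ⟨x, _, _, h⟩
      exact hs1 (by omega) (by omega) (by omega) (by omega) (by omega) h
    · refine Set.disjoint_singleton_right.2 ?_
      rintro ⟨x, _, _, h⟩
      exact hs1 (by omega) (by omega) (by omega) (by omega) (by omega) h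
    · refine Set.disjoint_left.2 ?_
      rintro _ ⟨x, _, _, rfl⟩ h
      exact hwK x h
  · have e1 := c.adj s
    have e2 := c.adj (t - 1)
    have e3 := c.adj t
    have e4 := c.adj (s + N - 1)
    rw [sub_add_cancel] at e2 e4
    rw [hwsN] at e4
    intro i j
    fin_cases i <;> fin_cases j
    · exact ⟨ys, hys, _, rfl, hyss⟩
    · exact ⟨yt, hyt, _, rfl, hytt⟩
    · exact hKY
    · exact ⟨w (s + 1), ⟨s + 1, by omega, by omega, rfl⟩, _, rfl, e1.symm⟩
    · exact ⟨w (t - 1), ⟨t - 1, by omega, by omega, rfl⟩, _, rfl, e2⟩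
    · exact ⟨w x1, ⟨x1, hx1, hx1', rfl⟩, r1, hr1, hr1a.symm⟩
    · exact ⟨w (s + N - 1), ⟨s + N - 1, by omega, by omega, rfl⟩, _, rfl, e4⟩
    · exact ⟨w (t + 1), ⟨t + 1, by omega, by omega, rfl⟩, _, rfl, e3.symm⟩
    · exact ⟨w x2, ⟨x2, hx2, hx2', rfl⟩, r2, hr2, hr2a.symm⟩

end Pool.Agent.Lib.MP9d0a1e
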