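import Mathlib
import Pool.Agent.Lib.MP_9d0a1e_co.Defs

/-!
# The dodecahedron: two active cops do not win
-/

namespace Pool.Agent.Lib.MP9d0a1e

namespace Dodec

/-- Neighbours in cyclic order. -/
def nb : Fin 20 → Fin 3 → Fin 20 :=
  ![![1, 2, 3], ![0, 4, 5], ![0, 6, 7], ![0, 8, 9], ![9, 10, 1], ![1, 11, 6], ![5, 12, 2],
    ![2, 13, 8], ![7, 14, 3], ![3, 15, 4], ![4, 16, 11], ![5, 10, 17], ![13, 6, 17],
    ![7, 12, 18], ![15, 8, 18], ![9, 14, 16], ![10, 15, 19], ![12, 11, 19], ![14, 13, 19],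
    ![18, 17, 16]]

/-- Face of a dart. -/
def fc : Fin 20 → Fin 3 → Fin 12 :=
  ![![0, 1, 2], ![1, 0, 3], ![2, 1, 4], ![0, 2, 5], ![0, 6, 3], ![1, 3, 7], ![1, 7, 4],
    ![2, 4, 8], ![2, 8, 5], ![0, 5, 6], ![3, 6, 9], ![7, 3, 9], ![10, 4, 7], ![8, 4, 10],
    ![11, 5, 8], ![6, 5, 11], ![9, 6, 11], ![10, 7, 9], ![11, 8, 10], ![11, 10, 9]]

/-- Position of a dart in its face. -/
def pw : Fin 20 → Fin 3 → Fin 5 :=
  ![![0, 0, 0], ![4, 1, 0], ![4, 1, 0], ![4, 1, 0], ![2, 0, 4], ![3, 1, 0], ![2, 1, 4],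
    ![3, 1, 0], ![2, 1, 4], ![3, 1, 4], ![3, 1, 0], ![4, 2, 1], ![0, 3, 2], ![4, 2, 1],
    ![0, 3, 2], ![3, 2, 1], ![4, 2, 2], ![4, 3, 2], ![4, 3, 2], ![3, 3, 3]]

/-- First dart of each face. -/
def rep : Fin 12 → Fin 20 × Fin 3 :=
  ![(0, 0), (0, 1), (0, 2), (1, 2), (2, 2), (3, 2), (4, 1), (5, 2), (7, 2), (10, 2), (12, 0),
    (14, 0)]

/-- The index of a neighbour. -/
def idx (u v : Fin 20) : Fin 3 := if nb u 0 = v then 0 else if nb u 1 = v then 1 else 2

theorem idx_nb : ∀ u : Fin 20, ∀ i : Fin 3, idx u (nb u i) = i := by decide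

theorem nb_idx : ∀ u v : Fin 20, (∃ i, nb u i = v) → nb u (idx u v) = v := by decide

theorem nb_symm : ∀ u : Fin 20, ∀ i : Fin 3, nb (nb u i) (idx (nb u i) u) = u := by decide

theorem nb_ne : ∀ u : Fin 20, ∀ i : Fin 3, nb u i ≠ u := by decide

/-- The dodecahedron. -/
def G : SimpleGraph (Fin 20) where
  Adj u v := ∃ i, nb u i = v
  symm := ⟨by
    rintro u v ⟨i, rfl⟩
    exact ⟨_, nb_symm u i⟩⟩
  loopless := ⟨by
    rintro u ⟨i, h⟩
    exact nb_ne u i h⟩

theorem parent : ∀ v : Fin 20, v ≠ 0 → ∃ i : Fin 3, nb v i < v := by decide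

theorem connected : G.Connected := by
  have h : ∀ n : ℕ, ∀ v : Fin 20, v.val ≤ n → G.Reachable v 0 := by
    intro n
    induction n with
    | zero =>
      intro v hv
      have : v = 0 := Fin.ext (by simpa using hv)
      rw [this]
    | succ n ih =>
      intro v hv
      by_cases h0 : v = 0
      · rw [h0]
      obtain ⟨i, hi⟩ := parent v h0
      have h1 : G.Adj v (nb v i) := ⟨i, rfl⟩
      have h2 : (nb v i).val < v.val := hi
      exact h1.reachable.trans (ih _ (by omega))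
  have : Nonempty (Fin 20) := ⟨0⟩
  refine ⟨fun u v => ?_⟩
  exact (h 20 u (by omega)).trans (h 20 v (by omega)).symm

/-- Darts as pairs. -/
def eqv : G.Dart ≃ Fin 20 × Fin 3 where
  toFun d := (d.fst, idx d.fst d.snd)
  invFun p := ⟨(p.1, nb p.1 p.2), ⟨p.2, rfl⟩⟩
  left_inv d := by
    apply SimpleGraph.Dart.ext
    apply Prod.ext
    · rfl
    · exact nb_idx d.fst d.snd d.adj
  right_inv p := by
    apply Prod.ext
    · rfl
    · exact idx_nb p.1 p.2

/-- Rotation. -/
def rot : Equiv.Perm (Fin 20 × Fin 3) where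
  toFun p := (p.1, p.2 + 1)
  invFun p := (p.1, p.2 - 1)
  left_inv p := by simp
  right_inv p := by simp

/-- Reversal. -/
def rv (p : Fin 20 × Fin 3) : Fin 20 × Fin 3 := (nb p.1 p.2, idx (nb p.1 p.2) p.1)

theorem rv_rv : ∀ u : Fin 20, ∀ i : Fin 3, rv (rv (u, i)) = (u, i) := by decide

/-- Reversal as a permutation. -/
def rev : Equiv.Perm (Fin 20 × Fin 3) where
  toFun := rv
  invFun := rv
  left_inv p := rv_rv p.1 p.2
  right_inv p := rv_rv p.1 p.2

/-- Face permutation. -/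
def ph : Equiv.Perm (Fin 20 × Fin 3) := rev.trans rot

theorem rot_pow : ∀ u : Fin 20, ∀ i j : Fin 3, ∃ n : Fin 3, (rot ^ n.val) (u, i) = (u, j) := by
  decide

theorem fc_ph : ∀ u : Fin 20, ∀ i : Fin 3, fc (ph (u, i)).1 (ph (u, i)).2 = fc u i := by decide

theorem ph_rep : ∀ u : Fin 20, ∀ i : Fin 3, (ph ^ (pw u i).val) (rep (fc u i)) = (u, i) := by
  decide

theorem ph_rep' : ∀ u : Fin 20, ∀ i : Fin 3, (ph ^ (5 - (pw u i).val)) (u, i) = rep (fc u i) := by
  decide

theorem fc_rep : ∀ k : Fin 12, fc (rep k).1 (rep k).2 = k := by decide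

/-- Conjugation of permutations. -/
def cj (π : Equiv.Perm (Fin 20 × Fin 3)) : Equiv.Perm G.Dart := eqv.trans (π.trans eqv.symm)

theorem cj_apply (π : Equiv.Perm (Fin 20 × Fin 3)) (d : G.Dart) :
    eqv (cj π d) = π (eqv d) := by
  show eqv (eqv.symm (π (eqv d))) = _
  rw [Equiv.apply_symm_apply]

theorem cj_pow (π : Equiv.Perm (Fin 20 × Fin 3)) (n : ℕ) (d : G.Dart) :
    eqv ((cj π ^ n) d) = (π ^ n) (eqv d) := by
  induction n generalizing d with
  | zero => rfl
  | succ n ih => rw [pow_succ, pow_succ, Equiv.Perm.mul_apply, Equiv.Perm.mul_apply, ih, cj_apply]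

theorem eqv_symm (d : G.Dart) : eqv d.symm = rv (eqv d) := by
  show (d.snd, idx d.snd d.fst) = (nb d.fst (idx d.fst d.snd), _)
  have h : nb d.fst (idx d.fst d.snd) = d.snd := nb_idx d.fst d.snd d.adj
  show _ = (nb d.fst (idx d.fst d.snd), idx (nb d.fst (idx d.fst d.snd)) d.fst)
  rw [h]

theorem fc_ph' (p : Fin 20 × Fin 3) : fc (ph p).1 (ph p).2 = fc p.1 p.2 := fc_ph p.1 p.2

theorem fc_pow (n : ℕ) (p : Fin 20 × Fin 3) : fc ((ph ^ n) p).1 ((ph ^ n) p).2 = fc p.1 p.2 := by
  induction n generalizing p with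
  | zero => rfl
  | succ n ih => rw [pow_succ, Equiv.Perm.mul_apply, ih, fc_ph']

theorem card_darts : Nat.card G.Dart = 60 := by
  rw [Nat.card_congr eqv]; simp

theorem card_edges : Nat.card G.edgeSet = 30 := by
  classical
  have h1 := G.dart_card_eq_twice_card_edges
  rw [← Nat.card_eq_fintype_card, card_darts] at h1
  rw [Nat.card_eq_fintype_card, ← SimpleGraph.edgeFinset_card]
  omega

theorem planar : Planar G := by
  refine ⟨12, ?_, cj rot, cj ph, fun d => fc (eqv d).1 (eqv d).2, ?_, ?_, ?_, ?_, ?_⟩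
  · rw [card_edges]; simp
  · intro d
    have h := cj_apply rot d
    have h2 : (eqv (cj rot d)).1 = (rot (eqv d)).1 := congrArg Prod.fst h
    exact h2
  · intro d d' h
    obtain ⟨n, hn⟩ := rot_pow d.fst (eqv d).2 (eqv d').2
    refine ⟨n.val, ?_⟩
    apply eqv.injective
    rw [cj_pow]
    have h1 : eqv d = (d.fst, (eqv d).2) := rfl
    have h2 : eqv d' = (d.fst, (eqv d').2) := by rw [h]; rfl
    rw [h2, ← hn, ← h1]
  · intro d
    apply eqv.injective
    rw [cj_apply, cj_apply, eqv_symm]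
    rfl
  · intro d d'
    constructor
    · intro h
      rcases hp : eqv d with ⟨u, i⟩
      rcases hp' : eqv d' with ⟨u', i'⟩
      simp only [hp, hp'] at h
      refine ⟨(pw u' i').val + (5 - (pw u i).val), ?_⟩
      apply eqv.injective
      rw [cj_pow, hp, hp', pow_add, Equiv.Perm.mul_apply, ph_rep', h, ph_rep]
    · rintro ⟨n, rfl⟩
      show _ = fc (eqv ((cj ph ^ n) d)).1 (eqv ((cj ph ^ n) d)).2
      rw [cj_pow, fc_pow]
  · intro k
    refine ⟨eqv.symm (rep k), ?_⟩
    show fc (eqv (eqv.symm (rep k))).1 (eqv (eqv.symm (rep k))).2 = k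
    rw [Equiv.apply_symm_apply, fc_rep]

/-! ### The game -/

/-- The cop at `c` does not threaten `x`. -/
def Safe (c x : Fin 20) : Prop := c ≠ x ∧ ∀ i, nb c i ≠ x

instance (c x : Fin 20) : Decidable (Safe c x) := by unfold Safe; infer_instance

theorem one_threat : ∀ r c : Fin 20, c ≠ r → ∃ j : Fin 3, ∀ i : Fin 3, i ≠ j → Safe c (nb r i) := by
  decide

theorem start : ∀ c c' : Fin 20, ∃ x : Fin 20, Safe c x ∧ Safe c' x := by decide

theorem third : ∀ j j' : Fin 3, ∃ i : Fin 3, i ≠ j ∧ i ≠ j' := by decide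

/-- A good move of the robber. -/
def Good (S : CopStrategy G 2) (l : List (Fin 20)) (x : Fin 20) : Prop :=
  (∀ r ∈ l.head?, G.Adj r x) ∧ ∀ i, Safe (S.pos l i) x

theorem not_cops_win : ¬ CopsWin G 2 := by
  rintro ⟨S, hS⟩
  classical
  -- a good move exists if no cop is on the vertex of the robber
  have hex : ∀ l : List (Fin 20), (∀ r ∈ l.head?, ∀ i, S.pos l i ≠ r) → ∃ x, Good S l x := by
    intro l hl
    cases l with
    | nil =>
      obtain ⟨x, hx, hx'⟩ := start (S.pos [] 0) (S.pos [] 1)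
      refine ⟨x, by simp, ?_⟩
      intro i
      fin_cases i
      · exact hx
      · exact hx'
    | cons r l =>
      have h0 := hl r (by simp)
      obtain ⟨j, hj⟩ := one_threat r _ (h0 0)
      obtain ⟨j', hj'⟩ := one_threat r _ (h0 1)
      obtain ⟨i, hi, hi'⟩ := third j j'
      refine ⟨nb r i, ?_, ?_⟩
      · intro r' hr'
        have : r = r' := by simpa using hr'
        subst this
        exact ⟨i, rfl⟩
      · intro k
        fin_cases k
        · exact hj i hi
        · exact hj' i hi'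
  let nxt : List (Fin 20) → Fin 20 := fun l => Classical.epsilon (Good S l)
  let h : ℕ → List (Fin 20) := fun n => Nat.rec [] (fun _ l => nxt l :: l) n
  have h0 : h 0 = [] := rfl
  have h1 : ∀ n, h (n + 1) = nxt (h n) :: h n := fun n => rfl
  let ρ : ℕ → Fin 20 := fun n => nxt (h n)
  have hhist : ∀ n, hist ρ n = h n := by
    intro n
    induction n with
    | zero => rfl
    | succ n ih => rw [h1, hist, ih]
  have hgood : ∀ n, Good S (h n) (ρ n) := by
    intro n
    induction n with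
    | zero =>
      apply Classical.epsilon_spec
      apply hex
      intro r hr
      rw [h0] at hr
      simp at hr
    | succ n ih =>
      apply Classical.epsilon_spec
      apply hex
      intro r hr i
      rw [h1] at hr
      have hr' : ρ n = r := by simpa using hr
      subst hr'
      intro hcap
      have hadj := S.adj (h n) (ρ n) i
      rw [h1] at hcap
      have hcap' : S.pos (ρ n :: h n) i = ρ n := hcap
      rw [hcap'] at hadj
      obtain ⟨k, hk⟩ := hadj
      exact (ih.2 i).2 k hk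
  obtain ⟨n, i, hcap⟩ := hS ρ (by
    intro n
    have := (hgood (n + 1)).1 (ρ n) (by rw [h1]; rfl)
    exact this)
  rw [hhist, hhist] at hcap
  rcases hcap with hc | hc
  · exact ((hgood n).2 i).1 hc
  · have hadj := S.adj (h n) (ρ n) i
    rw [h1] at hc
    have hc' : S.pos (ρ n :: h n) i = ρ n := hc
    rw [hc'] at hadj
    obtain ⟨k, hk⟩ := hadj
    exact ((hgood n).2 i).2 k hk

end Dodec

theorem specDodec : SpecDodec := ⟨Dodec.G, Dodec.connected, Dodec.planar, Dodec.not_cops_win⟩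

end Pool.Agent.Lib.MP9d0a1e
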