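import Pool.Agent.Lib.MP_9d0a1e_co.Defs

/-!
# From positional wins to winning strategies
-/

namespace Pool.Agent.Lib.MP9d0a1e

universe u

variable {V : Type u} {G : SimpleGraph V} {k : ℕ}

/-- The robber stands at `r` and is to move, the cops stand at `c`: the cops can force a capture. -/
inductive RWin (G : SimpleGraph V) {k : ℕ} : (Fin k → V) → V → Prop
  | capture {c : Fin k → V} {r : V} (i : Fin k) (h : c i = r) : RWin G c r
  | step {c : Fin k → V} {r : V} (f : V → Fin k → V)
      (hadj : ∀ r', G.Adj r r' → (∀ i, c i ≠ r') → ∀ i, G.Adj (c i) (f r' i))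
      (hwin : ∀ r', G.Adj r r' → (∀ i, c i ≠ r') → RWin G (f r') r') : RWin G c r

theorem RWin.step' {c : Fin k → V} {r : V}
    (h : ∀ r', G.Adj r r' → (∀ i, c i ≠ r') →
      ∃ c' : Fin k → V, (∀ i, G.Adj (c i) (c' i)) ∧ RWin G c' r') : RWin G c r := by
  classical
  refine RWin.step (fun r' => if h' : G.Adj r r' ∧ (∀ i, c i ≠ r') then
    (h r' h'.1 h'.2).choose else c) ?_ ?_
  · intro r' h1 h2
    simp only [h1, h2, true_and, not_false_eq_true, implies_true, ne_eq, dite_true]
    exact (h r' h1 h2).choose_spec.1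
  · intro r' h1 h2
    simp only [h1, h2, true_and, not_false_eq_true, implies_true, ne_eq, dite_true]
    exact (h r' h1 h2).choose_spec.2

theorem RWin.perm {c : Fin k → V} {r : V} (h : RWin G c r) (e : Equiv.Perm (Fin k)) :
    RWin G (c ∘ e) r := by
  induction h with
  | @capture c r i h => exact RWin.capture (e.symm i) (by simpa using h)
  | @step c r f hadj _ ih =>
    refine RWin.step' fun r' h1 h2 => ⟨f r' ∘ e, fun i => ?_, ?_⟩
    · exact hadj r' h1 (fun i => by simpa using h2 (e.symm i)) (e i)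
    · exact ih r' h1 (fun i => by simpa using h2 (e.symm i))

/-- The cops can force a capture within `n` rounds. -/
def RWinN (G : SimpleGraph V) {k : ℕ} : ℕ → (Fin k → V) → V → Prop
  | 0, c, r => ∃ i, c i = r
  | n + 1, c, r => (∃ i, c i = r) ∨ ∀ r', G.Adj r r' → (∃ i, c i = r') ∨
      ∃ c' : Fin k → V, (∀ i, G.Adj (c i) (c' i)) ∧ RWinN G n c' r'

theorem RWinN.succ {n : ℕ} : ∀ {c : Fin k → V} {r : V}, RWinN G n c r → RWinN G (n + 1) c r := by
  induction n with
  | zero => intro c r h; exact Or.inl h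
  | succ n ih =>
    intro c r h
    rcases h with h | h
    · exact Or.inl h
    · refine Or.inr fun r' hr' => ?_
      rcases h r' hr' with h | ⟨c', h1, h2⟩
      · exact Or.inl h
      · exact Or.inr ⟨c', h1, ih h2⟩

theorem RWinN.mono {n m : ℕ} (hnm : n ≤ m) {c : Fin k → V} {r : V} (h : RWinN G n c r) :
    RWinN G m c r := by
  induction hnm with
  | refl => exact h
  | step _ ih => exact ih.succ

theorem RWin.exists_n [Finite V] {c : Fin k → V} {r : V} (h : RWin G c r) :
    ∃ n, RWinN G n c r := by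
  induction h with
  | @capture c r i h => exact ⟨0, i, h⟩
  | @step c r f hadj _ ih =>
    have h1 : ∀ r' : V, ∃ n : ℕ, G.Adj r r' → (∀ i, c i ≠ r') → RWinN G n (f r') r' := by
      intro r'
      by_cases h1 : G.Adj r r' ∧ ∀ i, c i ≠ r'
      · obtain ⟨n, hn⟩ := ih r' h1.1 h1.2
        exact ⟨n, fun _ _ => hn⟩
      · exact ⟨0, fun h2 h3 => absurd ⟨h2, h3⟩ h1⟩
    choose n hn using h1
    obtain ⟨M, hM⟩ : ∃ M, ∀ r', n r' ≤ M := by
      have := Fintype.ofFinite V
      exact ⟨Finset.univ.sup n, fun r' => Finset.le_sup (Finset.mem_univ r')⟩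
    refine ⟨M + 1, Or.inr fun r' hr' => ?_⟩
    by_cases h2 : ∃ i, c i = r'
    · exact Or.inl h2
    · push Not at h2
      exact Or.inr ⟨f r', hadj r' hr' h2, (hn r' hr' h2).mono (hM r')⟩

/-- From the cop position `c` the cops can move so as to win within `n` more rounds. -/
def Good (G : SimpleGraph V) (c : Fin k → V) (r : V) (n : ℕ) : Prop :=
  ∃ c' : Fin k → V, (∀ i, G.Adj (c i) (c' i)) ∧ RWinN G n c' r

open Classical in
/-- The move of the cops. -/
noncomputable def nxt (G : SimpleGraph V) (nb : V → V) (c : Fin k → V) (r : V) : Fin k → V :=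
  if h : ∃ n, Good G c r n then (Nat.find_spec h).choose else fun i => nb (c i)

theorem nxt_adj (nb : V → V) (hnb : ∀ v, G.Adj v (nb v)) (c : Fin k → V) (r : V) (i : Fin k) :
    G.Adj (c i) (nxt G nb c r i) := by
  classical
  by_cases h : ∃ n, Good G c r n
  · simp only [nxt, dif_pos h]
    exact (Nat.find_spec h).choose_spec.1 i
  · simp only [nxt, dif_neg h]
    exact hnb (c i)

theorem nxt_spec (nb : V → V) (c : Fin k → V) (r : V) {n : ℕ} (h : Good G c r n) :
    ∃ m ≤ n, RWinN G m (nxt G nb c r) r := by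
  classical
  have h' : ∃ n, Good G c r n := ⟨n, h⟩
  refine ⟨Nat.find h', Nat.find_min' h' h, ?_⟩
  simp only [nxt, dif_pos h']
  exact (Nat.find_spec h').choose_spec.2

/-- The cops can win from the starting vertices `c0`. -/
theorem copsWin_of_rwin [Finite V] (hnb : ∀ v : V, ∃ u, G.Adj v u) (c0 : Fin k → V)
    (h : ∀ r, (∃ i, c0 i = r) ∨ ∃ c1 : Fin k → V, (∀ i, G.Adj (c0 i) (c1 i)) ∧ RWin G c1 r) :
    CopsWin G k := by
  classical
  choose nb hnb using hnb
  let pos : List V → Fin k → V := fun l => List.rec c0 (fun r _ c => nxt G nb c r) l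
  let S : CopStrategy G k := ⟨pos, fun l r i => nxt_adj nb hnb (pos l) r i⟩
  refine ⟨S, fun ρ hρ => ?_⟩
  have key : ∀ n : ℕ, ∀ t : ℕ, Good G (pos (hist ρ t)) (ρ t) n →
      ∃ (n : ℕ) (i : Fin k), S.pos (hist ρ n) i = ρ n ∨ S.pos (hist ρ (n + 1)) i = ρ n := by
    intro n
    induction n using Nat.strong_induction_on with
    | _ n ih =>
      intro t ht
      obtain ⟨m, hmn, hw⟩ := nxt_spec nb _ _ ht
      rcases m with _ | m
      · obtain ⟨i, hi⟩ := hw
        exact ⟨t, i, Or.inr hi⟩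
      · rcases hw with ⟨i, hi⟩ | hw
        · exact ⟨t, i, Or.inr hi⟩
        · rcases hw (ρ (t + 1)) (hρ t) with ⟨i, hi⟩ | ⟨c', h1, h2⟩
          · exact ⟨t + 1, i, Or.inl hi⟩
          · exact ih m (by omega) (t + 1) ⟨c', h1, h2⟩
  rcases h (ρ 0) with ⟨i, hi⟩ | ⟨c1, h1, h2⟩
  · exact ⟨0, i, Or.inl hi⟩
  · obtain ⟨n, hn⟩ := h2.exists_n
    exact key n 0 ⟨c1, h1, hn⟩

end Pool.Agent.Lib.MP9d0a1e
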