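import Pool.Agent.Lib.MP_9d0a1e_co.Game

/-!
# Guards
-/

namespace Pool.Agent.Lib.MP9d0a1e

universe u

variable {V : Type u} {G : SimpleGraph V} {k : ℕ}

/-- `g r c`: the cop is in guard position at `c` when the robber stands at `r` and is to move. The
cop can keep the relation as long as the robber moves inside `R`. -/
def IsGuard (G : SimpleGraph V) (R : Set V) (g : V → V → Prop) : Prop :=
  ∀ r ∈ R, ∀ r' ∈ R, G.Adj r r' → ∀ c, g r c → ∃ c', G.Adj c c' ∧ g r' c'

/-- A cop in guard position captures the robber if he moves from `r` to `b`. -/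
def Covers (G : SimpleGraph V) (g : V → V → Prop) (r b : V) : Prop :=
  ∀ c, g r c → c = b ∨ G.Adj c b

/-- Every edge leaving `R` is covered. -/
def Cov (G : SimpleGraph V) (R : Set V) (g : Fin k → V → V → Prop) : Prop :=
  ∀ r ∈ R, ∀ b, b ∉ R → G.Adj r b → ∃ i, Covers G (g i) r b

/-- The cops win from all positions with the robber in `R` and all cops in guard position. -/
def Sw (G : SimpleGraph V) (R : Set V) (g : Fin k → V → V → Prop) : Prop :=
  ∀ c r, r ∈ R → (∀ i, g i r (c i)) → RWin G c r

/-- The relation of a free cop. -/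
def free : V → V → Prop := fun _ _ => True

theorem Sw.mono {R : Set V} {g g' : Fin k → V → V → Prop} (h : Sw G R g')
    (hgg : ∀ i, ∀ r ∈ R, ∀ c, g i r c → g' i r c) : Sw G R g :=
  fun c r hr hc => h c r hr fun i => hgg i r hr _ (hc i)

theorem Sw.subset {R R' : Set V} {g : Fin k → V → V → Prop} (h : Sw G R g) (hR : R' ⊆ R) :
    Sw G R' g := fun c r hr hc => h c r (hR hr) hc

theorem Sw.perm {R : Set V} {g : Fin k → V → V → Prop} (e : Equiv.Perm (Fin k))
    (h : Sw G R (fun i => g (e i))) : Sw G R g := by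
  intro c r hr hc
  have h1 := (h (c ∘ e) r hr fun i => hc (e i)).perm e.symm
  have h2 : (c ∘ e) ∘ e.symm = c := by
    funext i; simp
  rwa [h2] at h1

theorem IsGuard.subset {R R' : Set V} {g : V → V → Prop} (h : IsGuard G R g) (hR : R' ⊆ R) :
    IsGuard G R' g := fun r hr r' hr' ha c hc => h r (hR hr) r' (hR hr') ha c hc

theorem isGuard_free (hnb : ∀ v : V, ∃ u, G.Adj v u) (R : Set V) : IsGuard G R free :=
  fun _ _ _ _ _ c _ => ⟨(hnb c).choose, (hnb c).choose_spec, trivial⟩

/-- A covered move leads to a capture. -/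
theorem exists_capture (hnb : ∀ v : V, ∃ u, G.Adj v u) {g : V → V → Prop} {r b : V}
    (hc : Covers G g r b) {c : Fin k → V} {i : Fin k} (hi : g r (c i)) (hne : ∀ i, c i ≠ b) :
    ∃ c' : Fin k → V, (∀ i, G.Adj (c i) (c' i)) ∧ RWin G c' b := by
  classical
  choose nb hnb using hnb
  have h1 : G.Adj (c i) b := (hc _ hi).resolve_left (hne i)
  refine ⟨Function.update (fun j => nb (c j)) i b, fun j => ?_, RWin.capture i (by simp)⟩
  by_cases hj : j = i
  · subst hj; simpa using h1
  · simpa [Function.update_of_ne hj] using hnb (c j)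

/-- The cop in position `c` can reach the relation `h` while keeping `J`. -/
inductive Att (G : SimpleGraph V) (R : Set V) (J h : V → V → Prop) : V → V → Prop
  | done {r c : V} (hh : h r c) : Att G R J h r c
  | step {r c : V} (hJ : J r c) (f : V → V) (h1 : ∀ r' ∈ R, G.Adj r r' → G.Adj c (f r'))
      (h2 : ∀ r' ∈ R, G.Adj r r' → Att G R J h r' (f r')) : Att G R J h r c

theorem Att.step' {R : Set V} {J h : V → V → Prop} {r c : V} (hJ : J r c)
    (hs : ∀ r' ∈ R, G.Adj r r' → ∃ c', G.Adj c c' ∧ Att G R J h r' c') : Att G R J h r c := by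
  classical
  refine Att.step hJ (fun r' => if h' : r' ∈ R ∧ G.Adj r r' then (hs r' h'.1 h'.2).choose else c)
    ?_ ?_
  · intro r' h1 h2
    simp only [h1, h2, and_self, dite_true]
    exact (hs r' h1 h2).choose_spec.1
  · intro r' h1 h2
    simp only [h1, h2, and_self, dite_true]
    exact (hs r' h1 h2).choose_spec.2

theorem Att.mono {R : Set V} {J J' h : V → V → Prop} (hJ : ∀ r c, J r c → J' r c) {r c : V}
    (ha : Att G R J h r c) : Att G R J' h r c := by
  induction ha with
  | done hh => exact Att.done hh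
  | step h0 f h1 _ ih => exact Att.step (hJ _ _ h0) f h1 ih

/-- Composition: first reach `h1`, then from `h1` reach `h2`. -/
theorem Att.trans {R : Set V} {J h1 h2 : V → V → Prop} {r c : V}
    (ha : Att G R J h1 r c) (hr : r ∈ R) (hb : ∀ r ∈ R, ∀ c, h1 r c → Att G R J h2 r c) :
    Att G R J h2 r c := by
  induction ha with
  | done hh => exact hb _ hr _ hh
  | step h0 f h1 _ ih => exact Att.step h0 f h1 fun r' hr' ha => ih r' hr' ha hr'

/-- Cop `j` changes from the relation `g j` to the relation `h` while keeping `J`. -/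
theorem sw_att (hnb : ∀ v : V, ∃ u, G.Adj v u) {R : Set V} {g : Fin k → V → V → Prop} (j : Fin k)
    {J h : V → V → Prop} (hg : ∀ i, i ≠ j → IsGuard G R (g i))
    (hcov : Cov G R (Function.update g j J))
    (hatt : ∀ r ∈ R, ∀ c, g j r c → Att G R J h r c)
    (hnext : Sw G R (Function.update g j h)) : Sw G R g := by
  classical
  have key : ∀ r x, Att G R J h r x → r ∈ R → ∀ c : Fin k → V, c j = x →
      (∀ i, i ≠ j → g i r (c i)) → RWin G c r := by
    intro r x ha
    induction ha with
    | @done r x hh =>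
      intro hr c hcj hc
      refine hnext c r hr fun i => ?_
      by_cases hi : i = j
      · subst hi; simpa [hcj] using hh
      · simpa [Function.update_of_ne hi] using hc i hi
    | @step r x hJ f h1 _ ih =>
      intro hr c hcj hc
      refine RWin.step' fun r' hrr' hne => ?_
      by_cases hr' : r' ∈ R
      · -- the cops keep their positions
        have h3 : ∀ i, ∃ c', G.Adj (c i) c' ∧ (i ≠ j → g i r' c') ∧ (i = j → c' = f r') := by
          intro i
          by_cases hi : i = j
          · subst hi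
            exact ⟨f r', hcj ▸ h1 r' hr' hrr', fun h => absurd rfl h, fun _ => rfl⟩
          · obtain ⟨c', h4, h5⟩ := hg i hi r hr r' hr' hrr' (c i) (hc i hi)
            exact ⟨c', h4, fun _ => h5, fun h => absurd h hi⟩
        choose c' h4 h5 h6 using h3
        exact ⟨c', h4, ih r' hr' hrr' hr' c' (h6 j rfl) fun i hi => h5 i hi⟩
      · obtain ⟨i, hi⟩ := hcov r hr r' hr' hrr'
        by_cases hij : i = j
        · subst hij
          refine exists_capture hnb hi (i := i) ?_ hne
          simpa [hcj] using hJ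
        · refine exists_capture hnb hi (i := i) ?_ hne
          simpa [Function.update_of_ne hij] using hc i hij
  exact fun c r hr hc => key r (c j) (hatt r hr _ (hc j)) hr c rfl fun i _ => hc i

/-- The component of `r` in the subgraph induced on `S`. -/
def comp (G : SimpleGraph V) (S : Set V) (r : V) : Set V :=
  {x | Relation.ReflTransGen (fun x y => G.Adj x y ∧ y ∈ S) r x}

theorem self_mem_comp (G : SimpleGraph V) (S : Set V) (r : V) : r ∈ comp G S r :=
  Relation.ReflTransGen.refl

theorem comp_subset {S : Set V} {r : V} (hr : r ∈ S) : comp G S r ⊆ S := by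
  intro x hx
  induction hx with
  | refl => exact hr
  | tail _ h _ => exact h.2

theorem mem_comp_of_adj {S : Set V} {r x y : V} (hx : x ∈ comp G S r) (ha : G.Adj x y)
    (hy : y ∈ S) : y ∈ comp G S r := Relation.ReflTransGen.tail hx ⟨ha, hy⟩

/-- Passing to a component of the territory minus a set `Y` entering which is covered. -/
theorem sw_pass (hnb : ∀ v : V, ∃ u, G.Adj v u) {R Y : Set V} {g : Fin k → V → V → Prop}
    (hg : ∀ i, IsGuard G R (g i)) (hcov : Cov G R g)
    (hY : ∀ r ∈ R, r ∈ Y → ∀ b ∈ Y, G.Adj r b → ∃ i, Covers G (g i) r b)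
    (hK : ∀ r ∈ R \ Y, Sw G (comp G (R \ Y) r) g) : Sw G R g := by
  classical
  intro c r hr hc
  by_cases hrY : r ∈ Y
  · refine RWin.step' fun r' hrr' hne => ?_
    by_cases hr' : r' ∈ R
    · by_cases hrY' : r' ∈ Y
      · obtain ⟨i, hi⟩ := hY r hr hrY r' hrY' hrr'
        exact exists_capture hnb hi (hc i) hne
      · have h3 : ∀ i, ∃ c', G.Adj (c i) c' ∧ g i r' c' := fun i =>
          hg i r hr r' hr' hrr' (c i) (hc i)
        choose c' h4 h5 using h3
        exact ⟨c', h4, hK r' ⟨hr', hrY'⟩ c' r' (self_mem_comp _ _ _) h5⟩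
    · obtain ⟨i, hi⟩ := hcov r hr r' hr' hrr'
      exact exists_capture hnb hi (hc i) hne
  · exact hK r ⟨hr, hrY⟩ c r (self_mem_comp _ _ _) hc

/-- The guard of an edge. -/
def edgeGuard (u v : V) : V → V → Prop := fun _ c => c = u ∨ c = v

theorem isGuard_edge {u v : V} (huv : G.Adj u v) (R : Set V) : IsGuard G R (edgeGuard u v) := by
  intro _ _ _ _ _ c hc
  rcases hc with rfl | rfl
  · exact ⟨v, huv, Or.inr rfl⟩
  · exact ⟨u, huv.symm, Or.inl rfl⟩

theorem covers_edge {u v : V} (huv : G.Adj u v) (r b : V) (hb : b = u ∨ b = v) :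
    Covers G (edgeGuard u v) r b := by
  intro c hc
  rcases hb with rfl | rfl <;> rcases hc with rfl | rfl
  · exact Or.inl rfl
  · exact Or.inr huv.symm
  · exact Or.inr huv
  · exact Or.inl rfl

/-- A cop can walk anywhere. -/
theorem att_walk {R : Set V} {h : V → V → Prop} {x : V}
    (hx : ∀ r ∈ R, Att G R free h r x) : ∀ {c : V}, G.Walk c x → ∀ r ∈ R, Att G R free h r c := by
  intro c p
  induction p with
  | nil => exact hx
  | @cons u v w ha _ ih =>
    intro r _
    exact Att.step' trivial fun r' hr' _ => ⟨v, ha, ih hx r' hr'⟩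

end Pool.Agent.Lib.MP9d0a1e
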