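import Pool.Agent.Lib.MP_9d0a1e_co.Guard

/-!
# Guardable paths, upper and lower mode
-/

namespace Pool.Agent.Lib.MP9d0a1e

universe u

variable {V : Type u} {G : SimpleGraph V}

/-- `Reach G R n r v`: there is a walk of `n` steps from `r` to `v`, all vertices but possibly the
last one being in `R`. -/
inductive Reach (G : SimpleGraph V) (R : Set V) : ℕ → V → V → Prop
  | zero (v : V) : Reach G R 0 v v
  | step {n : ℕ} {r r' v : V} (hr : r ∈ R) (ha : G.Adj r r') (h : Reach G R n r' v) :
      Reach G R (n + 1) r v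

theorem Reach.one {R : Set V} {r v : V} (hr : r ∈ R) (ha : G.Adj r v) : Reach G R 1 r v :=
  Reach.step hr ha (Reach.zero v)

theorem Reach.trans {R : Set V} {n m : ℕ} {r v w : V} (h : Reach G R n r v)
    (h' : Reach G R m v w) : Reach G R (n + m) r w := by
  induction h with
  | zero v => simpa using h'
  | @step n r r' v hr ha _ ih =>
    have := Reach.step hr ha (ih h')
    rwa [show n + m + 1 = n + 1 + m by ring] at this

theorem Reach.mono {R R' : Set V} (hR : R ⊆ R') {n : ℕ} {r v : V} (h : Reach G R n r v) :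
    Reach G R' n r v := by
  induction h with
  | zero v => exact Reach.zero v
  | step hr ha _ ih => exact Reach.step (hR hr) ha ih

theorem Reach.snoc {R : Set V} {n : ℕ} {r v w : V} (h : Reach G R n r v) (hv : v ∈ R)
    (ha : G.Adj v w) : Reach G R (n + 1) r w := h.trans (Reach.one hv ha)

theorem Reach.start_mem {R : Set V} {n : ℕ} {r v : V} (h : Reach G R (n + 1) r v) : r ∈ R := by
  cases h with
  | step hr _ _ => exact hr

theorem Reach.eq_zero {R : Set V} {r v : V} (h : Reach G R 0 r v) : r = v := by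
  cases h; rfl

theorem Reach.symm {R : Set V} {n : ℕ} {r v : V} (h : Reach G R n r v) (hv : v ∈ R) :
    Reach G R n v r := by
  induction h with
  | zero v => exact Reach.zero v
  | @step n r r' v hr ha h ih =>
    refine (ih hv).snoc ?_ ha.symm
    cases n with
    | zero => rw [h.eq_zero]; exact hv
    | succ n => exact h.start_mem

/-- Any two vertices of `R` are joined inside `R`. -/
def Conn (G : SimpleGraph V) (R : Set V) : Prop := ∀ x ∈ R, ∀ y ∈ R, ∃ n, Reach G R n x y

theorem reach_comp {S : Set V} {r x : V} (hx : x ∈ comp G S r) :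
    ∃ n, Reach G (comp G S r) n r x := by
  induction hx with
  | refl => exact ⟨0, Reach.zero r⟩
  | @tail y z hy hz ih =>
    obtain ⟨n, hn⟩ := ih
    exact ⟨n + 1, hn.snoc hy hz.1⟩

theorem conn_comp (S : Set V) (r : V) : Conn G (comp G S r) := by
  intro x hx y hy
  obtain ⟨n, hn⟩ := reach_comp hx
  obtain ⟨m, hm⟩ := reach_comp hy
  exact ⟨n + m, (hn.symm hx).trans hm⟩

theorem Reach.first {R Y : Set V} {r0 : V} {n : ℕ} {r v : V} (h : Reach G R n r v)
    (hr : r ∈ comp G (R \ Y) r0) :
    Reach G (comp G (R \ Y) r0) n r v ∨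
      ∃ y ∈ Y, y ∈ R ∧ ∃ n1 n2, n1 + n2 = n ∧ Reach G (comp G (R \ Y) r0) n1 r y ∧
        Reach G R n2 y v := by
  induction h with
  | zero v => exact Or.inl (Reach.zero v)
  | @step n r r' v hrR ha h ih =>
    by_cases hr' : r' ∈ R
    · by_cases hY : r' ∈ Y
      · exact Or.inr ⟨r', hY, hr', 1, n, by omega, Reach.one hr ha, h⟩
      · rcases ih (mem_comp_of_adj hr ha ⟨hr', hY⟩) with h1 | ⟨y, hy, hyR, n1, n2, h1, h2, h3⟩
        · exact Or.inl (Reach.step hr ha h1)
        · exact Or.inr ⟨y, hy, hyR, n1 + 1, n2, by omega, Reach.step hr ha h2, h3⟩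
    · cases n with
      | zero =>
        rw [← h.eq_zero]
        exact Or.inl (Reach.one hr ha)
      | succ n => exact absurd h.start_mem hr'

/-- A guardable path with respect to the territory `R`. -/
structure GPath (G : SimpleGraph V) (R : Set V) where
  /-- the vertices -/
  q : ℤ → V
  /-- lowest level -/
  lo : ℤ
  /-- highest level -/
  hi : ℤ
  lt : lo < hi
  adj : ∀ x, lo ≤ x → x < hi → G.Adj (q x) (q (x + 1))
  lo_notMem : q lo ∉ R
  hi_notMem : q hi ∉ R
  iso : ∀ r ∈ R, ∀ x y : ℤ, lo ≤ x → x ≤ hi → lo ≤ y → y ≤ hi → ∀ n n' : ℕ,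
    Reach G R n r (q x) → Reach G R n' r (q y) → x - y ≤ n + n'

namespace GPath

variable {R : Set V}

/-- The reversed path. -/
def rev (P : GPath G R) : GPath G R where
  q := fun x => P.q (-x)
  lo := -P.hi
  hi := -P.lo
  lt := by have := P.lt; omega
  adj := fun x h1 h2 => by
    have h := P.adj (-(x + 1)) (by omega) (by omega)
    rw [show -(x + 1) + 1 = -x by ring] at h
    exact h.symm
  lo_notMem := by simpa using P.hi_notMem
  hi_notMem := by simpa using P.lo_notMem
  iso := fun r hr x y h1 h2 h3 h4 n n' h5 h6 => by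
    have := P.iso r hr (-y) (-x) (by omega) (by omega) (by omega) (by omega) n' n h6 h5
    omega

/-- Restriction to a smaller territory. -/
def restrict (P : GPath G R) {K : Set V} (hK : K ⊆ R) : GPath G K where
  q := P.q
  lo := P.lo
  hi := P.hi
  lt := P.lt
  adj := P.adj
  lo_notMem := fun h => P.lo_notMem (hK h)
  hi_notMem := fun h => P.hi_notMem (hK h)
  iso := fun r hr x y h1 h2 h3 h4 n n' h5 h6 =>
    P.iso r (hK hr) x y h1 h2 h3 h4 n n' (h5.mono hK) (h6.mono hK)

/-- The set whose supremum is `al`. -/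
def alSet (P : GPath G R) (r : V) : Set ℤ :=
  {z | z = P.lo ∨ ∃ (x : ℤ) (n : ℕ), P.lo ≤ x ∧ x ≤ P.hi ∧ Reach G R n r (P.q x) ∧ z = x - n}

/-- The lowest admissible level of a guard. -/
noncomputable def al (P : GPath G R) (r : V) : ℤ := sSup (P.alSet r)

/-- The highest admissible level of a guard. -/
noncomputable def be (P : GPath G R) (r : V) : ℤ := -P.rev.al r

theorem alSet_bdd (P : GPath G R) (r : V) : BddAbove (P.alSet r) := by
  refine ⟨P.hi, ?_⟩
  rintro z (rfl | ⟨x, n, h1, h2, _, rfl⟩)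
  · exact P.lt.le
  · omega

theorem alSet_nonempty (P : GPath G R) (r : V) : (P.alSet r).Nonempty := ⟨P.lo, Or.inl rfl⟩

theorem al_mem (P : GPath G R) (r : V) : P.al r ∈ P.alSet r :=
  Int.csSup_mem (P.alSet_nonempty r) (P.alSet_bdd r)

theorem lo_le_al (P : GPath G R) (r : V) : P.lo ≤ P.al r :=
  le_csSup (P.alSet_bdd r) (Or.inl rfl)

theorem le_al (P : GPath G R) {r : V} {x : ℤ} {n : ℕ} (h1 : P.lo ≤ x) (h2 : x ≤ P.hi)
    (h : Reach G R n r (P.q x)) : x - n ≤ P.al r :=
  le_csSup (P.alSet_bdd r) (Or.inr ⟨x, n, h1, h2, h, rfl⟩)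

theorem al_lt_hi (P : GPath G R) {r : V} (hr : r ∈ R) : P.al r < P.hi := by
  rcases P.al_mem r with h | ⟨x, n, h1, h2, h3, h4⟩
  · rw [h]; exact P.lt
  · rw [h4]
    rcases n with _ | n
    · have h5 := h3.eq_zero
      have h6 : x ≠ P.hi := by
        rintro rfl
        exact P.hi_notMem (h5 ▸ hr)
      simp only [Nat.cast_zero, sub_zero]
      omega
    · push_cast
      omega

theorem al_lip (P : GPath G R) {r r' : V} (hr : r ∈ R) (ha : G.Adj r r') :
    P.al r' ≤ P.al r + 1 := by
  rcases P.al_mem r' with h | ⟨x, n, h1, h2, h3, h4⟩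
  · rw [h]; have := P.lo_le_al r; omega
  · have := P.le_al h1 h2 (Reach.step hr ha h3)
    rw [h4]; push_cast at this; omega

theorem be_le_hi (P : GPath G R) (r : V) : P.be r ≤ P.hi := by
  have := P.rev.lo_le_al r
  have h : P.rev.lo = -P.hi := rfl
  unfold be; omega

theorem lo_lt_be (P : GPath G R) {r : V} (hr : r ∈ R) : P.lo < P.be r := by
  have := P.rev.al_lt_hi hr
  have h : P.rev.hi = -P.lo := rfl
  unfold be; omega

theorem be_le (P : GPath G R) {r : V} {x : ℤ} {n : ℕ} (h1 : P.lo ≤ x) (h2 : x ≤ P.hi)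
    (h : Reach G R n r (P.q x)) : P.be r ≤ x + n := by
  have := P.rev.le_al (r := r) (x := -x) (n := n) (by simp [rev]; omega) (by simp [rev]; omega)
    (by simpa [rev] using h)
  unfold be; omega

theorem be_mem (P : GPath G R) (r : V) : P.be r = P.hi ∨
    ∃ (x : ℤ) (n : ℕ), P.lo ≤ x ∧ x ≤ P.hi ∧ Reach G R n r (P.q x) ∧ P.be r = x + n := by
  rcases P.rev.al_mem r with h | ⟨x, n, h1, h2, h3, h4⟩
  · left; unfold be; rw [h]; simp [rev]
  · right
    refine ⟨-x, n, ?_, ?_, ?_, ?_⟩
    · simp only [rev] at h2; omega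
    · simp only [rev] at h1; omega
    · simpa [rev] using h3
    · unfold be; rw [h4]; ring

theorem be_lip (P : GPath G R) {r r' : V} (hr' : r' ∈ R) (ha : G.Adj r r') :
    P.be r' ≤ P.be r + 1 := by
  have := P.rev.al_lip hr' ha.symm
  unfold be; omega

theorem al_le_be (P : GPath G R) {r : V} (hr : r ∈ R) : P.al r ≤ P.be r := by
  rcases P.be_mem r with h | ⟨y, m, g1, g2, g3, g4⟩
  · rw [h]; exact (P.al_lt_hi hr).le
  · rcases P.al_mem r with h | ⟨x, n, h1, h2, h3, h4⟩
    · rw [h]; exact (P.lo_lt_be hr).le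
    · have := P.iso r hr x y h1 h2 g1 g2 n m h3 g3
      omega

/-- Upper mode. -/
def up (P : GPath G R) : V → V → Prop :=
  fun r c => ∃ x, c = P.q x ∧ (x = P.al r ∨ x = P.al r + 1)

/-- Lower mode. -/
def low (P : GPath G R) : V → V → Prop := P.rev.up

theorem low_iff (P : GPath G R) {r c : V} :
    P.low r c ↔ ∃ x, c = P.q x ∧ (x = P.be r ∨ x = P.be r - 1) := by
  constructor
  · rintro ⟨x, h1, h2⟩
    refine ⟨-x, h1, ?_⟩
    unfold be; omega
  · rintro ⟨x, h1, h2⟩
    refine ⟨-x, by simpa [rev] using h1, ?_⟩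
    unfold be at h2; omega

theorem isGuard_up (P : GPath G R) : IsGuard G R P.up := by
  rintro r hr r' hr' ha c ⟨x, rfl, hx⟩
  have h1 := P.al_lip hr ha
  have h2 := P.al_lip hr' ha.symm
  have h3 := P.lo_le_al r
  have h4 := P.lo_le_al r'
  have h5 := P.al_lt_hi hr
  have h6 := P.al_lt_hi hr'
  by_cases h : x - 1 = P.al r' ∨ x - 1 = P.al r' + 1
  · refine ⟨P.q (x - 1), ?_, x - 1, rfl, h⟩
    have := P.adj (x - 1) (by omega) (by omega)
    rw [sub_add_cancel] at this
    exact this.symm
  · exact ⟨P.q (x + 1), P.adj x (by omega) (by omega), x + 1, rfl, by omega⟩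

theorem isGuard_low (P : GPath G R) : IsGuard G R P.low := P.rev.isGuard_up

/-- Upper mode covers all edges into the path, except the D-edges. -/
theorem covers_up (P : GPath G R) {r : V} {w : ℤ} (hr : r ∈ R) (hw : P.lo ≤ w) (hw' : w ≤ P.hi)
    (ha : G.Adj r (P.q w)) (hD : P.al r ≠ w + 1) : Covers G P.up r (P.q w) := by
  rintro c ⟨x, rfl, hx⟩
  have h1 := P.le_al hw hw' (Reach.one hr ha)
  have h2 := P.be_le hw hw' (Reach.one hr ha)
  have h3 := P.al_le_be hr
  have h4 := P.al_lt_hi hr
  have h5 := P.lo_le_al r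
  push_cast at h1 h2
  have h6 : x = w - 1 ∨ x = w ∨ x = w + 1 := by omega
  rcases h6 with rfl | rfl | rfl
  · right
    have := P.adj (w - 1) (by omega) (by omega)
    rwa [sub_add_cancel] at this
  · left; rfl
  · right
    exact (P.adj w (by omega) (by omega)).symm

theorem covers_low (P : GPath G R) {r : V} {w : ℤ} (hr : r ∈ R) (hw : P.lo ≤ w) (hw' : w ≤ P.hi)
    (ha : G.Adj r (P.q w)) (hU : P.be r ≠ w - 1) : Covers G P.low r (P.q w) := by
  have := P.rev.covers_up (r := r) (w := -w) hr (by simp [rev]; omega) (by simp [rev]; omega)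
    (by simpa [rev] using ha) (by unfold be at hU; omega)
  have e : P.rev.q (-w) = P.q w := by simp [rev]
  rw [e] at this
  exact this

/-- Together the two modes cover everything. -/
theorem covers_pair (P : GPath G R) {r : V} {w : ℤ} (hr : r ∈ R) (hw : P.lo ≤ w)
    (hw' : w ≤ P.hi) (ha : G.Adj r (P.q w)) :
    Covers G P.up r (P.q w) ∨ Covers G P.low r (P.q w) := by
  by_cases h : P.al r = w + 1
  · right
    refine P.covers_low hr hw hw' ha ?_
    have := P.al_le_be hr
    omega
  · exact Or.inl (P.covers_up hr hw hw' ha h)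

theorem att_down (P : GPath G R) (n : ℕ) : ∀ r ∈ R, ∀ x, P.lo ≤ x → x ≤ P.hi → x - P.lo ≤ n →
    P.al r ≤ x → Att G R free P.up r (P.q x) := by
  induction n with
  | zero =>
    intro r _ x h1 h2 h3 h4
    exact Att.done ⟨x, rfl, by have := P.lo_le_al r; push_cast at h3; omega⟩
  | succ n ih =>
    intro r hr x h1 h2 h3 h4
    by_cases h5 : x ≤ P.al r + 1
    · exact Att.done ⟨x, rfl, by omega⟩
    · refine Att.step' trivial fun r' hr' ha => ⟨P.q (x - 1), ?_, ?_⟩
      · have h6 := P.lo_le_al r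
        have := P.adj (x - 1) (by omega) (by omega)
        rw [sub_add_cancel] at this
        exact this.symm
      · have h6 := P.lo_le_al r
        have h7 := P.al_lip hr ha
        exact ih r' hr' (x - 1) (by omega) (by omega) (by push_cast at h3; omega) (by omega)

theorem att_up (P : GPath G R) (n : ℕ) : ∀ r ∈ R, ∀ x, P.lo ≤ x → x ≤ P.hi → P.hi - x ≤ n →
    x ≤ P.al r + 1 → Att G R free P.up r (P.q x) := by
  induction n with
  | zero =>
    intro r hr x h1 h2 h3 h4
    exact Att.done ⟨x, rfl, by have := P.al_lt_hi hr; push_cast at h3; omega⟩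
  | succ n ih =>
    intro r hr x h1 h2 h3 h4
    by_cases h5 : P.al r ≤ x
    · exact Att.done ⟨x, rfl, by omega⟩
    · refine Att.step' trivial fun r' hr' ha => ⟨P.q (x + 1), ?_, ?_⟩
      · have h6 := P.al_lt_hi hr
        exact P.adj x h1 (by omega)
      · have h6 := P.al_lt_hi hr
        have h7 := P.al_lip hr' ha.symm
        exact ih r' hr' (x + 1) (by omega) (by omega) (by push_cast at h3; omega) (by omega)

/-- A free cop can take upper mode. -/
theorem att_free (P : GPath G R) (hG : G.Connected) : ∀ r ∈ R, ∀ c,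
    Att G R free P.up r c := by
  intro r hr c
  obtain ⟨p⟩ := hG.preconnected c (P.q P.lo)
  refine att_walk (fun r hr => ?_) p r hr
  have h := P.lo_le_al r
  exact P.att_up (P.hi - P.lo).toNat r hr P.lo le_rfl P.lt.le (by have := P.lt; omega) (by omega)

theorem att_free_low (P : GPath G R) (hG : G.Connected) : ∀ r ∈ R, ∀ c,
    Att G R free P.low r c := P.rev.att_free hG

/-- Passing to a component of the territory minus part of the path does not change `al`. -/
theorem al_restrict (P : GPath G R) {Y : Set V} {r0 r : V} (h0 : r0 ∈ R \ Y)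
    (hY : ∀ y ∈ Y, ∃ x, P.lo ≤ x ∧ x ≤ P.hi ∧ P.q x = y) (hr : r ∈ comp G (R \ Y) r0) :
    (P.restrict (fun _ hx => (comp_subset h0 hx).1 : comp G (R \ Y) r0 ⊆ R)).al r = P.al r := by
  set K := comp G (R \ Y) r0 with hK
  have hKR : K ⊆ R := fun _ hx => (comp_subset h0 hx).1
  apply le_antisymm
  · rcases (P.restrict hKR).al_mem r with h | ⟨x, n, h1, h2, h3, h4⟩
    · rw [h]; exact P.lo_le_al r
    · rw [h4]
      exact P.le_al h1 h2 (h3.mono hKR)
  · rcases P.al_mem r with h | ⟨x, n, h1, h2, h3, h4⟩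
    · rw [h]; exact (P.restrict hKR).lo_le_al r
    · rcases h3.first hr with h5 | ⟨y, hy, hyR, n1, n2, h6, h7, h8⟩
      · rw [h4]
        exact (P.restrict hKR).le_al h1 h2 h5
      · obtain ⟨w, hw1, hw2, rfl⟩ := hY y hy
        have h9 := P.iso _ hyR x w h1 h2 hw1 hw2 n2 0 h8 (Reach.zero _)
        have h10 := (P.restrict hKR).le_al (r := r) (x := w) (n := n1) hw1 hw2 h7
        rw [h4]
        push_cast at h9
        omega

end GPath

end Pool.Agent.Lib.MP9d0a1e
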