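import Pool.Agent.Lib.MP_9d0a1e_co.Path

/-!
# Replacing a cell of a guardable path
-/

namespace Pool.Agent.Lib.MP9d0a1e

universe u

variable {V : Type u} {G : SimpleGraph V}

theorem Reach.exists_fun {R : Set V} {n : ℕ} {r v : V} (h : Reach G R n r v) :
    ∃ f : ℕ → V, f 0 = r ∧ f n = v ∧ ∀ t < n, f t ∈ R ∧ G.Adj (f t) (f (t + 1)) := by
  induction h with
  | zero v => exact ⟨fun _ => v, rfl, rfl, fun t ht => absurd ht (by omega)⟩
  | @step n r r' v hr ha _ ih =>
    obtain ⟨f, h0, hn, hf⟩ := ih
    refine ⟨fun t => if t = 0 then r else f (t - 1), by simp, by simp [hn], fun t ht => ?_⟩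
    rcases t with _ | t
    · simp [hr, h0, ha]
    · have := hf t (by omega)
      simpa using this

/-- The data of a bypass of the path between the levels `i` and `j`. -/
structure Bypass {R : Set V} (P : GPath G R) (i j : ℤ) (z : ℤ → V) : Prop where
  lo_le : P.lo ≤ i
  lt : i + 1 < j
  le_hi : j ≤ P.hi
  z_i : z i = P.q i
  z_j : z j = P.q j
  adj : ∀ x, i ≤ x → x < j → G.Adj (z x) (z (x + 1))
  mem : ∀ x, i < x → x < j → z x ∈ R

namespace Bypass

variable {R : Set V} {P : GPath G R} {i j : ℤ} {z : ℤ → V}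

theorem reach_up (b : Bypass P i j z) (n : ℕ) : ∀ x, i < x → x + n = j →
    Reach G R n (z x) (P.q j) := by
  induction n with
  | zero =>
    intro x h1 h2
    have : x = j := by simpa using h2
    subst this
    rw [b.z_j]
    exact Reach.zero _
  | succ n ih =>
    intro x h1 h2
    push_cast at h2
    exact Reach.step (b.mem x h1 (by omega)) (b.adj x h1.le (by omega))
      (ih (x + 1) (by omega) (by omega))

theorem reach_down (b : Bypass P i j z) (n : ℕ) : ∀ x, x < j → x = i + n →
    Reach G R n (z x) (P.q i) := by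
  induction n with
  | zero =>
    intro x h1 h2
    have : x = i := by simpa using h2
    subst this
    rw [b.z_i]
    exact Reach.zero _
  | succ n ih =>
    intro x h1 h2
    push_cast at h2
    have h3 := b.adj (x - 1) (by omega) (by omega)
    rw [sub_add_cancel] at h3
    exact Reach.step (b.mem x (by omega) h1) h3.symm (ih (x - 1) (by omega) (by omega))

open Classical in
/-- The vertices of the new path. -/
noncomputable def fq (P : GPath G R) (i j : ℤ) (z : ℤ → V) (x : ℤ) : V :=
  if i < x ∧ x < j then z x else P.q x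

theorem fq_in (P : GPath G R) {i j : ℤ} (z : ℤ → V) {x : ℤ} (h1 : i < x) (h2 : x < j) :
    fq P i j z x = z x := if_pos ⟨h1, h2⟩

theorem fq_out (P : GPath G R) {i j : ℤ} (z : ℤ → V) {x : ℤ} (h : x ≤ i ∨ j ≤ x) :
    fq P i j z x = P.q x := if_neg (by omega)

theorem fq_z (b : Bypass P i j z) {x : ℤ} (h1 : i ≤ x) (h2 : x ≤ j) : fq P i j z x = z x := by
  by_cases h : i < x ∧ x < j
  · exact if_pos h
  · have : x = i ∨ x = j := by omega
    rcases this with rfl | rfl
    · rw [fq_out P z (Or.inl le_rfl), b.z_i]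
    · rw [fq_out P z (Or.inr le_rfl), b.z_j]

/-- The new path. -/
noncomputable def flip (b : Bypass P i j z) : GPath G R where
  q := fq P i j z
  lo := P.lo
  hi := P.hi
  lt := P.lt
  adj := by
    intro x h1 h2
    have h3 := b.lt
    by_cases h : i ≤ x ∧ x < j
    · rw [b.fq_z h.1 h.2.le, b.fq_z (by omega) (by omega)]
      exact b.adj x h.1 h.2
    · rw [fq_out P z (by omega), fq_out P z (by omega)]
      exact P.adj x h1 h2
  lo_notMem := by
    have := b.lo_le
    rw [fq_out P z (Or.inl this)]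
    exact P.lo_notMem
  hi_notMem := by
    have := b.le_hi
    rw [fq_out P z (Or.inr this)]
    exact P.hi_notMem
  iso := by
    intro r hr x y hx1 hx2 hy1 hy2 n n' h1 h2
    have g1 := b.lo_le
    have g2 := b.lt
    have g3 := b.le_hi
    have key : ∀ w, i < w → w < j → ∀ m : ℕ, Reach G R m r (z w) →
        Reach G R (m + (j - w).toNat) r (P.q j) ∧ Reach G R (m + (w - i).toNat) r (P.q i) := by
      intro w hw1 hw2 m hm
      exact ⟨hm.trans (b.reach_up _ w hw1 (by omega)), hm.trans (b.reach_down _ w hw2 (by omega))⟩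
    by_cases hx : i < x ∧ x < j
    · rw [fq_in P z hx.1 hx.2] at h1
      have k1 := key x hx.1 hx.2 n h1
      by_cases hy : i < y ∧ y < j
      · rw [fq_in P z hy.1 hy.2] at h2
        have k2 := key y hy.1 hy.2 n' h2
        have := P.iso r hr j i (by omega) (by omega) (by omega) (by omega) _ _ k1.1 k2.2
        push_cast at this
        omega
      · rw [fq_out P z (by omega)] at h2
        have := P.iso r hr j y (by omega) (by omega) (by omega) (by omega) _ _ k1.1 h2
        push_cast at this
        omega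
    · rw [fq_out P z (by omega)] at h1
      by_cases hy : i < y ∧ y < j
      · rw [fq_in P z hy.1 hy.2] at h2
        have k2 := key y hy.1 hy.2 n' h2
        have := P.iso r hr x i (by omega) (by omega) (by omega) (by omega) _ _ h1 k2.2
        push_cast at this
        omega
      · rw [fq_out P z (by omega)] at h2
        exact P.iso r hr x y hx1 hx2 hy1 hy2 n n' h1 h2

end Bypass

namespace GPath

variable {R : Set V}

/-- The set whose infimum is `hh`. -/
def hhSet (P : GPath G R) (i : ℤ) (r : V) : Set ℤ :=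
  {z | z = P.hi ∨ ∃ (x : ℤ) (n : ℕ), P.lo ≤ x ∧ x ≤ i ∧ Reach G R n r (P.q x) ∧ z = x + n}

/-- The bound for a cop who protects only the levels up to `i`. -/
noncomputable def hh (P : GPath G R) (i : ℤ) (r : V) : ℤ := sInf (P.hhSet i r)

theorem hhSet_bdd (P : GPath G R) (i : ℤ) (r : V) : BddBelow (P.hhSet i r) := by
  refine ⟨P.lo, ?_⟩
  rintro z (rfl | ⟨x, n, h1, h2, _, rfl⟩)
  · exact P.lt.le
  · omega

theorem hh_mem (P : GPath G R) (i : ℤ) (r : V) : P.hh i r ∈ P.hhSet i r :=
  Int.csInf_mem ⟨P.hi, Or.inl rfl⟩ (P.hhSet_bdd i r)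

theorem hh_le_hi (P : GPath G R) (i : ℤ) (r : V) : P.hh i r ≤ P.hi :=
  csInf_le (P.hhSet_bdd i r) (Or.inl rfl)

theorem hh_le (P : GPath G R) {i : ℤ} {r : V} {x : ℤ} {n : ℕ} (h1 : P.lo ≤ x) (h2 : x ≤ i)
    (h : Reach G R n r (P.q x)) : P.hh i r ≤ x + n :=
  csInf_le (P.hhSet_bdd i r) (Or.inr ⟨x, n, h1, h2, h, rfl⟩)

theorem hh_lip (P : GPath G R) (i : ℤ) {r r' : V} (hr' : r' ∈ R) (ha : G.Adj r r') :
    P.hh i r' ≤ P.hh i r + 1 := by
  rcases P.hh_mem i r with h | ⟨x, n, h1, h2, h3, h4⟩
  · rw [h]; have := P.hh_le_hi i r'; omega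
  · have := P.hh_le h1 h2 (Reach.step hr' ha.symm h3)
    rw [h4]; push_cast at this; omega

theorem be_le_hh (P : GPath G R) {i : ℤ} (hi : i ≤ P.hi) (r : V) : P.be r ≤ P.hh i r := by
  rcases P.hh_mem i r with h | ⟨x, n, h1, h2, h3, h4⟩
  · rw [h]; exact P.be_le_hi r
  · rw [h4]; exact P.be_le h1 (h2.trans hi) h3

theorem be_cases (P : GPath G R) {i : ℤ} (hi : i ≤ P.hi) (r : V) :
    P.be r = P.hh i r ∨ i + 1 ≤ P.be r := by
  have h0 := P.be_le_hh hi r
  rcases P.be_mem r with h | ⟨x, n, h1, h2, h3, h4⟩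
  · left; have := P.hh_le_hi i r; omega
  · by_cases hx : x ≤ i
    · left
      have := P.hh_le h1 hx h3
      omega
    · right; omega

end GPath

namespace Bypass

variable {R : Set V} {P : GPath G R} {i j : ℤ} {z : ℤ → V}

theorem hh_flip (b : Bypass P i j z) (r : V) : b.flip.hh i r = P.hh i r := by
  have : b.flip.hhSet i r = P.hhSet i r := by
    ext w
    constructor
    · rintro (h | ⟨x, n, h1, h2, h3, h4⟩)
      · exact Or.inl h
      · refine Or.inr ⟨x, n, h1, h2, ?_, h4⟩
        have h5 : b.flip.q x = P.q x := fq_out P z (Or.inl h2)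
        rwa [h5] at h3
    · rintro (h | ⟨x, n, h1, h2, h3, h4⟩)
      · exact Or.inl h
      · refine Or.inr ⟨x, n, h1, h2, ?_, h4⟩
        have h5 : b.flip.q x = P.q x := fq_out P z (Or.inl h2)
        rwa [h5]
  unfold GPath.hh
  rw [this]

/-- The relation kept by the cop who changes from lower mode on the old path to lower mode on the
new path. -/
def rel (b : Bypass P i j z) : V → V → Prop := fun r c =>
  ∃ x, (c = P.q x ∨ c = b.flip.q x) ∧ P.lo ≤ x ∧ x ≤ P.hi ∧ x ≤ P.hh i r ∧
    (i - 1 ≤ x ∨ P.hh i r - 1 ≤ x)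

/-- Climbing on the new path. -/
theorem att_climb (b : Bypass P i j z) (n : ℕ) : ∀ r ∈ R, ∀ x, P.lo ≤ x → x ≤ P.hi →
    P.hi - x ≤ n → x ≤ b.flip.be r → (i - 1 ≤ x ∨ P.hh i r - 1 ≤ x) →
    Att G R b.rel b.flip.low r (b.flip.q x) := by
  have hi := (b.lt.le.trans b.le_hi)
  induction n with
  | zero =>
    intro r _ x h1 h2 h3 h4 _
    refine Att.done (b.flip.low_iff.2 ⟨x, rfl, Or.inl ?_⟩)
    have h6 := b.flip.be_le_hi r
    have h7 : b.flip.hi = P.hi := rfl
    push_cast at h3
    omega
  | succ n ih =>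
    intro r hr x h1 h2 h3 h4 h5
    by_cases h6 : b.flip.be r - 1 ≤ x
    · exact Att.done (b.flip.low_iff.2 ⟨x, rfl, by omega⟩)
    · have h7 := b.flip.be_le_hi r
      have h8 : b.flip.hi = P.hi := rfl
      have h9 : b.flip.be r ≤ P.hh i r := by
        rw [← b.hh_flip r]
        exact b.flip.be_le_hh (by rw [h8]; omega) r
      refine Att.step' ⟨x, Or.inr rfl, h1, h2, by omega, h5⟩ fun r' hr' ha => ?_
      refine ⟨b.flip.q (x + 1), b.flip.adj x h1 (by omega), ?_⟩
      have h10 := b.flip.be_lip hr ha.symm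
      have h11 := P.hh_lip i hr' ha
      exact ih r' hr' (x + 1) (by omega) (by omega) (by push_cast at h3; omega) (by omega)
        (by omega)

/-- The cop at a low level starts climbing. -/
theorem att_low_level (b : Bypass P i j z) {r : V} (hr : r ∈ R) {x : ℤ} (h1 : P.lo ≤ x)
    (h2 : x ≤ i) (h3 : x ≤ P.hh i r) (h4 : i - 1 ≤ x ∨ P.hh i r - 1 ≤ x) :
    Att G R b.rel b.flip.low r (P.q x) := by
  have h5 : b.flip.q x = P.q x := fq_out P z (Or.inl h2)
  have hi := (b.lt.le.trans b.le_hi)
  rw [← h5]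
  refine b.att_climb (P.hi - x).toNat r hr x h1 (by omega) (by omega) ?_ h4
  have h8 : b.flip.hi = P.hi := rfl
  rcases b.flip.be_cases (i := i) (by rw [h8]; omega) r with h | h
  · rw [h, b.hh_flip r]; exact h3
  · omega

theorem att_descend (b : Bypass P i j z) (n : ℕ) : ∀ r ∈ R, ∀ x, i ≤ x → x ≤ P.hi →
    x - i ≤ n → x ≤ P.hh i r → Att G R b.rel b.flip.low r (P.q x) := by
  have g1 := b.lo_le
  induction n with
  | zero =>
    intro r hr x h1 h2 h3 h4
    exact b.att_low_level hr (by omega) (by push_cast at h3; omega) h4 (by omega)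
  | succ n ih =>
    intro r hr x h1 h2 h3 h4
    by_cases h5 : x ≤ i
    · exact b.att_low_level hr (by omega) h5 h4 (by omega)
    · refine Att.step' ⟨x, Or.inl rfl, by omega, h2, h4, by omega⟩ fun r' hr' ha => ?_
      refine ⟨P.q (x - 1), ?_, ?_⟩
      · have := P.adj (x - 1) (by omega) (by omega)
        rw [sub_add_cancel] at this
        exact this.symm
      · have h6 := P.hh_lip i hr ha.symm
        have h7 := P.hh_lip i (r := r') (r' := r) hr ha.symm
        exact ih r' hr' (x - 1) (by omega) (by omega) (by push_cast at h3; omega) (by omega)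

/-- From lower mode on the old path to lower mode on the new path. -/
theorem att_low (b : Bypass P i j z) : ∀ r ∈ R, ∀ c, P.low r c →
    Att G R b.rel b.flip.low r c := by
  intro r hr c hc
  have g1 := b.lo_le
  have g2 := b.lt
  have g3 := b.le_hi
  obtain ⟨x, rfl, hx⟩ := P.low_iff.1 hc
  have h1 := P.be_le_hi r
  have h2 := P.lo_lt_be hr
  have h3 := P.be_le_hh (i := i) (by omega) r
  by_cases h4 : i ≤ x
  · exact b.att_descend (x - i).toNat r hr x h4 (by omega) (by omega) (by omega)
  · rcases P.be_cases (i := i) (by omega) r with h | h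
    · exact b.att_low_level hr (by omega) (by omega) (by omega) (by omega)
    · omega

/-- The relation covers the D-edges up to level `i`. -/
theorem covers_rel (b : Bypass P i j z) {r : V} {w : ℤ} (hr : r ∈ R) (hw : P.lo ≤ w)
    (hw' : w ≤ i) (ha : G.Adj r (P.q w)) (hD : P.al r = w + 1) : Covers G b.rel r (P.q w) := by
  rintro c ⟨x, hc, h1, h2, h3, h4⟩
  have g1 := b.lo_le
  have g2 := b.lt
  have g3 := b.le_hi
  have h5 := P.hh_le hw hw' (Reach.one hr ha)
  have h6 := P.al_le_be hr
  have h7 := P.be_le_hh (i := i) (by omega) r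
  push_cast at h5
  have hq : b.flip.q w = P.q w := fq_out P z (Or.inl hw')
  have h8 : x = w - 1 ∨ x = w ∨ x = w + 1 := by omega
  rcases h8 with rfl | rfl | rfl
  · right
    have e : b.flip.q (w - 1) = P.q (w - 1) := fq_out P z (Or.inl (by omega))
    have h9 : c = P.q (w - 1) := by
      rcases hc with h | h
      · exact h
      · rw [h, e]
    rw [h9]
    have := P.adj (w - 1) (by omega) (by omega)
    rwa [sub_add_cancel] at this
  · left
    rcases hc with h | h
    · exact h
    · rw [h, hq]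
  · right
    rcases hc with h | h
    · rw [h]; exact (P.adj w (by omega) (by omega)).symm
    · rw [h, ← hq]; exact (b.flip.adj w (by change P.lo ≤ w; omega)
        (by change w < P.hi; omega)).symm

end Bypass

/-- The D-edge at level `i` gives a bypass. -/
theorem GPath.exists_bypass {R : Set V} (P : GPath G R) (hout : ∀ x, P.lo ≤ x → x ≤ P.hi →
    P.q x ∉ R) {r : V} {i : ℤ} (hr : r ∈ R) (hi : P.lo ≤ i) (ha : G.Adj r (P.q i))
    (hD : P.al r = i + 1) : ∃ j z, Bypass P i j z := by
  rcases P.al_mem r with h | ⟨x, n, h1, h2, h3, h4⟩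
  · omega
  · obtain ⟨f, f0, fn, hf⟩ := h3.exists_fun
    have hn : n ≠ 0 := by
      rintro rfl
      exact hout x h1 h2 (h3.eq_zero ▸ hr)
    refine ⟨x, fun y => if y ≤ i then P.q i else f (y - i - 1).toNat, hi, by omega, h2, by simp,
      ?_, ?_, ?_⟩
    · have : ¬ x ≤ i := by omega
      simp only [this, if_false]
      rw [show (x - i - 1).toNat = n by omega, fn]
    · intro y hy1 hy2
      by_cases h5 : y ≤ i
      · have h6 : y = i := by omega
        subst h6
        have h7 : ¬ y + 1 ≤ y := by omega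
        simp only [le_refl, if_true, h7, if_false]
        rw [show (y + 1 - y - 1).toNat = 0 by omega, f0]
        exact ha.symm
      · have h7 : ¬ y + 1 ≤ i := by omega
        simp only [h5, if_false, h7]
        have := (hf (y - i - 1).toNat (by omega)).2
        rwa [show (y - i - 1).toNat + 1 = (y + 1 - i - 1).toNat by omega] at this
    · intro y hy1 hy2
      have h5 : ¬ y ≤ i := by omega
      simp only [h5, if_false]
      exact (hf (y - i - 1).toNat (by omega)).1

end Pool.Agent.Lib.MP9d0a1e
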