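import Pool.Agent.Lib.MP_9d0a1e_co.Cyc

/-!
# States of the strategy
-/

namespace Pool.Agent.Lib.MP9d0a1e

universe u

variable {V : Type u} {G : SimpleGraph V}

/-- Two guards protect the boundary, which lies on a cycle: the first guard covers the vertices
`w a, ..., w e`, the second one the other vertices of the cycle. -/
structure AState (G : SimpleGraph V) (R : Set V) (w : ℤ → V) (N : ℤ) (g1 g2 : V → V → Prop)
    (a e : ℤ) : Prop where
  cyc : Cyc G w N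
  out : ∀ x, w x ∉ R
  bd : ∀ r ∈ R, ∀ b, b ∉ R → G.Adj r b → ∃ x, w x = b
  conn : Conn G R
  gd1 : IsGuard G R g1
  gd2 : IsGuard G R g2
  lt : e < a + N
  cov1 : ∀ r ∈ R, ∀ x, a ≤ x → x ≤ e → G.Adj r (w x) → Covers G g1 r (w x)
  cov2 : ∀ r ∈ R, ∀ x, e < x → x < a + N → G.Adj r (w x) → Covers G g2 r (w x)

/-- One guard protects part of the cycle, the rest is on a guardable path. -/
structure BState (G : SimpleGraph V) (R : Set V) (w : ℤ → V) (N : ℤ) (P : GPath G R) (a b : ℤ)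
    (g1 : V → V → Prop) : Prop where
  cyc : Cyc G w N
  out : ∀ x, w x ∉ R
  bd : ∀ r ∈ R, ∀ b, b ∉ R → G.Adj r b → ∃ x, w x = b
  conn : Conn G R
  gd1 : IsGuard G R g1
  lo_le : P.lo ≤ a
  lt : a < b
  le_hi : b ≤ P.hi
  lt' : b < a + N
  eq : ∀ x, a ≤ x → x ≤ b → w x = P.q x
  pout : ∀ x, P.lo ≤ x → x ≤ P.hi → P.q x ∉ R
  hab : ∀ r ∈ R, ∀ x, P.lo ≤ x → x ≤ P.hi → G.Adj r (P.q x) → a ≤ x ∧ x ≤ b
  cov1 : ∀ r ∈ R, ∀ x, b < x → x < a + N → G.Adj r (w x) → Covers G g1 r (w x)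

theorem GPath.up_restrict {R : Set V} (P : GPath G R) {Y : Set V} {r0 r : V} (h0 : r0 ∈ R \ Y)
    (hY : ∀ y ∈ Y, ∃ x, P.lo ≤ x ∧ x ≤ P.hi ∧ P.q x = y) (hr : r ∈ comp G (R \ Y) r0) (c : V) :
    (P.restrict (fun _ hx => (comp_subset h0 hx).1 : comp G (R \ Y) r0 ⊆ R)).up r c ↔
      P.up r c := by
  unfold GPath.up
  rw [P.al_restrict h0 hY hr]
  rfl

theorem GPath.low_restrict {R : Set V} (P : GPath G R) {Y : Set V} {r0 r : V} (h0 : r0 ∈ R \ Y)
    (hY : ∀ y ∈ Y, ∃ x, P.lo ≤ x ∧ x ≤ P.hi ∧ P.q x = y) (hr : r ∈ comp G (R \ Y) r0) (c : V) :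
    (P.restrict (fun _ hx => (comp_subset h0 hx).1 : comp G (R \ Y) r0 ⊆ R)).low r c ↔
      P.low r c := by
  refine P.rev.up_restrict h0 ?_ hr c
  intro y hy
  obtain ⟨x, h1, h2, h3⟩ := hY y hy
  exact ⟨-x, by simp [rev]; omega, by simp [rev]; omega, by simpa [rev] using h3⟩

theorem mk_cases {f g : ℤ → V} {a b m : ℤ} (hm : 1 ≤ m) (hab : a < b) (x : ℤ) :
    (∃ y, a ≤ y ∧ y ≤ b ∧ mk f g a b m x = f y) ∨ (∃ y, 0 < y ∧ y < m ∧ mk f g a b m x = g y) := by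
  have h2 := Int.emod_nonneg (x - a) (show b - a + m ≠ 0 by omega)
  have h3 := Int.emod_lt_of_pos (x - a) (show 0 < b - a + m by omega)
  unfold mk
  by_cases h : (x - a) % (b - a + m) ≤ b - a
  · rw [if_pos h]
    exact Or.inl ⟨_, by omega, by omega, rfl⟩
  · rw [if_neg h]
    exact Or.inr ⟨_, by omega, by omega, rfl⟩

/-- Construction of a `BState` on a component. -/
theorem bstate_mk {R : Set V} (P : GPath G R) {a b m : ℤ} {g : ℤ → V} {Y : Set V} {r0 : V}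
    {h : V → V → Prop} (h0 : r0 ∈ R \ Y) (hlo : P.lo ≤ a) (hab : a < b) (hhi : b ≤ P.hi)
    (hm : 1 ≤ m) (hpath : ∀ x, P.lo ≤ x → x ≤ P.hi → P.q x ∉ R ∨ P.q x ∈ Y)
    (hg0 : P.q b = g 0) (hgm : P.q a = g m)
    (hga : ∀ y, 0 ≤ y → y < m → G.Adj (g y) (g (y + 1)))
    (hfi : ∀ x y, a ≤ x → x < y → y ≤ b → P.q x ≠ P.q y)
    (hgi : ∀ x y, 0 < x → x < y → y < m → g x ≠ g y)
    (hfg : ∀ x y, a ≤ x → x ≤ b → 0 < y → y < m → P.q x ≠ g y)
    (hgK : ∀ y, 0 < y → y < m → g y ∉ comp G (R \ Y) r0)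
    (hbd : ∀ r ∈ comp G (R \ Y) r0, ∀ b', b' ∉ comp G (R \ Y) r0 → G.Adj r b' →
      (∃ x, a ≤ x ∧ x ≤ b ∧ P.q x = b') ∨ ∃ y, 0 < y ∧ y < m ∧ g y = b')
    (habK : ∀ r ∈ comp G (R \ Y) r0, ∀ x, P.lo ≤ x → x ≤ P.hi → G.Adj r (P.q x) → a ≤ x ∧ x ≤ b)
    (hh : IsGuard G (comp G (R \ Y) r0) h)
    (hcov : ∀ r ∈ comp G (R \ Y) r0, ∀ y, 0 < y → y < m → G.Adj r (g y) → Covers G h r (g y)) :
    BState G (comp G (R \ Y) r0) (mk P.q g a b m) (b - a + m)
      (P.restrict (fun _ hx => (comp_subset h0 hx).1)) a b h := by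
  have hq : ∀ x, P.lo ≤ x → x ≤ P.hi → P.q x ∉ comp G (R \ Y) r0 := by
    intro x h1 h2 h3
    have h4 := comp_subset h0 h3
    rcases hpath x h1 h2 with h5 | h5
    · exact h5 h4.1
    · exact h4.2 h5
  refine ⟨?_, ?_, ?_, conn_comp _ _, hh, hlo, hab, hhi, by omega, ?_, hq, habK, ?_⟩
  · exact cyc_mk hm hab hg0 hgm (fun x h1 h2 => P.adj x (by omega) (by omega)) hga hfi hgi hfg
  · intro x
    rcases mk_cases (f := P.q) (g := g) hm hab x with ⟨y, h1, h2, h3⟩ | ⟨y, h1, h2, h3⟩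
    · rw [h3]; exact hq y (by omega) (by omega)
    · rw [h3]; exact hgK y h1 h2
  · intro r hr b' hb' ha
    rcases hbd r hr b' hb' ha with ⟨x, h1, h2, h3⟩ | ⟨y, h1, h2, h3⟩
    · exact ⟨x, by rw [mk_left hm h1 h2, h3]⟩
    · exact ⟨b + y, by rw [mk_right hm hab hg0 hgm h1.le h2.le, h3]⟩
  · intro x h1 h2
    exact mk_left hm h1 h2
  · intro r hr x h1 h2 ha
    have h3 := mk_right (y := x - b) hm hab hg0 hgm (by omega) (by omega)
    rw [show b + (x - b) = x by ring] at h3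
    rw [h3] at ha ⊢
    exact hcov r hr _ (by omega) (by omega) ha

/-- A shortest path through the territory between two boundary vertices. -/
theorem exists_X {R : Set V} (hR : Conn G R) {u v : V} (hu : u ∉ R) (hv : v ∉ R) (huv : u ≠ v)
    (hu' : ∃ r ∈ R, G.Adj r u) (hv' : ∃ r ∈ R, G.Adj r v) :
    ∃ P : GPath G R, P.lo = 0 ∧ 2 ≤ P.hi ∧ P.q 0 = u ∧ P.q P.hi = v ∧
      ∀ x, 0 < x → x < P.hi → P.q x ∈ R := by
  classical
  have hex : ∃ n, ∃ r ∈ R, G.Adj r u ∧ Reach G R n r v := by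
    obtain ⟨r1, hr1, h1⟩ := hu'
    obtain ⟨r2, hr2, h2⟩ := hv'
    obtain ⟨n, hn⟩ := hR r1 hr1 r2 hr2
    exact ⟨n + 1, r1, hr1, h1, hn.snoc hr2 h2⟩
  set n := Nat.find hex with hn
  obtain ⟨r0, hr0, hr0u, hr0v⟩ := Nat.find_spec hex
  rw [← hn] at hr0v
  have hmin : ∀ m r, r ∈ R → G.Adj r u → Reach G R m r v → n ≤ m := fun m r h1 h2 h3 =>
    Nat.find_min' hex ⟨r, h1, h2, h3⟩
  have hmin' : ∀ p m r, r ∈ R → Reach G R p r u → Reach G R m r v → n + 1 ≤ p + m := by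
    intro p m r hr h1 h2
    cases p with
    | zero => exact absurd (h1.eq_zero ▸ hr) hu
    | succ p =>
      obtain ⟨r', hr', h3, h4⟩ := h1.last'
      have := hmin _ r' hr' h3 ((h4.symm hr').trans h2)
      omega
  have hn0 : n ≠ 0 := by
    intro h
    rw [h] at hr0v
    exact hv (hr0v.eq_zero ▸ hr0)
  obtain ⟨f, f0, fn, hf⟩ := hr0v.exists_fun
  let q : ℤ → V := fun x => if x ≤ 0 then u else f (x - 1).toNat
  have q0 : q 0 = u := by simp [q]
  have qn : q (n + 1) = v := by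
    have : ¬ ((n : ℤ) + 1 ≤ 0) := by omega
    simp only [q, this, if_false]
    rw [show ((n : ℤ) + 1 - 1).toNat = n by omega, fn]
  have hqR : ∀ x : ℤ, 0 < x → x < n + 1 → q x ∈ R := by
    intro x h1 h2
    have : ¬ (x ≤ 0) := by omega
    simp only [q, this, if_false]
    exact (hf _ (by omega)).1
  have hadj : ∀ x : ℤ, 0 ≤ x → x < n + 1 → G.Adj (q x) (q (x + 1)) := by
    intro x h1 h2
    rcases eq_or_lt_of_le h1 with rfl | h1
    · have : ¬ ((0 : ℤ) + 1 ≤ 0) := by omega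
      simp only [q, this, if_false, le_refl, if_true]
      simpa [f0] using hr0u.symm
    · have e1 : ¬ (x ≤ 0) := by omega
      have e2 : ¬ (x + 1 ≤ 0) := by omega
      simp only [q, e1, e2, if_false]
      have := (hf (x - 1).toNat (by omega)).2
      rwa [show (x - 1).toNat + 1 = (x + 1 - 1).toNat by omega] at this
  -- distances along the path
  have hdown : ∀ (k : ℕ) (x : ℤ), x = k → x < n + 1 → Reach G R k (q x) u := by
    intro k
    induction k with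
    | zero => intro x hx _; simp at hx; subst hx; rw [q0]; exact Reach.zero _
    | succ k ih =>
      intro x hx hx'
      push_cast at hx
      have h1 := hadj (x - 1) (by omega) (by omega)
      rw [sub_add_cancel] at h1
      exact Reach.step (hqR x (by omega) hx') h1.symm (ih (x - 1) (by omega) (by omega))
  have hupw : ∀ (k : ℕ) (x : ℤ), 0 < x → x + k = n + 1 → Reach G R k (q x) v := by
    intro k
    induction k with
    | zero => intro x _ hx; simp at hx; subst hx; rw [qn]; exact Reach.zero _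
    | succ k ih =>
      intro x hx hx'
      push_cast at hx'
      exact Reach.step (hqR x hx (by omega)) (hadj x hx.le (by omega))
        (ih (x + 1) (by omega) (by omega))
  refine ⟨⟨q, 0, n + 1, by omega, hadj, by rw [q0]; exact hu, by rw [qn]; exact hv, ?_⟩,
    rfl, by change 2 ≤ (n : ℤ) + 1; omega, q0, qn, hqR⟩
  intro r hr x y hx1 hx2 hy1 hy2 p p' h1 h2
  by_cases hxy : x ≤ y
  · omega
  · have e1 := hdown y.toNat y (by omega) (by omega)
    have e2 := hupw ((n : ℤ) + 1 - x).toNat x (by omega) (by omega)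
    have := hmin' _ _ r hr (h2.trans e1) (h1.trans e2)
    omega

theorem GPath.inj_R {R : Set V} (P : GPath G R) {x y : ℤ} (hx1 : P.lo ≤ x) (hx2 : x ≤ P.hi)
    (hy1 : P.lo ≤ y) (hy2 : y ≤ P.hi) (hR : P.q x ∈ R) (h : P.q x = P.q y) : x = y := by
  have h1 := P.iso _ hR x y hx1 hx2 hy1 hy2 0 0 (Reach.zero _) (h ▸ Reach.zero _)
  have h2 := P.iso _ hR y x hy1 hy2 hx1 hx2 0 0 (h ▸ Reach.zero _) (Reach.zero _)
  push_cast at h1 h2
  omega

theorem exists_exit {R : Set V} : ∀ {u v : V}, G.Walk u v → u ∈ R → v ∉ R →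
    ∃ r ∈ R, ∃ b, b ∉ R ∧ G.Adj r b := by
  intro u v p
  induction p with
  | nil => intro h1 h2; exact absurd h1 h2
  | @cons u w v ha _ ih =>
    intro h1 h2
    by_cases hw : w ∈ R
    · exact ih hw h2
    · exact ⟨u, h1, w, hw, ha⟩

end Pool.Agent.Lib.MP9d0a1e
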